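import Pool.Agent.FL0.StG
import Pool.Agent.RSF.LG

/-!
# FL0_LOW: lower bound for the number of homomorphisms (helper64)
-/

namespace FL0

open RSF Polynomial

noncomputable section

namespace LOW_aux

/-- the product of the `jn` -/
theorem JJ_ge (hPJ : S_PJ) (n : ℕ) (F : Type) [Field F] [Finite F] (m : List ℕ)
    (hm : ∀ k ∈ m, 1 ≤ k) :
    (Nat.card (PS n F) : ℝ) ^ m.length * (Nat.card F : ℝ) ^
      (-(((m.length : ℝ) - sig m) * (n : ℝ) ^ 2) - 4 * (m.map fun k : ℕ => (k : ℝ) ^ 2).sum) ≤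
        JJ (PS n F) m := by
  have hq : (2 : ℝ) ≤ (Nat.card F : ℝ) := by
    exact_mod_cast Finite.one_lt_card (α := F)
  have hq0 : (0 : ℝ) < (Nat.card F : ℝ) := by linarith
  induction m with
  | nil => simp [JJ, sig]
  | cons k l ih =>
    have h1 := ih fun k hk => hm k (List.mem_cons_of_mem _ hk)
    have h2 := hPJ F n k (hm k List.mem_cons_self)
    have h3 : ((JJ (PS n F) (k :: l) : ℕ) : ℝ) = (jn (PS n F) k : ℝ) * (JJ (PS n F) l : ℝ) := by
      unfold JJ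
      rw [List.map_cons, List.prod_cons, Nat.cast_mul]
    have h4 : sig (k :: l) = (1 - 1 / (k : ℝ)) + sig l := by
      unfold sig
      rw [List.map_cons, List.sum_cons]
    rw [h3, h4, List.map_cons, List.sum_cons, List.length_cons]
    refine le_trans (le_of_eq ?_) (mul_le_mul h2 h1 (by positivity) (Nat.cast_nonneg _))
    have h5 : (-((((l.length + 1 : ℕ) : ℝ) - ((1 - 1 / (k : ℝ)) + sig l)) * (n : ℝ) ^ 2) -
        4 * ((k : ℝ) ^ 2 + (l.map fun k : ℕ => (k : ℝ) ^ 2).sum)) =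
        (-((n : ℝ) ^ 2 / k) - 4 * (k : ℝ) ^ 2) +
        (-(((l.length : ℝ) - sig l) * (n : ℝ) ^ 2) -
          4 * (l.map fun k : ℕ => (k : ℝ) ^ 2).sum) := by
      push_cast
      ring
    rw [h5, Real.rpow_add hq0, pow_succ]
    ring

/-- the order of `PSL_n(F)` -/
theorem PS_ge (hPI : S_PI) (n : ℕ) (F : Type) [Field F] [Finite F] :
    (Nat.card F : ℝ) ^ ((n : ℝ) ^ 2 - 4) ≤ Nat.card (PS n F) := by
  have hq : (2 : ℝ) ≤ (Nat.card F : ℝ) := by
    exact_mod_cast Finite.one_lt_card (α := F)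
  have hq0 : (0 : ℝ) < (Nat.card F : ℝ) := by linarith
  have h1 := LG.card_PS_ge (F := F) (n := n) hPI
  have h2 : (Nat.card F : ℝ) ^ ((n : ℝ) ^ 2 - 4) =
      (Nat.card F : ℝ) ^ (n ^ 2) / (Nat.card F : ℝ) ^ 4 := by
    have e1 := Real.rpow_natCast (Nat.card F : ℝ) (n ^ 2)
    have e2 := Real.rpow_natCast (Nat.card F : ℝ) 4
    rw [← e1, ← e2, ← Real.rpow_sub hq0]
    congr 1
    push_cast
    ring
  rw [h2, div_le_iff₀ (by positivity)]
  have h3 : (4 : ℝ) ≤ (Nat.card F : ℝ) ^ 2 := by nlinarith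
  calc (Nat.card F : ℝ) ^ (n ^ 2) = 4 * ((Nat.card F : ℝ) ^ (n ^ 2) / 4) := by ring
    _ ≤ 4 * ((Nat.card F : ℝ) ^ 2 * Nat.card (PS n F)) := by linarith
    _ ≤ (Nat.card F : ℝ) ^ 2 * ((Nat.card F : ℝ) ^ 2 * Nat.card (PS n F)) :=
        mul_le_mul_of_nonneg_right h3 (by positivity)
    _ = _ := by ring

end LOW_aux

open LOW_aux in
theorem t_LOW : M_LOW := by
  intro hPI hPJ hCNT m hm hsig
  obtain ⟨c, r, hc, hr, hmain⟩ := hCNT m hm hsig
  obtain ⟨e, he⟩ : ∃ e, m.length = e + 1 := by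
    cases m with
    | nil =>
      exfalso
      unfold sig at hsig
      simp at hsig
      linarith
    | cons a l => exact ⟨l.length, rfl⟩
  obtain ⟨T, hT⟩ : ∃ T : ℝ, T = (m.map fun k : ℕ => (k : ℝ) ^ 2).sum := ⟨_, rfl⟩
  have hT0 : 0 ≤ T := by
    rw [hT]
    refine List.sum_nonneg fun x hx => ?_
    obtain ⟨k, -, rfl⟩ := List.mem_map.1 hx
    positivity
  refine ⟨1 + 4 * e + 4 * T, max r ⌈1 / c⌉₊, by positivity, fun n hn F _ _ hF1 hF2 => ?_⟩
  have hq : (2 : ℝ) ≤ (Nat.card F : ℝ) := by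
    exact_mod_cast Finite.one_lt_card (α := F)
  have hq0 : (0 : ℝ) < (Nat.card F : ℝ) := by linarith
  have h1 := hmain n ((le_max_left _ _).trans hn) F hF1 hF2
  have hcn : 1 ≤ c * (n : ℝ) := by
    have e1 : 1 / c ≤ (n : ℝ) :=
      (Nat.le_ceil _).trans (by exact_mod_cast (le_max_right _ _).trans hn)
    rw [div_le_iff₀ hc] at e1
    linarith
  have hhalf : (Nat.card F : ℝ) ^ (-c * (n : ℝ)) ≤ 1 / 2 := by
    calc (Nat.card F : ℝ) ^ (-c * (n : ℝ)) ≤ (Nat.card F : ℝ) ^ (-1 : ℝ) :=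
          Real.rpow_le_rpow_of_exponent_le (by linarith) (by linarith)
      _ = (Nat.card F : ℝ)⁻¹ := Real.rpow_neg_one _
      _ ≤ 2⁻¹ := inv_anti₀ (by norm_num) hq
      _ = 1 / 2 := by norm_num
  have hJ := JJ_ge hPJ n F m fun k hk => le_trans (by norm_num) (hm k hk)
  rw [← hT, he] at hJ
  have hPS : Finite (PS n F) := LG.finPS
  have hPpos : (0 : ℝ) < (Nat.card (PS n F) : ℝ) := by
    exact_mod_cast Nat.card_pos
  have hJpos : (0 : ℝ) < (JJ (PS n F) m : ℝ) := lt_of_lt_of_le (by positivity) hJ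
  have h2 : (JJ (PS n F) m : ℝ) / 2 ≤ (hN n F m : ℝ) * Nat.card (PS n F) := by
    have e1 := (abs_le.1 (h1.trans hhalf)).1
    have e2 : 1 / 2 ≤ (hN n F m : ℝ) * Nat.card (PS n F) / JJ (PS n F) m := by linarith
    rw [le_div_iff₀ hJpos] at e2
    linarith
  obtain ⟨A, hA⟩ : ∃ A : ℝ, A = -((((e + 1 : ℕ) : ℝ) - sig m) * (n : ℝ) ^ 2) - 4 * T := ⟨_, rfl⟩
  rw [← hA] at hJ
  have h3 : 1 / 2 * ((Nat.card (PS n F) : ℝ) ^ e * (Nat.card F : ℝ) ^ A) ≤ hN n F m := by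
    have e1 : (1 / 2 * ((Nat.card (PS n F) : ℝ) ^ e * (Nat.card F : ℝ) ^ A)) *
        Nat.card (PS n F) ≤ (hN n F m : ℝ) * Nat.card (PS n F) := by
      refine le_trans (le_of_eq ?_) ((div_le_div_of_nonneg_right hJ (by norm_num)).trans h2)
      rw [pow_succ]
      ring
    exact le_of_mul_le_mul_right e1 hPpos
  refine le_trans ?_ h3
  have h4 : (Nat.card F : ℝ) ^ (((n : ℝ) ^ 2 - 4) * e) ≤ (Nat.card (PS n F) : ℝ) ^ e := by
    rw [Real.rpow_mul hq0.le, Real.rpow_natCast]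
    exact pow_le_pow_left₀ (by positivity) (PS_ge hPI n F) e
  have h5 : (Nat.card F : ℝ) ^ (-1 : ℝ) ≤ 1 / 2 := by
    rw [Real.rpow_neg_one]
    calc (Nat.card F : ℝ)⁻¹ ≤ 2⁻¹ := inv_anti₀ (by norm_num) hq
      _ = 1 / 2 := by norm_num
  have h6 : (sig m - 1) * (n : ℝ) ^ 2 - (1 + 4 * e + 4 * T) =
      -1 + (((n : ℝ) ^ 2 - 4) * e + A) := by
    rw [hA]
    push_cast
    ring
  rw [h6, Real.rpow_add hq0, Real.rpow_add hq0]
  exact mul_le_mul h5 (mul_le_mul_of_nonneg_right h4 (by positivity)) (by positivity)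
    (by norm_num)

end

end FL0
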