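import Pool.Agent.FL0.StG
import Pool.Agent.RSF.B

/-!
# Module `FIII`: subgroups of large index
-/

set_option autoImplicit false

open RSF

namespace FL0

namespace FIII

/-- the tuples with product one in a conjugate of `M` -/
theorem card_conj1 {G : Type} [Group G] [Finite G] (M : Subgroup G) (e : ℕ) :
    Nat.card {t : Fin (e + 1) → G // (List.ofFn t).prod = 1 ∧ ∃ g : G, ∀ j, g⁻¹ * t j * g ∈ M} ≤
      M.index * Nat.card M ^ e := by
  classical
  have key : ∀ t : {t : Fin (e + 1) → G // (List.ofFn t).prod = 1 ∧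
      ∃ g : G, ∀ j, g⁻¹ * t j * g ∈ M},
      ∃ c : G ⧸ M, ∀ j, c.out⁻¹ * t.1 j * c.out ∈ M := by
    rintro ⟨t, ht, g, hg⟩
    refine ⟨(g : G ⧸ M), fun j => ?_⟩
    obtain ⟨h, hh⟩ := QuotientGroup.mk_out_eq_mul M g
    change (Quotient.out (g : G ⧸ M))⁻¹ * t j * (Quotient.out (g : G ⧸ M)) ∈ M
    rw [hh]
    have h1 : (g * (h : G))⁻¹ * t j * (g * (h : G)) = (h : G)⁻¹ * (g⁻¹ * t j * g) * (h : G) := by
      group
    rw [h1]
    exact M.mul_mem (M.mul_mem (M.inv_mem h.2) (hg j)) h.2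
  choose c hc using key
  have h1 : Nat.card {t : Fin (e + 1) → G // (List.ofFn t).prod = 1 ∧
      ∃ g : G, ∀ j, g⁻¹ * t j * g ∈ M} ≤
      Nat.card ((G ⧸ M) × (Fin e → M)) := by
    refine Nat.card_le_card_of_injective
      (fun t => (c t, fun j => (⟨(c t).out⁻¹ * t.1 j.succ * (c t).out, hc t j.succ⟩ : M))) ?_
    intro t t' h
    simp only [Prod.mk.injEq] at h
    obtain ⟨h2, h3⟩ := h
    have h6 : ∀ j : Fin e, t.1 j.succ = t'.1 j.succ := by
      intro j
      have h4 := congrArg Subtype.val (congrFun h3 j)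
      simp only at h4
      rw [h2] at h4
      have h5 := mul_right_cancel h4
      exact mul_left_cancel h5
    have h7 := t.2.1
    have h8 := t'.2.1
    rw [List.ofFn_succ, List.prod_cons] at h7 h8
    have h9 : (fun i : Fin e => t.1 i.succ) = fun i : Fin e => t'.1 i.succ := funext h6
    rw [h9] at h7
    have h10 : t.1 0 = t'.1 0 := mul_right_cancel (h7.trans h8.symm)
    apply Subtype.ext
    funext j
    refine Fin.cases h10 h6 j
  refine h1.trans (le_of_eq ?_)
  rw [Nat.card_prod, Nat.card_fun, Nat.card_fin, Subgroup.index]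

/-- the union over the set of subgroups -/
theorem card_un {G T : Type} [Group G] [Finite G] [Finite T] (S : Set (Subgroup G))
    (P : Subgroup G → T → Prop) (X : ℝ)
    (hX : ∀ M ∈ S, (Nat.card {t : T // P M t} : ℝ) ≤ X) :
    (Nat.card {t : T // ∃ M ∈ S, P M t} : ℝ) ≤ S.ncard * X := by
  classical
  letI : Fintype S := Fintype.ofFinite S
  have h1 : Nat.card {t : T // ∃ M ∈ S, P M t} ≤ Nat.card (Σ M : S, {t : T // P M.1 t}) := by
    refine Nat.card_le_card_of_injective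
      (fun t => ⟨⟨t.2.choose, t.2.choose_spec.1⟩, ⟨t.1, t.2.choose_spec.2⟩⟩) ?_
    intro t t' h
    simp only [Sigma.mk.injEq] at h
    obtain ⟨h2, h3⟩ := h
    apply Subtype.ext
    have key : ∀ (M M' : S) (x : {t : T // P M.1 t}) (x' : {t : T // P M'.1 t}), M = M' →
        HEq x x' → x.1 = x'.1 := by
      rintro M M' x x' rfl hx
      rw [eq_of_heq hx]
    exact key _ _ _ _ h2 h3
  have h2 : (Nat.card (Σ M : S, {t : T // P M.1 t}) : ℝ) =
      ∑ M : S, (Nat.card {t : T // P M.1 t} : ℝ) := by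
    rw [Nat.card_sigma]
    push_cast
    rfl
  calc (Nat.card {t : T // ∃ M ∈ S, P M t} : ℝ)
      ≤ (Nat.card (Σ M : S, {t : T // P M.1 t}) : ℝ) := by exact_mod_cast h1
    _ = ∑ M : S, (Nat.card {t : T // P M.1 t} : ℝ) := h2
    _ ≤ ∑ _M : S, X := Finset.sum_le_sum fun M _ => hX M.1 M.2
    _ = S.ncard * X := by
        rw [Finset.sum_const, Finset.card_univ, nsmul_eq_mul, ← Nat.card_eq_fintype_card]
        rfl

/-- `|PSL_n(q)| ≤ q ^ (n ^ 2)` -/
theorem card_PS_le (n : ℕ) (F : Type) [Field F] [Finite F] :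
    (Nat.card (PS n F) : ℝ) ≤ (Nat.card F : ℝ) ^ ((n : ℝ) ^ 2) := by
  have h1 : Nat.card (PS n F) ≤ Nat.card (SL n F) := by
    have : Finite (SL n F) := by
      unfold SL Matrix.SpecialLinearGroup
      infer_instance
    exact Nat.card_le_card_of_surjective (fun A : SL n F => (mk A : PS n F))
      (fun x => QuotientGroup.mk_surjective x)
  have h2 : Nat.card (SL n F) ≤ Nat.card (Fin n → Fin n → F) :=
    Nat.card_le_card_of_injective (fun A : SL n F => (A.1 : Fin n → Fin n → F))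
      Subtype.val_injective
  have h3 : Nat.card (Fin n → Fin n → F) = Nat.card F ^ (n ^ 2) := by
    rw [Nat.card_fun, Nat.card_fun, Nat.card_fin, ← pow_mul, pow_two]
  have h4 : Nat.card (PS n F) ≤ Nat.card F ^ (n ^ 2) := by
    rw [← h3]
    exact h1.trans h2
  have h5 : (Nat.card F : ℝ) ^ ((n : ℝ) ^ 2) = (Nat.card F : ℝ) ^ (n ^ 2) := by
    rw [show ((n : ℝ) ^ 2) = ((n ^ 2 : ℕ) : ℝ) by push_cast; ring, Real.rpow_natCast]
  rw [h5]
  exact_mod_cast h4

/-- one subgroup -/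
theorem one_sub {G : Type} [Group G] [Finite G] (M : Subgroup G) (e : ℕ) (Q Y : ℝ)
    (hQ : 0 < Q) (hQM : Q ≤ M.index) (hY : (Nat.card G : ℝ) ≤ Y) :
    (Nat.card {t : Fin (e + 2) → G // (List.ofFn t).prod = 1 ∧
      ∃ g : G, ∀ j, g⁻¹ * t j * g ∈ M} : ℝ) ≤ Y ^ (e + 1) / Q ^ e := by
  have h4 : (Nat.card {t : Fin (e + 2) → G // (List.ofFn t).prod = 1 ∧
      ∃ g : G, ∀ j, g⁻¹ * t j * g ∈ M} : ℝ) ≤ M.index * (Nat.card M : ℝ) ^ (e + 1) := by
    exact_mod_cast card_conj1 M (e + 1)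
  have hG : (0 : ℝ) < Nat.card G := by exact_mod_cast Nat.card_pos
  have h5 : (M.index : ℝ) * Nat.card M = Nat.card G := by
    have := M.card_mul_index
    rw [mul_comm] at this
    exact_mod_cast this
  have h6 : (Nat.card M : ℝ) * Q ≤ Nat.card G := by
    rw [← h5, mul_comm]
    exact mul_le_mul_of_nonneg_right hQM (Nat.cast_nonneg _)
  refine h4.trans ?_
  rw [le_div_iff₀ (pow_pos hQ _), pow_succ]
  calc (M.index : ℝ) * ((Nat.card M : ℝ) ^ e * Nat.card M) * Q ^ e
      = ((M.index : ℝ) * Nat.card M) * ((Nat.card M : ℝ) * Q) ^ e := by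
        rw [mul_pow]; ring
    _ ≤ (Nat.card G : ℝ) * (Nat.card G : ℝ) ^ e := by
        rw [h5]
        exact mul_le_mul_of_nonneg_left (pow_le_pow_left₀ (by positivity) h6 e) hG.le
    _ = (Nat.card G : ℝ) ^ (e + 1) := by ring
    _ ≤ Y ^ (e + 1) := pow_le_pow_left₀ hG.le hY _

/-- at least three periods -/
theorem len (m : List ℕ) (hm : ∀ k ∈ m, 2 ≤ k) (hs : 2 < sig m) : 3 ≤ m.length := by
  have h1 : ∀ l : List ℕ, (∀ k ∈ l, 2 ≤ k) → sig l ≤ l.length := by
    intro l
    induction l with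
    | nil =>
      intro _
      simp [sig]
    | cons k l ih =>
      intro h
      have h2 := ih (fun x hx => h x (List.mem_cons_of_mem _ hx))
      have h3 : sig (k :: l) = (1 - 1 / (k : ℝ)) + sig l := by
        simp [sig]
      rw [h3, List.length_cons]
      push_cast
      have : 0 ≤ 1 / (k : ℝ) := by positivity
      linarith
  have h2 := h1 m hm
  have h3 : (2 : ℝ) < m.length := lt_of_lt_of_le hs h2
  have h4 : 2 < m.length := by exact_mod_cast h3
  omega

end FIII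

open FIII in
theorem t_FIII : M_FIII := by
  intro hHO hLOW m hm hs θ hθ
  have hd := len m hm hs
  obtain ⟨e, he⟩ : ∃ e, m.length = e + 2 := ⟨m.length - 2, by omega⟩
  obtain ⟨C, r0, hC, hL⟩ := hLOW m hm hs
  obtain ⟨η, hη⟩ : ∃ η : ℝ, η = (θ * (m.length - 2) - (m.length - sig m)) / 3 := ⟨_, rfl⟩
  have hη0 : 0 < η := by rw [hη]; linarith
  obtain ⟨r1, hr1⟩ := exists_nat_ge ((C + 1) / (2 * η))
  refine ⟨η, max r0 (max r1 1), hη0, fun n hn F _ _ hF1 hF2 S hS hM => ?_⟩
  have hn0 : r0 ≤ n := (le_max_left _ _).trans hn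
  have hn1 : r1 ≤ n := (le_max_left _ _).trans ((le_max_right _ _).trans hn)
  have hn2 : 1 ≤ n := (le_max_right _ _).trans ((le_max_right _ _).trans hn)
  have hfin : Finite (PS n F) := B.fin_ps n F
  have hlow := hL n hn0 F hF1 hF2
  obtain ⟨q, hq⟩ : ∃ q : ℝ, q = Nat.card F := ⟨_, rfl⟩
  have hPS := card_PS_le n F
  rw [← hq] at hS hM hlow hPS ⊢
  have hq1 : 1 < q := by
    rw [hq]
    exact_mod_cast Finite.one_lt_card
  have hq0 : 0 < q := by linarith
  -- the numerator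
  have hnum : (Nat.card {ρ : OGroup 0 m →* PS n F // ∃ M ∈ S, InConj ρ.range M} : ℝ) ≤
      q ^ (η * (n : ℝ) ^ 2) * ((q ^ ((n : ℝ) ^ 2)) ^ (e + 1) / (q ^ (θ * (n : ℝ) ^ 2)) ^ e) := by
    have h1 : Nat.card {ρ : OGroup 0 m →* PS n F // ∃ M ∈ S, InConj ρ.range M} ≤
        Nat.card {ρ : OGroup 0 m →* PS n F //
          (fun t : Fin m.length → PS n F => ∃ M ∈ S, ∃ g : PS n F, ∀ j, g⁻¹ * t j * g ∈ M)
            fun j => ρ (ox 0 m j)} := by
      have : Finite {ρ : OGroup 0 m →* PS n F //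
          (fun t : Fin m.length → PS n F => ∃ M ∈ S, ∃ g : PS n F, ∀ j, g⁻¹ * t j * g ∈ M)
            fun j => ρ (ox 0 m j)} := by
        have hfinhom : Finite (OGroup 0 m →* PS n F) := by
          have hinj : Function.Injective
              (fun (ρ : OGroup 0 m →* PS n F) (x : OGen 0 m.length) =>
                ρ (PresentedGroup.of x)) := by
            intro ρ ρ' h
            apply PresentedGroup.ext
            intro x
            exact congrFun h x
          have : Finite (OGen 0 m.length) := by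
            refine Finite.of_injective (β := Fin m.length) (fun x => match x with
              | OGen.a i => i.elim0
              | OGen.b i => i.elim0
              | OGen.x j => j) ?_
            rintro (i | i | j) (i' | i' | j') h
            · exact i.elim0
            · exact i.elim0
            · exact i.elim0
            · exact i.elim0
            · exact i.elim0
            · exact i.elim0
            · exact i'.elim0
            · exact i'.elim0
            · exact congrArg OGen.x h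
          exact Finite.of_injective _ hinj
        infer_instance
      refine Nat.card_le_card_of_injective (fun ρ => ⟨ρ.1, ?_⟩) ?_
      · obtain ⟨M, hMS, g, hg⟩ := ρ.2
        exact ⟨M, hMS, g, fun j => hg _ ⟨_, rfl⟩⟩
      · intro ρ ρ' h
        simp only [Subtype.mk.injEq] at h
        exact Subtype.ext h
    have hc := hHO (PS n F) m (fun t => ∃ M ∈ S, ∃ g : PS n F, ∀ j, g⁻¹ * t j * g ∈ M)
    have h2 : Nat.card {t : Fin m.length → PS n F // (∀ j, t j ^ m.get j = 1) ∧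
        (∃ M ∈ S, ∃ g : PS n F, ∀ j, g⁻¹ * t j * g ∈ M) ∧ (List.ofFn t).prod = 1} ≤
        Nat.card {t : Fin m.length → PS n F // ∃ M ∈ S, (List.ofFn t).prod = 1 ∧
          ∃ g : PS n F, ∀ j, g⁻¹ * t j * g ∈ M} := by
      refine Nat.card_le_card_of_injective (fun t => ⟨t.1, ?_⟩) ?_
      · obtain ⟨_, ⟨M, hMS, hg⟩, hp⟩ := t.2
        exact ⟨M, hMS, hp, hg⟩
      · intro t t' h
        simp only [Subtype.mk.injEq] at h
        exact Subtype.ext h
    have h3 := card_un S (fun (M : Subgroup (PS n F)) (t : Fin m.length → PS n F) =>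
      (List.ofFn t).prod = 1 ∧ ∃ g : PS n F, ∀ j, g⁻¹ * t j * g ∈ M)
      ((q ^ ((n : ℝ) ^ 2)) ^ (e + 1) / (q ^ (θ * (n : ℝ) ^ 2)) ^ e) (by
        rw [he]
        intro M hMS
        exact one_sub M e _ _ (Real.rpow_pos_of_pos hq0 _) (hM M hMS) hPS)
    have h4 : (Nat.card {ρ : OGroup 0 m →* PS n F // ∃ M ∈ S, InConj ρ.range M} : ℝ) ≤
        Nat.card {t : Fin m.length → PS n F // ∃ M ∈ S, (List.ofFn t).prod = 1 ∧
          ∃ g : PS n F, ∀ j, g⁻¹ * t j * g ∈ M} := by
      exact_mod_cast (h1.trans (le_of_eq hc)).trans h2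
    refine h4.trans (h3.trans ?_)
    exact mul_le_mul_of_nonneg_right hS (by positivity)
  -- the exponents
  have hexp : q ^ (η * (n : ℝ) ^ 2) *
      ((q ^ ((n : ℝ) ^ 2)) ^ (e + 1) / (q ^ (θ * (n : ℝ) ^ 2)) ^ e) =
      q ^ (η * (n : ℝ) ^ 2 + ((n : ℝ) ^ 2 * (e + 1) - θ * (n : ℝ) ^ 2 * e)) := by
    obtain ⟨N2, hN2⟩ : ∃ N2 : ℝ, N2 = (n : ℝ) ^ 2 := ⟨_, rfl⟩
    rw [← hN2]
    have a1 : (q ^ N2) ^ (e + 1) = q ^ (N2 * (e + 1)) := by
      rw [← Real.rpow_natCast, ← Real.rpow_mul hq0.le]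
      push_cast
      rfl
    have a2 : (q ^ (θ * N2)) ^ e = q ^ (θ * N2 * e) := by
      rw [← Real.rpow_natCast, ← Real.rpow_mul hq0.le]
    rw [a1, a2, ← Real.rpow_sub hq0, ← Real.rpow_add hq0]
  rw [hexp] at hnum
  unfold prob
  have hden : 0 < q ^ ((sig m - 1) * (n : ℝ) ^ 2 - C) := Real.rpow_pos_of_pos hq0 _
  have hhN : (hN n F m : ℝ) = (Nat.card (OGroup 0 m →* PS n F) : ℝ) := rfl
  rw [hhN] at hlow
  have hfrac := div_le_div₀ (Real.rpow_nonneg hq0.le _) hnum hden hlow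
  refine hfrac.trans ?_
  rw [← Real.rpow_sub hq0]
  apply Real.rpow_le_rpow_of_exponent_le hq1.le
  have hle : (m.length : ℝ) = e + 2 := by rw [he]; push_cast; ring
  rw [hle] at hη
  have hnr : (1 : ℝ) ≤ n := by exact_mod_cast hn2
  have hnr1 : (C + 1) / (2 * η) ≤ n := hr1.trans (by exact_mod_cast hn1)
  rw [div_le_iff₀ (by positivity)] at hnr1
  have e1 : η * (n : ℝ) ^ 2 + ((n : ℝ) ^ 2 * (e + 1) - θ * (n : ℝ) ^ 2 * e) -
      ((sig m - 1) * (n : ℝ) ^ 2 - C) = C - 2 * η * (n : ℝ) ^ 2 := by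
    have h3 : 3 * η = θ * (e + 2 - 2) - (e + 2 - sig m) := by rw [hη]; ring
    linear_combination ((n : ℝ) ^ 2) * h3
  rw [e1]
  have e2 : (C + 1) * n ≤ n * (2 * η) * n := mul_le_mul_of_nonneg_right hnr1 (by linarith)
  have e3 : C ≤ C * n := le_mul_of_one_le_right hC hnr
  have e4 : (n : ℝ) * (2 * η) * n = 2 * η * (n : ℝ) ^ 2 := by ring
  linarith

end FL0
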