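import Pool.Agent.FL0.StG

/-!
# Lifts of the tuples of a homomorphism
-/

namespace FL0

open RSF

namespace LFH

variable {n : ℕ} {F : Type} [Field F]

theorem mk_one (A : SL n F) : mk A = 1 ↔ A ∈ Subgroup.center (SL n F) :=
  QuotientGroup.eq_one_iff A

theorem mk_pow (A : SL n F) (k : ℕ) : mk A ^ k = mk (A ^ k) := rfl

theorem mk_pow_one (A : SL n F) (k : ℕ) : mk A ^ k = 1 ↔ A ^ k ∈ Subgroup.center (SL n F) := by
  rw [mk_pow, mk_one]

theorem mk_prod {d : ℕ} (A : Fin d → SL n F) :
    (List.ofFn fun j => mk (A j)).prod = mk (List.ofFn A).prod := by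
  have h := map_list_prod (QuotientGroup.mk' (Subgroup.center (SL n F))) (List.ofFn A)
  rw [List.map_ofFn] at h
  exact h.symm

end LFH

open LFH in
theorem t_LFH : M_LFH := by
  intro hHO hLFT n F _ _
  refine ⟨fun k => ?_, fun m E => ?_⟩
  · have h := hLFT n F 1 fun t => t 0 ^ k = 1
    rw [pow_one] at h
    have e1 : Nat.card (CA n F k) =
        Nat.card {A : Fin 1 → SL n F // (fun t : Fin 1 → PS n F => t 0 ^ k = 1) fun j => mk (A j)} := by
      refine Nat.card_congr ((Equiv.subtypeEquiv (Equiv.funUnique (Fin 1) (SL n F)).symm ?_))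
      intro A
      exact (mk_pow_one A k).symm
    have e2 : Nat.card {t : Fin 1 → PS n F // t 0 ^ k = 1} = jn (PS n F) k := by
      refine Nat.card_congr ((Equiv.subtypeEquiv (Equiv.funUnique (Fin 1) (PS n F)) ?_))
      intro t
      exact Iff.rfl
    rw [e1, h, e2]
  · rw [hHO (PS n F) m E, ← hLFT n F m.length fun t => (∀ j, t j ^ m.get j = 1) ∧ E t ∧
      (List.ofFn t).prod = 1]
    refine Nat.card_congr (Equiv.subtypeEquivRight fun A => ?_)
    rw [mk_prod, mk_one]
    refine and_congr_left fun _ => forall_congr' fun j => ?_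
    exact (mk_pow_one (A j) _).symm

end FL0
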