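import Pool.Agent.FL0.StG

/-!
# FL0_POL: absorption of polynomial factors
-/

set_option autoImplicit false

namespace FL0

theorem t_POL : S_POL := by
  intro c C hc hC
  have hb : 0 < c / 4 * Real.log 2 := by
    have := Real.log_pos (by norm_num : (1 : ℝ) < 2)
    positivity
  have h1 := (isLittleO_rpow_exp_pos_mul_atTop C hb).bound
    (Real.exp_pos (-(c / 4 * Real.log 2)))
  obtain ⟨x₀, hx₀⟩ := Filter.eventually_atTop.1 h1
  obtain ⟨r, hr⟩ := exists_nat_ge (max x₀ (4 * C / c))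
  refine ⟨r, fun n hn q hq => ?_⟩
  have hrn : (r : ℝ) ≤ n := by exact_mod_cast hn
  have hn0 : (0 : ℝ) ≤ n := n.cast_nonneg
  have hx : x₀ ≤ (n : ℝ) + 1 := by
    have := (le_max_left x₀ (4 * C / c)).trans hr
    linarith
  have hCn : C ≤ c / 4 * n := by
    have h2 := (le_max_right x₀ (4 * C / c)).trans hr
    rw [div_le_iff₀ hc] at h2
    nlinarith
  have hq0 : (0 : ℝ) < q := by linarith
  have h3 := hx₀ ((n : ℝ) + 1) hx
  have h4 : ((n : ℝ) + 1) ^ C ≤ q ^ (c / 4 * (n : ℝ)) := by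
    have h5 : ‖((n : ℝ) + 1) ^ C‖ = ((n : ℝ) + 1) ^ C :=
      Real.norm_of_nonneg (Real.rpow_nonneg (by linarith) _)
    rw [h5, Real.norm_of_nonneg (Real.exp_pos _).le, ← Real.exp_add] at h3
    refine h3.trans ?_
    have h6 : -(c / 4 * Real.log 2) + c / 4 * Real.log 2 * ((n : ℝ) + 1) =
        Real.log 2 * (c / 4 * n) := by ring
    rw [h6, ← Real.rpow_def_of_pos (by norm_num : (0 : ℝ) < 2)]
    exact Real.rpow_le_rpow (by norm_num) hq (by positivity)
  calc ((n : ℝ) + 1) ^ C * q ^ (C - c * (n : ℝ))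
      ≤ q ^ (c / 4 * (n : ℝ)) * q ^ (C - c * (n : ℝ)) :=
        mul_le_mul_of_nonneg_right h4 (Real.rpow_nonneg hq0.le _)
    _ = q ^ (c / 4 * (n : ℝ) + (C - c * (n : ℝ))) := (Real.rpow_add hq0 _ _).symm
    _ ≤ q ^ (-(c / 2) * (n : ℝ)) :=
        Real.rpow_le_rpow_of_exponent_le (by linarith) (by linarith)

end FL0
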