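import Pool.Agent.FL0.StG

/-!
# The sum of the Frobenius formula over the tuples of classes (module SMC)
-/

namespace FL0

open RSF Polynomial

noncomputable section

namespace SMC

variable {F : Type} [Field F] {n : ℕ}

omit [Field F] in
theorem finite_mat [Finite F] : Finite (Matrix (Fin n) (Fin n) F) :=
  inferInstanceAs (Finite (Fin n → Fin n → F))

theorem finite_GL [Finite F] : Finite (GL (Fin n) F) := by
  have := finite_mat (F := F) (n := n)
  exact Finite.of_injective (fun g : GL (Fin n) F => g.1) Units.val_injective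

theorem finite_SL [Finite F] : Finite (SL n F) := by
  have := finite_mat (F := F) (n := n)
  exact Finite.of_injective (fun g : SL n F => g.1) Subtype.val_injective

/-- the class in `GL_n` -/
def cl (A : SL n F) : ConjClasses (GL (Fin n) F) :=
  ConjClasses.mk (Matrix.SpecialLinearGroup.toGL A)

/-- the scalar element of `GL_n` -/
def sc (c : Fˣ) : GL (Fin n) F := Units.map (Matrix.scalar (Fin n)).toMonoidHom c

theorem sc_val (c : Fˣ) : (sc (n := n) c).1 = Matrix.scalar (Fin n) (c : F) := rfl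

theorem sc_comm (c : Fˣ) (g : GL (Fin n) F) : sc c * g = g * sc c := by
  apply Units.ext
  change Matrix.scalar (Fin n) (c : F) * g.1 = g.1 * Matrix.scalar (Fin n) (c : F)
  exact Matrix.scalar_commute _ (fun r => Commute.all _ r) _

theorem sc_mul (c c' : Fˣ) : sc (n := n) (c * c') = sc c * sc c' := map_mul _ _ _

theorem sc_inv (c : Fˣ) : sc (n := n) c⁻¹ = (sc c)⁻¹ := map_inv _ _

theorem sc_pow (c : Fˣ) (k : ℕ) : sc (n := n) (c ^ k) = sc c ^ k := map_pow _ _ _

theorem sc_prod (c : List Fˣ) : sc (n := n) c.prod = (c.map sc).prod := map_list_prod _ _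

theorem det_sc (c : Fˣ) : (sc (n := n) c).1.det = (c : F) ^ n := by
  rw [sc_val, Matrix.scalar_apply, Matrix.det_diagonal, Finset.prod_const, Finset.card_univ,
    Fintype.card_fin]

/-- product of scaled elements -/
theorem prod_sc (L : List (Fˣ × GL (Fin n) F)) :
    (L.map fun p => sc p.1 * p.2).prod = sc (L.map fun p => p.1).prod * (L.map fun p => p.2).prod := by
  induction L with
  | nil => simp [sc]
  | cons p L ih =>
    rw [List.map_cons, List.prod_cons, ih, List.map_cons, List.prod_cons, List.map_cons,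
      List.prod_cons, sc_mul, mul_assoc, mul_assoc]
    congr 1
    rw [← mul_assoc, ← mul_assoc, sc_comm _ p.2]

theorem prod_sc' {d : ℕ} (c : Fin d → Fˣ) (t : Fin d → GL (Fin n) F) :
    (List.ofFn fun j => sc (c j) * t j).prod = sc (List.ofFn c).prod * (List.ofFn t).prod := by
  have h := prod_sc (List.ofFn fun j => (c j, t j))
  rw [List.map_ofFn, List.map_ofFn, List.map_ofFn] at h
  exact h

theorem mem_ker (A : Matrix (Fin n) (Fin n) F) (ζ : F) (v : Fin n → F) :
    v ∈ LinearMap.ker (lm A - ζ • LinearMap.id) ↔ A.mulVec v = ζ • v := by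
  rw [LinearMap.mem_ker, LinearMap.sub_apply, sub_eq_zero, LinearMap.smul_apply,
    LinearMap.id_apply, lm, Matrix.toLin'_apply]

/-- conjugation invariance of `ev` -/
theorem ev_conj (g : GL (Fin n) F) (A : Matrix (Fin n) (Fin n) F) (ζ : F) :
    ev (lm (g.1 * A * (g⁻¹).1)) ζ = ev (lm A) ζ := by
  unfold ev
  have h1 : g.1 * (g⁻¹).1 = 1 := Units.mul_inv g
  have h2 : (g⁻¹).1 * g.1 = 1 := Units.inv_mul g
  let e : (Fin n → F) ≃ₗ[F] (Fin n → F) := Matrix.toLin'OfInv h2 h1
  have he : ∀ v, e v = g.1.mulVec v := fun v => by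
    change Matrix.toLin' g.1 v = _
    rw [Matrix.toLin'_apply]
  rw [← LinearEquiv.finrank_map_eq e (LinearMap.ker (lm A - ζ • LinearMap.id))]
  suffices hK : LinearMap.ker (lm (g.1 * A * (g⁻¹).1) - ζ • LinearMap.id) =
      Submodule.map (e : (Fin n → F) →ₗ[F] (Fin n → F))
        (LinearMap.ker (lm A - ζ • LinearMap.id)) by
    rw [hK]
  ext v
  rw [mem_ker, Submodule.mem_map]
  constructor
  · intro h
    refine ⟨(g⁻¹).1.mulVec v, ?_, ?_⟩
    · rw [mem_ker]
      have h3 := congrArg (fun w => (g⁻¹).1.mulVec w) h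
      simp only [Matrix.mulVec_mulVec, Matrix.mulVec_smul] at h3
      rw [← mul_assoc, ← mul_assoc, h2, one_mul] at h3
      rw [Matrix.mulVec_mulVec, h3]
    · change e _ = v
      rw [he, Matrix.mulVec_mulVec, h1, Matrix.one_mulVec]
  · rintro ⟨w, hw, rfl⟩
    rw [mem_ker] at hw
    change (g.1 * A * (g⁻¹).1).mulVec (e w) = ζ • e w
    rw [he, Matrix.mulVec_mulVec, mul_assoc, h2, mul_one, ← Matrix.mulVec_mulVec, hw,
      Matrix.mulVec_smul]

theorem sq_conj (g : GL (Fin n) F) (A : Matrix (Fin n) (Fin n) F) :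
    sq (lm (g.1 * A * (g⁻¹).1)) = sq (lm A) := by
  unfold sq
  simp only [ev_conj]

theorem sq_of_conj {A B : GL (Fin n) F} (h : IsConj A B) : sq (lm A.1) = sq (lm B.1) := by
  obtain ⟨g, hg⟩ := isConj_iff.1 h
  rw [← hg]
  exact (sq_conj g A.1).symm

/-- divide by a scalar -/
def dn (c : Fˣ) (A : SL n F) : GL (Fin n) F := sc c⁻¹ * Matrix.SpecialLinearGroup.toGL A

theorem dn_inj (c : Fˣ) : Function.Injective (dn (n := n) c) := fun A B h =>
  Matrix.SpecialLinearGroup.toGL_injective (mul_left_cancel h)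

theorem conj_sc (c : Fˣ) {A B : GL (Fin n) F} (h : IsConj A B) :
    IsConj (sc c * A) (sc c * B) := by
  obtain ⟨g, hg⟩ := isConj_iff.1 h
  refine isConj_iff.2 ⟨g, ?_⟩
  rw [← hg, ← mul_assoc g, ← sc_comm c g, mul_assoc, mul_assoc, mul_assoc]

theorem cl_eq_iff (c : Fˣ) (A B : SL n F) : cl B = cl A ↔ IsConj (dn c A) (dn c B) := by
  unfold cl
  rw [ConjClasses.mk_eq_mk_iff_isConj]
  constructor
  · intro h
    exact conj_sc _ h.symm
  · intro h
    have h1 := conj_sc c h.symm
    unfold dn at h1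
    rw [← mul_assoc, ← mul_assoc, ← sc_mul, mul_inv_cancel] at h1
    have h2 : sc (n := n) (1 : Fˣ) = 1 := map_one _
    rw [h2, one_mul, one_mul] at h1
    exact h1

theorem dn_surj (c : Fˣ) (A : SL n F) {t : GL (Fin n) F} (h : IsConj (dn c A) t) :
    ∃ B : SL n F, dn c B = t := by
  have hdet : (sc c * t).1.det = 1 := by
    obtain ⟨g, hg⟩ := isConj_iff.1 h
    have h1 : (sc c * t).1 = g.1 * A.1 * (g⁻¹).1 := by
      rw [← hg]
      have h3 : sc c * (g * dn c A * g⁻¹) = g * Matrix.SpecialLinearGroup.toGL A * g⁻¹ := by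
        unfold dn
        rw [← mul_assoc, ← mul_assoc, sc_comm c g, mul_assoc g, ← mul_assoc (sc c), ← sc_mul,
          mul_inv_cancel]
        have h2 : sc (n := n) (1 : Fˣ) = 1 := map_one _
        rw [h2, one_mul]
      rw [h3]
      rfl
    rw [h1, Matrix.det_mul, Matrix.det_mul, A.2, mul_one, ← Matrix.det_mul]
    have : g.1 * (g⁻¹).1 = 1 := Units.mul_inv g
    rw [this, Matrix.det_one]
  refine ⟨⟨(sc c * t).1, hdet⟩, ?_⟩
  have h1 : Matrix.SpecialLinearGroup.toGL (⟨(sc c * t).1, hdet⟩ : SL n F) = sc c * t := by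
    apply Units.ext
    rfl
  unfold dn
  rw [h1, ← mul_assoc, ← sc_mul, inv_mul_cancel]
  have h2 : sc (n := n) (1 : Fˣ) = 1 := map_one _
  rw [h2, one_mul]

theorem mem_center_iff' (A : SL n F) :
    A ∈ Subgroup.center (SL n F) ↔ ∃ r : F, r ^ n = 1 ∧ Matrix.scalar (Fin n) r = A.1 := by
  rw [Matrix.SpecialLinearGroup.mem_center_iff, Fintype.card_fin]

theorem pow_center {A B : SL n F} (h : cl B = cl A) {k : ℕ}
    (hA : A ^ k ∈ Subgroup.center (SL n F)) : B ^ k ∈ Subgroup.center (SL n F) := by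
  rw [mem_center_iff'] at hA ⊢
  obtain ⟨r, hr, hA⟩ := hA
  refine ⟨r, hr, ?_⟩
  unfold cl at h
  rw [ConjClasses.mk_eq_mk_iff_isConj] at h
  obtain ⟨g, hg⟩ := isConj_iff.1 h.symm
  have h1 : Matrix.SpecialLinearGroup.toGL (B ^ k) =
      g * Matrix.SpecialLinearGroup.toGL (A ^ k) * g⁻¹ := by
    rw [map_pow, ← hg, conj_pow, map_pow]
  have h2 : (B ^ k).1 = g.1 * (A ^ k).1 * (g⁻¹).1 := congrArg Units.val h1
  have h3 : g.1 * (g⁻¹).1 = 1 := Units.mul_inv g
  rw [h2, ← hA]
  have h4 : g.1 * Matrix.scalar (Fin n) r = Matrix.scalar (Fin n) r * g.1 :=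
    (Matrix.scalar_commute r (fun s => Commute.all _ s) g.1).symm
  rw [h4, mul_assoc, h3, mul_one]

/-- one class -/
theorem card_one (c : Fˣ) (A : SL n F) {k : ℕ} (hA : A ^ k ∈ Subgroup.center (SL n F)) :
    Nat.card {B : SL n F // B ^ k ∈ Subgroup.center (SL n F) ∧ cl B = cl A} =
      Nat.card {t : GL (Fin n) F // IsConj (dn c A) t} := by
  refine Nat.card_congr (Equiv.ofBijective (fun B => ⟨dn c B.1, (cl_eq_iff c A B.1).1 B.2.2⟩) ⟨?_, ?_⟩)
  · intro B B' h
    apply Subtype.ext
    exact dn_inj c (congrArg Subtype.val h)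
  · rintro ⟨t, ht⟩
    obtain ⟨B, hB⟩ := dn_surj c A ht
    have h1 : cl B = cl A := (cl_eq_iff c A B).2 (by rw [hB]; exact ht)
    exact ⟨⟨B, pow_center h1 hA, h1⟩, Subtype.ext hB⟩

/-- tuples -/
theorem card_tup {d : ℕ} (c : Fin d → Fˣ) (A : Fin d → SL n F) (k : Fin d → ℕ)
    (hA : ∀ j, A j ^ k j ∈ Subgroup.center (SL n F)) (s : SL n F) (u : Fˣ)
    (hs : Matrix.SpecialLinearGroup.toGL s = sc u) :
    Nat.card {B : Fin d → SL n F // (∀ j, B j ^ k j ∈ Subgroup.center (SL n F)) ∧
        (List.ofFn B).prod = s ∧ ∀ j, cl (B j) = cl (A j)} =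
      Nat.card {t : Fin d → GL (Fin n) F // (∀ j, IsConj (dn (c j) (A j)) (t j)) ∧
        (List.ofFn fun j => (t j).1).prod =
          Matrix.scalar (Fin n) ((u * (List.ofFn c).prod⁻¹ : Fˣ) : F)} := by
  have key : ∀ B : Fin d → SL n F, (List.ofFn B).prod = s ↔
      (List.ofFn fun j => (dn (c j) (B j)).1).prod =
        Matrix.scalar (Fin n) ((u * (List.ofFn c).prod⁻¹ : Fˣ) : F) := by
    intro B
    have h1 : (List.ofFn fun j => (dn (c j) (B j)).1).prod =
        ((List.ofFn fun j => dn (c j) (B j)).prod).1 := by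
      have h2 := map_list_prod (Units.coeHom (Matrix (Fin n) (Fin n) F))
        (List.ofFn fun j => dn (c j) (B j))
      rw [List.map_ofFn] at h2
      exact h2.symm
    have h3 : (List.ofFn fun j => dn (c j) (B j)).prod =
        sc (List.ofFn c).prod⁻¹ * Matrix.SpecialLinearGroup.toGL (List.ofFn B).prod := by
      unfold dn
      rw [prod_sc' (fun j => (c j)⁻¹)]
      have h4 : (List.ofFn fun j => (c j)⁻¹).prod = (List.ofFn c).prod⁻¹ := by
        rw [List.prod_inv, List.map_ofFn]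
        rfl
      have h5 : Matrix.SpecialLinearGroup.toGL (List.ofFn B).prod =
          (List.ofFn fun j => Matrix.SpecialLinearGroup.toGL (B j)).prod := by
        rw [map_list_prod, List.map_ofFn]
        rfl
      rw [h4, h5]
    rw [h1, ← sc_val, Units.val_inj, h3]
    constructor
    · intro h
      rw [h, hs, ← sc_mul, mul_comm]
    · intro h
      rw [mul_comm u, sc_mul] at h
      have h6 := mul_left_cancel h
      rw [← hs] at h6
      exact Matrix.SpecialLinearGroup.toGL_injective h6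
  refine Nat.card_congr (Equiv.ofBijective (fun B => ⟨fun j => dn (c j) (B.1 j),
    fun j => (cl_eq_iff (c j) (A j) (B.1 j)).1 (B.2.2.2 j), (key B.1).1 B.2.2.1⟩) ⟨?_, ?_⟩)
  · intro B B' h
    apply Subtype.ext
    funext j
    exact dn_inj (c j) (congrFun (congrArg Subtype.val h) j)
  · rintro ⟨t, ht, ht'⟩
    have h1 : ∀ j, ∃ B : SL n F, dn (c j) B = t j := fun j => dn_surj (c j) (A j) (ht j)
    choose B hB using h1
    have h2 : ∀ j, cl (B j) = cl (A j) := fun j =>
      (cl_eq_iff (c j) (A j) (B j)).2 (by rw [hB]; exact ht j)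
    refine ⟨⟨B, fun j => pow_center (h2 j) (hA j), (key B).2 ?_, h2⟩, ?_⟩
    · simp only [hB]
      exact ht'
    · apply Subtype.ext
      funext j
      exact hB j

theorem toGL_val (A : SL n F) : (Matrix.SpecialLinearGroup.toGL A).1 = A.1 := rfl

theorem sq_of_cl {A B : SL n F} (h : cl A = cl B) : sq (lm A.1) = sq (lm B.1) := by
  unfold cl at h
  rw [ConjClasses.mk_eq_mk_iff_isConj] at h
  have h1 := sq_of_conj h
  rw [toGL_val, toGL_val] at h1
  exact h1

/-- `c y` with `y ^ k = 1` -/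
theorem exists_root (hR : S_ROT) [Finite F] {k : ℕ} (hn : 1 ≤ n) (hk : 1 ≤ k) (ho : Ord n F k)
    (A : SL n F) (hA : A ^ k ∈ Subgroup.center (SL n F)) : ∃ c : Fˣ, dn c A ^ k = 1 := by
  rw [mem_center_iff'] at hA
  obtain ⟨r, hr, hA⟩ := hA
  obtain ⟨c, hc, hck⟩ := hR F n k hn hk ho r hr
  refine ⟨Units.mk0 c hc, ?_⟩
  unfold dn
  have h1 : Commute (sc (n := n) (Units.mk0 c hc)⁻¹) (Matrix.SpecialLinearGroup.toGL A) := sc_comm _ _
  rw [h1.mul_pow, ← map_pow, ← sc_pow]
  have h2 : Matrix.SpecialLinearGroup.toGL (A ^ k) = sc (Units.mk0 c hc ^ k) := by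
    apply Units.ext
    rw [sc_val, Units.val_pow_eq_pow_val, Units.val_mk0, hck, hA]
    rfl
  rw [h2, ← sc_mul, inv_pow, inv_mul_cancel]
  exact map_one _

theorem sq_dn [Finite F] (hE : S_EVS) (c : Fˣ) (A : SL n F) :
    sq (lm (dn c A).1) = sq (lm A.1) := by
  have h1 : lm (dn c A).1 = ((c⁻¹ : Fˣ) : F) • lm A.1 := by
    unfold lm
    rw [← map_smul]
    congr 1
    change Matrix.scalar (Fin n) ((c⁻¹ : Fˣ) : F) * A.1 = _
    rw [Matrix.scalar_apply, ← Matrix.smul_eq_diagonal_mul]
  rw [h1]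
  exact (hE F (Fin n → F) 1 le_rfl (one_dvd _)).2.2.2.2 _ _ (Units.ne_zero _)

end SMC

open SMC

theorem t_SMC : M_SMC := by
  classical
  intro hFRO hROT hEVS m hm hσ
  obtain ⟨c, r, hc, hr⟩ := hFRO m hm hσ
  refine ⟨c, max r 1, hc, le_max_right _ _, ?_⟩
  intro n hn F _ _ hdvd hord s hs
  have hn1 : 1 ≤ n := (le_max_right _ _).trans hn
  have hnr : r ≤ n := (le_max_left _ _).trans hn
  have hfinGL := finite_GL (F := F) (n := n)
  have hfinSL := finite_SL (F := F) (n := n)
  have : Fintype (SL n F) := Fintype.ofFinite _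
  have : Finite (ConjClasses (GL (Fin n) F)) := Quotient.finite _
  have : Fintype (ConjClasses (GL (Fin n) F)) := Fintype.ofFinite _
  have : ∀ k, Fintype (CA n F k) := fun k => by
    unfold CA
    exact Fintype.ofFinite _
  set q : ℝ := (Nat.card F : ℝ) with hq
  have hq0 : 0 < q := by
    rw [hq]
    exact_mod_cast Nat.card_pos
  obtain ⟨r0, hr0, hs0⟩ := (mem_center_iff' s).1 hs
  have hr00 : r0 ≠ 0 := by
    rintro rfl
    rw [zero_pow (by omega)] at hr0
    exact zero_ne_one hr0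
  set u : Fˣ := Units.mk0 r0 hr00 with hu
  have hsu : Matrix.SpecialLinearGroup.toGL s = sc u := by
    apply Units.ext
    rw [sc_val, hu, Units.val_mk0, hs0]
    rfl
  -- the three families
  let a : Fin m.length → ConjClasses (GL (Fin n) F) → ℝ := fun j κ =>
    ∑ A : CA n F (m.get j), if cl A.1 = κ then (1 : ℝ) else 0
  let b : Fin m.length → ConjClasses (GL (Fin n) F) → ℝ := fun j κ =>
    ∑ A : CA n F (m.get j), if cl A.1 = κ then q ^ (del (m.get j) A.1.1 / 2) else 0
  let T : (Fin m.length → ConjClasses (GL (Fin n) F)) → ℝ := fun κ =>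
    (Nat.card {A : Fin m.length → SL n F // (∀ j, A j ^ m.get j ∈ Subgroup.center (SL n F)) ∧
      (List.ofFn A).prod = s ∧ ∀ j, cl (A j) = κ j} : ℝ)
  have ha : ∀ j, (Nat.card (CA n F (m.get j)) : ℝ) = ∑ κ, a j κ := by
    intro j
    simp only [a]
    rw [Finset.sum_comm]
    simp only [Finset.sum_ite_eq, Finset.mem_univ, if_true]
    rw [Finset.sum_const, Finset.card_univ, Nat.card_eq_fintype_card, nsmul_eq_mul, mul_one]
  have hb : ∀ j, ∑ᶠ A : CA n F (m.get j), q ^ (del (m.get j) A.1.1 / 2) = ∑ κ, b j κ := by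
    intro j
    simp only [b]
    rw [Finset.sum_comm]
    simp only [Finset.sum_ite_eq, Finset.mem_univ, if_true]
    rw [finsum_eq_sum_of_fintype]
  have hT : (Nat.card {A : Fin m.length → SL n F //
      (∀ j, A j ^ m.get j ∈ Subgroup.center (SL n F)) ∧ (List.ofFn A).prod = s} : ℝ) =
      ∑ κ, T κ := by
    simp only [T]
    rw [← Nat.cast_sum]
    congr 1
    rw [← Nat.card_sigma]
    refine Nat.card_congr ⟨fun A => ⟨fun j => cl (A.1 j), ⟨A.1, A.2.1, A.2.2, fun j => rfl⟩⟩,
      fun p => ⟨p.2.1, p.2.2.1, p.2.2.2.1⟩, fun A => rfl, ?_⟩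
    rintro ⟨κ, A, h1, h2, h3⟩
    have h4 : κ = fun j => cl (A j) := by
      funext j
      exact (h3 j).symm
    subst h4
    rfl
  -- one tuple of classes
  have hone : ∀ κ, |T κ * Nat.card (SL n F) - ∏ j, a j (κ j)| ≤
      (∏ j, b j (κ j)) * q ^ (-c * (n : ℝ)) := by
    intro κ
    by_cases hex : ∀ j, ∃ A : SL n F, A ^ m.get j ∈ Subgroup.center (SL n F) ∧ cl A = κ j
    · choose A hA hAκ using hex
      have hroot : ∀ j, ∃ c : Fˣ, dn c (A j) ^ m.get j = 1 := fun j =>
        exists_root hROT hn1 ((by norm_num : 1 ≤ 2).trans (hm _ (List.get_mem m j)))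
          (hord _ (List.get_mem m j)) (A j) (hA j)
      choose w hw using hroot
      have hκ : κ = fun j => cl (A j) := by
        funext j
        exact (hAκ j).symm
      have haj : ∀ j, a j (κ j) = (Nat.card {t : GL (Fin n) F // IsConj (dn (w j) (A j)) t} : ℝ) := by
        intro j
        rw [← card_one (w j) (A j) (hA j)]
        simp only [a]
        rw [← hAκ j, Finset.sum_boole]
        have e1 : (Finset.univ.filter fun x : CA n F (m.get j) => cl x.1 = cl (A j)).card =
            Nat.card {x : CA n F (m.get j) // cl x.1 = cl (A j)} := by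
          rw [Nat.card_eq_fintype_card, Fintype.card_subtype]
        rw [e1]
        congr 1
        exact Nat.card_congr ⟨fun x => ⟨x.1.1, x.1.2, x.2⟩, fun y => ⟨⟨y.1, y.2.1⟩, y.2.2⟩,
          fun _ => rfl, fun _ => rfl⟩
      have hdel : ∀ j, ∀ B : SL n F, cl B = κ j →
          del (m.get j) B.1 = del (m.get j) (dn (w j) (A j)).1 := by
        intro j B hB
        unfold del
        rw [sq_of_cl (hB.trans (hAκ j).symm), sq_dn hEVS]
      have hbj : ∀ j, b j (κ j) = (Nat.card {t : GL (Fin n) F // IsConj (dn (w j) (A j)) t} : ℝ) *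
          q ^ (del (m.get j) (dn (w j) (A j)).1 / 2) := by
        intro j
        rw [← haj j]
        simp only [a, b]
        rw [Finset.sum_mul]
        refine Finset.sum_congr rfl fun B _ => ?_
        split_ifs with h1
        · rw [hdel j B.1 h1, one_mul]
        · rw [zero_mul]
      have hTκ : T κ = (Nat.card {t : Fin m.length → GL (Fin n) F //
          (∀ j, IsConj (dn (w j) (A j)) (t j)) ∧ (List.ofFn fun j => (t j).1).prod =
            Matrix.scalar (Fin n) ((u * (List.ofFn w).prod⁻¹ : Fˣ) : F)} : ℝ) := by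
        rw [← card_tup w A (fun j => m.get j) hA s u hsu, hκ]
      have hdet : ∏ j, (dn (w j) (A j)).1.det = (((u * (List.ofFn w).prod⁻¹ : Fˣ) : F)) ^ n := by
        have h1 : ∀ j, (dn (w j) (A j)).1.det = (((w j)⁻¹ : Fˣ) : F) ^ n := by
          intro j
          change (Matrix.scalar (Fin n) (((w j)⁻¹ : Fˣ) : F) * (A j).1).det = _
          rw [Matrix.det_mul, (A j).2, mul_one]
          exact det_sc (w j)⁻¹
        simp only [h1]
        rw [Finset.prod_pow]
        have h2 : (((u * (List.ofFn w).prod⁻¹ : Fˣ) : F)) ^ n =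
            ((((List.ofFn w).prod⁻¹ : Fˣ) : F)) ^ n := by
          rw [Units.val_mul, mul_pow, hu, Units.val_mk0, hr0, one_mul]
        rw [h2, List.prod_ofFn, ← Finset.prod_inv_distrib, ← Units.coe_prod]
      have h1 := hr n hnr F hdvd _ (Units.ne_zero (u * (List.ofFn w).prod⁻¹))
        (fun j => dn (w j) (A j)) hw hdet
      rw [hTκ, Finset.prod_congr rfl fun j _ => haj j, Finset.prod_congr rfl fun j _ => hbj j]
      refine h1.trans (le_of_eq ?_)
      rw [Finset.prod_mul_distrib, mul_assoc]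
      congr 1
      rw [sub_eq_add_neg, Real.rpow_add hq0, Finset.sum_div, neg_mul]
      congr 1
      exact Real.rpow_sum_of_pos hq0 _ _
    · push Not at hex
      obtain ⟨j, hj⟩ := hex
      have haj : a j (κ j) = 0 := by
        refine Finset.sum_eq_zero fun A _ => ?_
        rw [if_neg (hj A.1 A.2)]
      have hbj : b j (κ j) = 0 := by
        refine Finset.sum_eq_zero fun A _ => ?_
        rw [if_neg (hj A.1 A.2)]
      have hTj : T κ = 0 := by
        have : IsEmpty {A : Fin m.length → SL n F //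
            (∀ j, A j ^ m.get j ∈ Subgroup.center (SL n F)) ∧
              (List.ofFn A).prod = s ∧ ∀ j, cl (A j) = κ j} :=
          ⟨fun A => hj (A.1 j) (A.2.1 j) (A.2.2.2 j)⟩
        simp only [T]
        rw [Nat.card_of_isEmpty, Nat.cast_zero]
      rw [hTj, Finset.prod_eq_zero (Finset.mem_univ j) haj,
        Finset.prod_eq_zero (Finset.mem_univ j) hbj]
      simp
  have hL : (∑ κ, T κ) * Nat.card (SL n F) - ∏ j, (Nat.card (CA n F (m.get j)) : ℝ) =
      ∑ κ : (Fin m.length → ConjClasses (GL (Fin n) F)),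
        (T κ * Nat.card (SL n F) - ∏ j, a j (κ j)) := by
    rw [Finset.sum_sub_distrib, ← Finset.sum_mul]
    congr 1
    simp only [ha]
    rw [Finset.prod_univ_sum, Fintype.piFinset_univ]
  have hR : (∏ j, ∑ᶠ A : CA n F (m.get j), q ^ (del (m.get j) A.1.1 / 2)) * q ^ (-c * (n : ℝ)) =
      ∑ κ : (Fin m.length → ConjClasses (GL (Fin n) F)),
        (∏ j, b j (κ j)) * q ^ (-c * (n : ℝ)) := by
    rw [← Finset.sum_mul]
    congr 1
    simp only [hb]
    rw [Finset.prod_univ_sum, Fintype.piFinset_univ]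
  rw [hT, hL, hR]
  exact (Finset.abs_sum_le_sum_abs _ _).trans (Finset.sum_le_sum fun κ _ => hone κ)

end

end FL0
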