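import Pool.Agent.FL0.StG
import Pool.Agent.RSF.LG

/-!
# Module CLS: the class size of a split semisimple element
-/

namespace FL0

open RSF Polynomial

noncomputable section

namespace CLS

theorem class_mul {G : Type} [Group G] [Finite G] (y : G) :
    Nat.card {t : G // IsConj y t} * Nat.card {g : G // g * y = y * g} ≤ Nat.card G := by
  classical
  have hs : ∀ t : {t : G // IsConj y t}, ∃ s : G, s * y * s⁻¹ = t.1 := fun t => isConj_iff.1 t.2
  choose s hs using hs
  rw [← Nat.card_prod]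
  refine Nat.card_le_card_of_injective
    (fun z : {t : G // IsConj y t} × {g : G // g * y = y * g} => s z.1 * z.2.1) ?_
  rintro ⟨t, c⟩ ⟨t', c'⟩ h
  simp only at h
  have key : ∀ (t : {t : G // IsConj y t}) (c : {g : G // g * y = y * g}),
      (s t * c.1) * y * (s t * c.1)⁻¹ = t.1 := by
    intro t c
    rw [← hs t, mul_inv_rev, mul_assoc (s t) c.1 y, c.2]
    group
  have h1 : t = t' := by
    apply Subtype.ext
    rw [← key t c, ← key t' c', h]
  subst h1
  have h2 : c = c' := Subtype.ext (mul_left_cancel h)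
  rw [h2]

theorem card_GL_le' {F : Type} [Field F] [Finite F] (n : ℕ) :
    Nat.card (GL (Fin n) F) ≤ Nat.card F ^ (n ^ 2) := by
  have h1 : Nat.card (GL (Fin n) F) ≤ Nat.card (Matrix (Fin n) (Fin n) F) :=
    Nat.card_le_card_of_injective (fun g => (g : Matrix (Fin n) (Fin n) F))
      fun a b h => Units.ext h
  refine h1.trans (le_of_eq ?_)
  have h2 : Nat.card (Matrix (Fin n) (Fin n) F) = Nat.card (Fin n → Fin n → F) := rfl
  rw [h2, Nat.card_fun, Nat.card_fun]
  simp only [Nat.card_eq_fintype_card, Fintype.card_fin]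
  rw [← pow_mul, ← pow_two]

/-- the general linear group of a finite index type -/
theorem card_GL_ge' (hPI : S_PI) {F : Type} [Field F] [Finite F] (ι : Type) [Fintype ι]
    [DecidableEq ι] :
    (Nat.card F : ℝ) ^ (Nat.card ι ^ 2) / (if Nat.card ι = 0 then 1 else 4) ≤
      (Nat.card (GL ι F) : ℝ) := by
  have e : ι ≃ Fin (Nat.card ι) := Finite.equivFin ι
  have h1 : Nat.card (GL ι F) = Nat.card (GL (Fin (Nat.card ι)) F) :=
    Nat.card_congr (Units.mapEquiv (Matrix.reindexRingEquiv F e).toMulEquiv).toEquiv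
  rw [h1]
  by_cases h : Nat.card ι = 0
  · rw [if_pos h]
    have h2 : Nat.card F ^ (Nat.card ι ^ 2) = 1 := by rw [h]; simp
    have h3 : (Nat.card F : ℝ) ^ (Nat.card ι ^ 2) = 1 := by exact_mod_cast h2
    rw [h3, div_one]
    have h4 : 0 < Nat.card (GL (Fin (Nat.card ι)) F) := Nat.card_pos
    exact_mod_cast h4
  · rw [if_neg h]
    exact LG.card_GL_ge hPI

/-- the centraliser contains the product of the general linear groups of the fibres -/
theorem cent_ge {F : Type} [Field F] [Fintype F] [DecidableEq F] {n : ℕ}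
    (b : Module.Basis (Fin n) F (Fin n → F)) (l : Fin n → F) (y : GL (Fin n) F)
    (h : ∀ i, lm y.1 (b i) = l i • b i) :
    ∏ ζ : F, Nat.card (GL {i // l i = ζ} F) ≤ Nat.card {g : GL (Fin n) F // g * y = y * g} := by
  classical
  -- the ring homomorphism
  let e : (Σ ζ : F, {i // l i = ζ}) ≃ Fin n := Equiv.sigmaFiberEquiv l
  let Φ : (∀ ζ : F, Matrix {i // l i = ζ} {i // l i = ζ} F) →+* Matrix (Fin n) (Fin n) F :=
    (Matrix.reindexRingEquiv F e).toRingHom.comp (Matrix.blockDiagonal'RingHom _ F)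
  have hΦ : Function.Injective Φ := by
    intro a b hab
    have h1 : Matrix.blockDiagonal' a = Matrix.blockDiagonal' b :=
      (Matrix.reindexRingEquiv F e).injective hab
    exact Matrix.blockDiagonal'_injective h1
  let D : ∀ ζ : F, Matrix {i // l i = ζ} {i // l i = ζ} F := fun ζ => Matrix.diagonal fun _ => ζ
  have hΦD : Φ D = Matrix.diagonal l := by
    change (Matrix.blockDiagonal' D).submatrix e.symm e.symm = _
    rw [Matrix.blockDiagonal'_diagonal, Matrix.submatrix_diagonal_equiv]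
    rfl
  have hcomm : ∀ G, Φ G * Matrix.diagonal l = Matrix.diagonal l * Φ G := by
    intro G
    rw [← hΦD, ← map_mul, ← map_mul]
    congr 1
    ext ζ : 1
    simp only [Pi.mul_apply, D]
    ext i j
    rw [Matrix.mul_diagonal, Matrix.diagonal_mul, mul_comm]
  -- the base change
  let P : Matrix (Fin n) (Fin n) F := (Pi.basisFun F (Fin n)).toMatrix b
  let Q : Matrix (Fin n) (Fin n) F := b.toMatrix (Pi.basisFun F (Fin n))
  have hPQ : P * Q = 1 := Module.Basis.toMatrix_mul_toMatrix_flip _ _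
  have hQP : Q * P = 1 := Module.Basis.toMatrix_mul_toMatrix_flip _ _
  let U : GL (Fin n) F := ⟨P, Q, hPQ, hQP⟩
  have hyP : y.1 * P = P * Matrix.diagonal l := by
    ext i j
    rw [Matrix.mul_diagonal]
    have h1 := congrFun (h j) i
    have h2 : lm y.1 (b j) i = (y.1 * P) i j := by
      rw [lm, Matrix.toLin'_apply, Matrix.mulVec, Matrix.mul_apply]
      rfl
    rw [← h2, h1, Pi.smul_apply, smul_eq_mul, mul_comm]
    rfl
  rw [← Nat.card_pi]
  refine Nat.card_le_card_of_injective
    (fun G : ∀ ζ : F, GL {i // l i = ζ} F =>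
      (⟨U * (Units.map (Φ : _ →* _) (MulEquiv.piUnits.symm G)) * U⁻¹, ?_⟩ :
        {g : GL (Fin n) F // g * y = y * g})) ?_
  · apply Units.ext
    change P * Φ _ * Q * y.1 = y.1 * (P * Φ _ * Q)
    have h1 : Q * y.1 = Matrix.diagonal l * Q := by
      calc Q * y.1 = Q * y.1 * (P * Q) := by rw [hPQ, mul_one]
        _ = Q * (y.1 * P) * Q := by simp only [mul_assoc]
        _ = (Q * P) * Matrix.diagonal l * Q := by rw [hyP]; simp only [mul_assoc]
        _ = _ := by rw [hQP, one_mul]
    rw [mul_assoc, h1, ← mul_assoc, mul_assoc P, hcomm, ← mul_assoc, ← mul_assoc, ← hyP]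
    simp only [mul_assoc]
  · intro G G' hGG
    have h1 := congrArg Subtype.val hGG
    simp only at h1
    have h2 := mul_left_cancel (mul_right_cancel h1)
    have h3 := congrArg Units.val h2
    have h4 := hΦ h3
    exact MulEquiv.piUnits.symm.injective (Units.ext h4)

end CLS

open CLS in
theorem t_CLS : M_CLS := by
  classical
  intro hPI hDIA F _ _ n k hk hkq y hy
  have : Fintype F := Fintype.ofFinite F
  have hx : (lm y.1) ^ k = 1 := by
    rw [lm, ← Matrix.toLin'_pow]
    have h1 : y.1 ^ k = 1 := by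
      rw [← Units.val_pow_eq_pow_val, hy]
      rfl
    rw [h1, Matrix.toLin'_one]
    rfl
  obtain ⟨b, l, h1, h2, h3⟩ := hDIA F (Fin n → F) k hk hkq (lm y.1) hx
  have hfin : Module.finrank F (Fin n → F) = n := Module.finrank_fin_fun F
  generalize Module.finrank F (Fin n → F) = N at b l h1 h2 h3 hfin
  subst hfin
  set q : ℝ := (Nat.card F : ℝ) with hq
  have hq1 : (1 : ℝ) < q := by
    rw [hq]
    exact_mod_cast Finite.one_lt_card (α := F)
  have hq0 : (0 : ℝ) < q := by linarith
  set a : F → ℕ := fun ζ => Nat.card {i // l i = ζ} with ha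
  have hsq : sq (lm y.1) = ∑ ζ : F, a ζ ^ 2 := by
    rw [sq, finsum_eq_sum_of_fintype]
    exact Finset.sum_congr rfl fun ζ _ => by rw [h3]
  -- the number of the fibres
  have hcard : (Finset.univ.filter fun ζ : F => a ζ ≠ 0).card ≤ k := by
    have hsub : (Finset.univ.filter fun ζ : F => a ζ ≠ 0) ⊆
        (nthRoots k (1 : F)).toFinset := by
      intro ζ hζ
      have h4 : a ζ ≠ 0 := (Finset.mem_filter.1 hζ).2
      have h5 : 0 < Nat.card {i // l i = ζ} := Nat.pos_of_ne_zero h4
      obtain ⟨i, hi⟩ := (Nat.card_pos_iff.1 h5).1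
      rw [Multiset.mem_toFinset, mem_nthRoots (by omega), ← hi]
      exact h2 i
    exact (Finset.card_le_card hsub).trans
      ((Multiset.toFinset_card_le _).trans (card_nthRoots k 1))
  -- the centraliser
  have hC : q ^ sq (lm y.1) / 4 ^ k ≤ (Nat.card {g : GL (Fin N) F // g * y = y * g} : ℝ) := by
    have h4 : ∏ ζ : F, (q ^ (a ζ ^ 2) / (if a ζ = 0 then 1 else 4)) ≤
        ∏ ζ : F, (Nat.card (GL {i // l i = ζ} F) : ℝ) := by
      refine Finset.prod_le_prod (fun ζ _ => ?_) fun ζ _ => card_GL_ge' hPI _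
      split_ifs <;> positivity
    have h5 : (∏ ζ : F, (Nat.card (GL {i // l i = ζ} F) : ℝ)) ≤
        (Nat.card {g : GL (Fin N) F // g * y = y * g} : ℝ) := by
      exact_mod_cast cent_ge b l y h1
    refine le_trans ?_ (h4.trans h5)
    rw [Finset.prod_div_distrib, Finset.prod_pow_eq_pow_sum, ← hsq]
    refine div_le_div_of_nonneg_left (by positivity) ?_ ?_
    · exact Finset.prod_pos fun ζ _ => by split_ifs <;> norm_num
    · have h6 : ∏ ζ : F, (if a ζ = 0 then (1 : ℝ) else 4) =
          4 ^ (Finset.univ.filter fun ζ : F => a ζ ≠ 0).card := by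
        rw [Finset.prod_ite, Finset.prod_const_one, one_mul, Finset.prod_const]
      rw [h6]
      exact pow_le_pow_right₀ (by norm_num) hcard
  have hG : (Nat.card (GL (Fin N) F) : ℝ) ≤ q ^ (N ^ 2) := by
    rw [hq]
    exact_mod_cast card_GL_le' (F := F) N
  have hM : (Nat.card {t : GL (Fin N) F // IsConj y t} : ℝ) *
      (Nat.card {g : GL (Fin N) F // g * y = y * g} : ℝ) ≤ (Nat.card (GL (Fin N) F) : ℝ) := by
    exact_mod_cast class_mul y
  have hfin2 : (Nat.card {t : GL (Fin N) F // IsConj y t} : ℝ) * (q ^ sq (lm y.1) / 4 ^ k) ≤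
      q ^ (N ^ 2) :=
    (mul_le_mul_of_nonneg_left hC (Nat.cast_nonneg _)).trans (hM.trans hG)
  have hpow : q ^ ((N : ℝ) ^ 2 - (sq (lm y.1) : ℝ)) = q ^ (N ^ 2) / q ^ sq (lm y.1) := by
    rw [Real.rpow_sub hq0, Real.rpow_natCast]
    congr 1
    have : ((N : ℝ) ^ 2) = ((N ^ 2 : ℕ) : ℝ) := by push_cast; rfl
    rw [this, Real.rpow_natCast]
  rw [hpow, ← mul_div_assoc, le_div_iff₀ (by positivity)]
  rw [← mul_div_assoc, div_le_iff₀ (by positivity)] at hfin2
  linarith

end

end FL0
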