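import Pool.Agent.FL0.StG
import Pool.Agent.RSF.LG

/-!
# FL0, module ABS: the sum of `q ^ (δ / 2)` over the elements of `SL_n` with central `k`-th power
-/

set_option autoImplicit false

namespace FL0

open RSF Polynomial

noncomputable section

namespace ABS

variable {F : Type} [Field F] {n k : ℕ}

/-- `GL_n` as linear automorphisms -/
def toGV (n : ℕ) (F : Type) [Field F] : GL (Fin n) F ≃* GV F (Fin n → F) :=
  (Matrix.GeneralLinearGroup.toLin).trans (LinearMap.GeneralLinearGroup.generalLinearEquiv F _)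

lemma toGV_coe (y : GL (Fin n) F) : ((toGV n F y : GV F (Fin n → F)) : (Fin n → F) →ₗ[F] _) =
    lm y.1 := rfl

lemma conj_of (hEVS : S_EVS) [Finite F] (hk : 1 ≤ k) (hkq : k ∣ Nat.card F - 1)
    (y y' : GL (Fin n) F) (hy : y ^ k = 1) (hy' : y' ^ k = 1)
    (h : ∀ ζ, ev (lm y.1) ζ = ev (lm y'.1) ζ) : IsConj y y' := by
  have h1 := (hEVS F (Fin n → F) k hk hkq).1 (toGV n F y) (toGV n F y')
    (by rw [← map_pow, hy, map_one]) (by rw [← map_pow, hy', map_one])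
    (fun ζ => by rw [toGV_coe, toGV_coe]; exact h ζ)
  have h2 := (toGV n F).symm.toMonoidHom.map_isConj h1
  simpa using h2

lemma sq_congr {V : Type} [AddCommGroup V] [Module F V] (A B : V →ₗ[F] V)
    (h : ∀ ζ, ev A ζ = ev B ζ) : sq A = sq B := by
  unfold sq
  congr 1
  funext ζ
  rw [h]

/-- the sum over the elements with `k`-th power one -/
lemma sumY (hEVS : S_EVS) (hCLS : S_CLS) [Finite F] (hk : 1 ≤ k) (hkq : k ∣ Nat.card F - 1) :
    ∑ᶠ y : {y : GL (Fin n) F // y ^ k = 1}, (Nat.card F : ℝ) ^ (del k y.1.1 / 2) ≤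
      ((n : ℝ) + 1) ^ k * (4 ^ k * (Nat.card F : ℝ) ^ ((n : ℝ) ^ 2 - (n : ℝ) ^ 2 / k)) := by
  classical
  have hq1 : (1 : ℝ) < (Nat.card F : ℝ) := by
    exact_mod_cast Finite.one_lt_card (α := F)
  have hq0 : (0 : ℝ) < (Nat.card F : ℝ) := by linarith
  obtain ⟨-, hE2, -, hE4, -⟩ := hEVS F (Fin n → F) k hk hkq
  rw [Module.finrank_fin_fun] at hE2 hE4
  have : Finite (Matrix (Fin n) (Fin n) F) := inferInstance
  have : Finite (GL (Fin n) F) := inferInstance
  have hfY : Finite {y : GL (Fin n) F // y ^ k = 1} := inferInstance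
  have : Fintype {y : GL (Fin n) F // y ^ k = 1} := Fintype.ofFinite _
  rw [finsum_eq_sum_of_fintype]
  -- the functions of multiplicities
  set β : {y : GL (Fin n) F // y ^ k = 1} → (F → ℕ) := fun y ζ => ev (lm y.1.1) ζ with hβ
  set T : Finset (F → ℕ) := Finset.univ.image β with hT
  have hpow : ∀ y : {y : GL (Fin n) F // y ^ k = 1}, lm y.1.1 ^ k = 1 := by
    intro y
    have h1 : (y.1.1 : Matrix (Fin n) (Fin n) F) ^ k = 1 := by
      rw [← Units.val_pow_eq_pow_val, y.2, Units.val_one]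
    unfold lm
    rw [← Matrix.toLin'_pow, h1, Matrix.toLin'_one]
    rfl
  have hTcard : (T.card : ℝ) ≤ ((n : ℝ) + 1) ^ k := by
    have hfin : {β : F → ℕ | ∃ x : (Fin n → F) →ₗ[F] (Fin n → F), x ^ k = 1 ∧
        ∀ ζ, ev x ζ = β ζ}.Finite := by
      have : Finite ((Fin n → F) →ₗ[F] (Fin n → F)) := Finite.of_injective _ DFunLike.coe_injective
      refine (Set.finite_range (fun x : (Fin n → F) →ₗ[F] (Fin n → F) => fun ζ => ev x ζ)).subset ?_
      rintro b ⟨x, -, hx⟩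
      exact ⟨x, funext hx⟩
    have h1 : T.card ≤ (n + 1) ^ k := by
      refine le_trans ?_ hE4
      rw [← Set.ncard_coe_finset T]
      apply Set.ncard_le_ncard _ hfin
      intro b hb
      rw [Finset.mem_coe, hT, Finset.mem_image] at hb
      obtain ⟨y, -, rfl⟩ := hb
      exact ⟨lm y.1.1, hpow y, fun ζ => rfl⟩
    exact_mod_cast h1
  rw [← Finset.sum_fiberwise_of_maps_to (s := Finset.univ) (t := T) (g := β)
    (fun y _ => Finset.mem_image_of_mem β (Finset.mem_univ y))]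
  have hone : ∀ b ∈ T, ∑ y ∈ Finset.univ.filter (fun y => β y = b),
      (Nat.card F : ℝ) ^ (del k y.1.1 / 2) ≤
        4 ^ k * (Nat.card F : ℝ) ^ ((n : ℝ) ^ 2 - (n : ℝ) ^ 2 / k) := by
    intro b hb
    rw [hT, Finset.mem_image] at hb
    obtain ⟨y0, -, rfl⟩ := hb
    have hsame : ∀ y ∈ Finset.univ.filter (fun y => β y = β y0),
        (Nat.card F : ℝ) ^ (del k y.1.1 / 2) = (Nat.card F : ℝ) ^ (del k y0.1.1 / 2) := by
      intro y hy
      rw [Finset.mem_filter] at hy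
      have h1 : sq (lm y.1.1) = sq (lm y0.1.1) := sq_congr _ _ (fun ζ => congrFun hy.2 ζ)
      unfold del
      rw [h1]
    rw [Finset.sum_congr rfl hsame, Finset.sum_const, nsmul_eq_mul]
    have hcard : ((Finset.univ.filter (fun y => β y = β y0)).card : ℝ) ≤
        4 ^ k * (Nat.card F : ℝ) ^ ((n : ℝ) ^ 2 - sq (lm y0.1.1)) := by
      refine le_trans ?_ (hCLS F n k hk hkq y0.1 y0.2)
      have h1 : (Finset.univ.filter (fun y => β y = β y0)).card ≤
          Nat.card {t : GL (Fin n) F // IsConj y0.1 t} := by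
        have h2 : (Finset.univ.filter (fun y => β y = β y0)).card =
            Nat.card {y : {y : GL (Fin n) F // y ^ k = 1} // β y = β y0} := by
          rw [Nat.card_eq_fintype_card, Fintype.card_subtype]
        rw [h2]
        refine Nat.card_le_card_of_injective
          (fun y : {y : {y : GL (Fin n) F // y ^ k = 1} // β y = β y0} =>
            (⟨y.1.1, conj_of hEVS hk hkq y0.1 y.1.1 y0.2 y.1.2
              (fun ζ => (congrFun y.2 ζ).symm)⟩ : {t : GL (Fin n) F // IsConj y0.1 t})) ?_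
        intro y y' hyy
        exact Subtype.ext (Subtype.ext (congrArg
          (fun x : {t : GL (Fin n) F // IsConj y0.1 t} => x.1) hyy))
      exact_mod_cast h1
    have hsq : (n : ℝ) ^ 2 / k ≤ sq (lm y0.1.1) := hE2 _ (hpow y0)
    calc ((Finset.univ.filter (fun y => β y = β y0)).card : ℝ) *
          (Nat.card F : ℝ) ^ (del k y0.1.1 / 2)
        ≤ (4 ^ k * (Nat.card F : ℝ) ^ ((n : ℝ) ^ 2 - sq (lm y0.1.1))) *
          (Nat.card F : ℝ) ^ (del k y0.1.1 / 2) :=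
          mul_le_mul_of_nonneg_right hcard (Real.rpow_nonneg hq0.le _)
      _ = 4 ^ k * (Nat.card F : ℝ) ^ ((n : ℝ) ^ 2 - sq (lm y0.1.1) + del k y0.1.1 / 2) := by
          rw [Real.rpow_add hq0]
          ring
      _ ≤ 4 ^ k * (Nat.card F : ℝ) ^ ((n : ℝ) ^ 2 - (n : ℝ) ^ 2 / k) := by
          apply mul_le_mul_of_nonneg_left _ (by positivity)
          apply Real.rpow_le_rpow_of_exponent_le hq1.le
          unfold del
          linarith
  calc ∑ b ∈ T, ∑ y ∈ Finset.univ.filter (fun y => β y = b),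
        (Nat.card F : ℝ) ^ (del k y.1.1 / 2)
      ≤ ∑ b ∈ T, 4 ^ k * (Nat.card F : ℝ) ^ ((n : ℝ) ^ 2 - (n : ℝ) ^ 2 / k) :=
        Finset.sum_le_sum hone
    _ = T.card * (4 ^ k * (Nat.card F : ℝ) ^ ((n : ℝ) ^ 2 - (n : ℝ) ^ 2 / k)) := by
        rw [Finset.sum_const, nsmul_eq_mul]
    _ ≤ ((n : ℝ) + 1) ^ k * (4 ^ k * (Nat.card F : ℝ) ^ ((n : ℝ) ^ 2 - (n : ℝ) ^ 2 / k)) :=
        mul_le_mul_of_nonneg_right hTcard (by positivity)

/-- reduction to the elements with `k`-th power one -/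
lemma sumA (hROT : S_ROT) (hEVS : S_EVS) [Finite F] (hn : 1 ≤ n) (hk : 1 ≤ k)
    (hkq : k ∣ Nat.card F - 1) (hO : Ord n F k) :
    ∑ᶠ A : CA n F k, (Nat.card F : ℝ) ^ (del k A.1.1 / 2) ≤
      (Nat.card F : ℝ) *
        ∑ᶠ y : {y : GL (Fin n) F // y ^ k = 1}, (Nat.card F : ℝ) ^ (del k y.1.1 / 2) := by
  classical
  have hq1 : (1 : ℝ) < (Nat.card F : ℝ) := by
    exact_mod_cast Finite.one_lt_card (α := F)
  have hq0 : (0 : ℝ) < (Nat.card F : ℝ) := by linarith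
  obtain ⟨-, -, -, -, hE5⟩ := hEVS F (Fin n → F) k hk hkq
  have hk0 : k ≠ 0 := by omega
  have : Finite (SL n F) := inferInstance
  have hfA : Finite (CA n F k) := by unfold CA; infer_instance
  have : Fintype (CA n F k) := Fintype.ofFinite _
  have : Fintype {y : GL (Fin n) F // y ^ k = 1} := Fintype.ofFinite _
  have : Fintype F := Fintype.ofFinite _
  rw [finsum_eq_sum_of_fintype, finsum_eq_sum_of_fintype]
  choose! cr hcr using hROT F n k hn hk hO
  have hex : ∀ A : CA n F k, ∃ r : F, r ^ n = 1 ∧ A.1.1 ^ k = Matrix.scalar (Fin n) r := by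
    intro A
    obtain ⟨r, hr, hr'⟩ := Matrix.SpecialLinearGroup.mem_center_iff.mp A.2
    rw [Fintype.card_fin] at hr
    refine ⟨r, hr, ?_⟩
    rw [hr', Matrix.SpecialLinearGroup.coe_pow]
  choose lam hlam1 hlam2 using hex
  have hM : ∀ A : CA n F k, ((cr (lam A))⁻¹ • A.1.1 : Matrix (Fin n) (Fin n) F) ^ k = 1 := by
    intro A
    obtain ⟨h1, h2⟩ := hcr _ (hlam1 A)
    rw [_root_.smul_pow, hlam2, inv_pow, h2]
    ext i j
    rw [Matrix.smul_apply, Matrix.scalar_apply, smul_eq_mul]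
    have hl0 : lam A ≠ 0 := by
      intro h
      have := hlam1 A
      rw [h, zero_pow (by omega)] at this
      exact zero_ne_one this
    rcases eq_or_ne i j with rfl | hij
    · rw [Matrix.diagonal_apply_eq, Matrix.one_apply_eq, inv_mul_cancel₀ hl0]
    · rw [Matrix.diagonal_apply_ne _ hij, Matrix.one_apply_ne hij, mul_zero]
  set Φ : CA n F k → F × {y : GL (Fin n) F // y ^ k = 1} := fun A =>
    (lam A, ⟨Units.ofPowEqOne _ k (hM A) hk0, Units.pow_ofPowEqOne _ _⟩) with hΦ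
  have hval : ∀ A, A.1.1 = cr (lam A) • ((Φ A).2.1.1 : Matrix (Fin n) (Fin n) F) := by
    intro A
    show A.1.1 = cr (lam A) • ((cr (lam A))⁻¹ • A.1.1)
    rw [smul_smul, mul_inv_cancel₀ (hcr _ (hlam1 A)).1, one_smul]
  have hinj : Function.Injective Φ := by
    intro A B hAB
    apply Subtype.ext
    apply Subtype.ext
    have h1 : lam A = lam B := congrArg Prod.fst hAB
    rw [hval A, hval B, hAB, h1]
  have hw : ∀ A, (Nat.card F : ℝ) ^ (del k A.1.1 / 2) =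
      (Nat.card F : ℝ) ^ (del k (Φ A).2.1.1 / 2) := by
    intro A
    have h1 : sq (lm A.1.1) = sq (lm (Φ A).2.1.1) := by
      rw [hval A]
      have h2 : lm (cr (lam A) • ((Φ A).2.1.1 : Matrix (Fin n) (Fin n) F)) =
          cr (lam A) • lm (Φ A).2.1.1 := by
        unfold lm
        rw [map_smul]
      rw [h2]
      exact hE5 _ _ (hcr _ (hlam1 A)).1
    unfold del
    rw [h1]
  calc ∑ A : CA n F k, (Nat.card F : ℝ) ^ (del k A.1.1 / 2)
      = ∑ A : CA n F k, (Nat.card F : ℝ) ^ (del k (Φ A).2.1.1 / 2) :=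
        Finset.sum_congr rfl fun A _ => hw A
    _ = ∑ p ∈ Finset.univ.image Φ, (Nat.card F : ℝ) ^ (del k p.2.1.1 / 2) := by
        rw [Finset.sum_image fun a _ b _ h => hinj h]
    _ ≤ ∑ p : F × {y : GL (Fin n) F // y ^ k = 1}, (Nat.card F : ℝ) ^ (del k p.2.1.1 / 2) :=
        Finset.sum_le_sum_of_subset_of_nonneg (Finset.subset_univ _)
          fun _ _ _ => Real.rpow_nonneg hq0.le _
    _ = (Nat.card F : ℝ) *
        ∑ y : {y : GL (Fin n) F // y ^ k = 1}, (Nat.card F : ℝ) ^ (del k y.1.1 / 2) := by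
        rw [Fintype.sum_prod_type]
        show ∑ _x : F, ∑ y : {y : GL (Fin n) F // y ^ k = 1},
          (Nat.card F : ℝ) ^ (del k y.1.1 / 2) = _
        rw [Finset.sum_const, nsmul_eq_mul, Finset.card_univ, Nat.card_eq_fintype_card]

/-- the lower bound for the number of the elements -/
lemma cardCA (hPI : S_PI) (hJL : S_JL) [Finite F] (hk : 1 ≤ k) :
    (Nat.card F : ℝ) ^ ((n : ℝ) ^ 2 - (n : ℝ) ^ 2 / k) ≤
      4 * (Nat.card F : ℝ) ^ (4 * (k : ℝ) ^ 2) * Nat.card (CA n F k) := by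
  have hq1 : (1 : ℝ) < (Nat.card F : ℝ) := by
    exact_mod_cast Finite.one_lt_card (α := F)
  have hq0 : (0 : ℝ) < (Nat.card F : ℝ) := by linarith
  have hfA : Finite (CA n F k) := by unfold CA; infer_instance
  have h1 := hJL F n k hk
  have h2 := LG.card_GL_ge (F := F) (n := n) hPI
  have h3 : (Nat.card {A : Matrix.SpecialLinearGroup (Fin n) F // A ^ k = 1} : ℝ) ≤
      Nat.card (CA n F k) := by
    have h4 : Nat.card {A : Matrix.SpecialLinearGroup (Fin n) F // A ^ k = 1} ≤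
        Nat.card (CA n F k) := by
      refine Nat.card_le_card_of_injective (fun A => (⟨A.1, by rw [A.2]; exact one_mem _⟩ :
        CA n F k)) ?_
      intro A B hAB
      exact Subtype.ext (congrArg (fun x : CA n F k => x.1) hAB)
    exact_mod_cast h4
  have h5 : (Nat.card F : ℝ) ^ (n ^ 2) = (Nat.card F : ℝ) ^ ((n : ℝ) ^ 2) := by
    rw [← Real.rpow_natCast]
    push_cast
    rfl
  have h6 : (Nat.card F : ℝ) ^ (n ^ 2) / 4 *
      (Nat.card F : ℝ) ^ (-((n : ℝ) ^ 2 / k) - 4 * (k : ℝ) ^ 2) ≤ Nat.card (CA n F k) :=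
    (mul_le_mul_of_nonneg_right h2 (Real.rpow_nonneg hq0.le _)).trans (h1.trans h3)
  have h7 : (Nat.card F : ℝ) ^ ((n : ℝ) ^ 2 - (n : ℝ) ^ 2 / k) =
      4 * (Nat.card F : ℝ) ^ (4 * (k : ℝ) ^ 2) * ((Nat.card F : ℝ) ^ (n ^ 2) / 4 *
      (Nat.card F : ℝ) ^ (-((n : ℝ) ^ 2 / k) - 4 * (k : ℝ) ^ 2)) := by
    rw [h5]
    calc (Nat.card F : ℝ) ^ ((n : ℝ) ^ 2 - (n : ℝ) ^ 2 / k)
        = (Nat.card F : ℝ) ^ (4 * (k : ℝ) ^ 2 + ((n : ℝ) ^ 2 +
          (-((n : ℝ) ^ 2 / k) - 4 * (k : ℝ) ^ 2))) := by congr 1; ring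
      _ = _ := by
        rw [Real.rpow_add hq0, Real.rpow_add hq0]
        ring
  rw [h7]
  exact mul_le_mul_of_nonneg_left h6 (by positivity)

end ABS

open ABS in
theorem t_ABS : M_ABS := by
  intro hPI hJL hROT hEVS hCLS k hk
  refine ⟨4 * (k : ℝ) ^ 2 + 2 * k + 3, by positivity, ?_⟩
  intro n hn F _ _ hkq hO
  have hq2 : (2 : ℝ) ≤ (Nat.card F : ℝ) := by
    exact_mod_cast Finite.one_lt_card (α := F)
  have hq0 : (0 : ℝ) < (Nat.card F : ℝ) := by linarith
  have h4 : (4 : ℝ) ^ (k + 1) ≤ (Nat.card F : ℝ) ^ (2 * (k : ℝ) + 2) := by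
    have h5 : (4 : ℝ) ≤ (Nat.card F : ℝ) ^ 2 := by nlinarith
    calc (4 : ℝ) ^ (k + 1) ≤ ((Nat.card F : ℝ) ^ 2) ^ (k + 1) :=
          pow_le_pow_left₀ (by norm_num) h5 _
      _ = (Nat.card F : ℝ) ^ (2 * (k : ℝ) + 2) := by
        rw [← pow_mul, ← Real.rpow_natCast]
        push_cast
        congr 1
        ring
  calc ∑ᶠ A : CA n F k, (Nat.card F : ℝ) ^ (del k A.1.1 / 2)
      ≤ (Nat.card F : ℝ) *
        ∑ᶠ y : {y : GL (Fin n) F // y ^ k = 1}, (Nat.card F : ℝ) ^ (del k y.1.1 / 2) :=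
        sumA hROT hEVS hn hk hkq hO
    _ ≤ (Nat.card F : ℝ) *
        (((n : ℝ) + 1) ^ k * (4 ^ k * (Nat.card F : ℝ) ^ ((n : ℝ) ^ 2 - (n : ℝ) ^ 2 / k))) :=
        mul_le_mul_of_nonneg_left (sumY hEVS hCLS hk hkq) hq0.le
    _ ≤ (Nat.card F : ℝ) * (((n : ℝ) + 1) ^ k * (4 ^ k *
        (4 * (Nat.card F : ℝ) ^ (4 * (k : ℝ) ^ 2) * Nat.card (CA n F k)))) := by
        have h6 := cardCA (n := n) (F := F) hPI hJL hk
        gcongr
    _ = ((n : ℝ) + 1) ^ k * ((Nat.card F : ℝ) * 4 ^ (k + 1) *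
        (Nat.card F : ℝ) ^ (4 * (k : ℝ) ^ 2)) * Nat.card (CA n F k) := by ring
    _ ≤ ((n : ℝ) + 1) ^ k * ((Nat.card F : ℝ) * (Nat.card F : ℝ) ^ (2 * (k : ℝ) + 2) *
        (Nat.card F : ℝ) ^ (4 * (k : ℝ) ^ 2)) * Nat.card (CA n F k) := by gcongr
    _ = ((n : ℝ) + 1) ^ k * (Nat.card F : ℝ) ^ (4 * (k : ℝ) ^ 2 + 2 * k + 3) *
        Nat.card (CA n F k) := by
        congr 2
        nth_rewrite 1 [← Real.rpow_one (Nat.card F : ℝ)]
        rw [← Real.rpow_add hq0, ← Real.rpow_add hq0]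
        congr 1
        ring

end

end FL0
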