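import Pool.Agent.FL0.StG

/-!
# Random homomorphisms of oriented genus 0 to `PSL_n(q)`: tuples with an invariant subspace (helper4)

`S_X` is the statement of module `X`; the module proves `theorem t_X : M_X` (or `t_X : S_X` if there is
no `M_X`) in `Pool/Agent/FL0/X.lean`, namespace `FL0`, importing this file. `d = m.length`, `σ = sig m`,
`q = Nat.card F`.

Plan. `V` reducible for the tuple `x`. Either one `x j` has a large `δ` (few such tuples, S_UPB), or there is an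
invariant `W` with few homomorphisms from `W` to `V / W` (S_DEC). The number of the `x` that induce `a` on `W`
and `b` on `V / W` is at most `q^((d-1) k l - <a,b>)` times the number of the homomorphisms from `a` to `b` (S_FIB).
-/

namespace FL0

open RSF Polynomial

noncomputable section

/-! ## Definitions -/

section

variable {F A B V : Type} [Field F] [AddCommGroup A] [Module F A] [AddCommGroup B] [Module F B]
  [AddCommGroup V] [Module F V] {d : ℕ}

/-- the linear maps that commute with two families of endomorphisms -/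
def Hm (α : Fin d → (A →ₗ[F] A)) (β : Fin d → (B →ₗ[F] B)) : Type :=
  {f : A →ₗ[F] B // ∀ j, f ∘ₗ α j = β j ∘ₗ f}

/-- `W` is invariant -/
def Inv (x : Fin d → (V →ₗ[F] V)) (W : Submodule F V) : Prop := ∀ j, W ≤ W.comap (x j)

/-- the restrictions to `W` -/
def sb (x : Fin d → (V →ₗ[F] V)) (W : Submodule F V) (h : Inv x W) : Fin d → (W →ₗ[F] W) :=
  fun j => (x j).restrict (h j)

/-- the induced maps of `V / W` -/
def qt (x : Fin d → (V →ₗ[F] V)) (W : Submodule F V) (h : Inv x W) :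
    Fin d → ((V ⧸ W) →ₗ[F] (V ⧸ W)) := fun j => W.mapQ W (x j) (h j)

/-- only `0` and `V` are invariant, `V ≠ 0` -/
def Sim (x : Fin d → (V →ₗ[F] V)) : Prop :=
  Nontrivial V ∧ ∀ W : Submodule F V, Inv x W → W = ⊥ ∨ W = ⊤

/-- the block triangular endomorphism `(w, u) ↦ (a w + c u, b u)` of `A × B`;
`bk a c b * bk a' c' b' = bk (a a') (a c' + c b') (b b')` -/
def bk (a : A →ₗ[F] A) (c : B →ₗ[F] A) (b : B →ₗ[F] B) : (A × B) →ₗ[F] (A × B) :=
  LinearMap.prod (a ∘ₗ LinearMap.fst F A B + c ∘ₗ LinearMap.snd F A B) (b ∘ₗ LinearMap.snd F A B)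

/-- the upper right block of the product: `∑_i a_0 ⋯ a_(i-1) c_i b_(i+1) ⋯ b_(d-1)`, linear in `c` -/
def ur (a : Fin d → (A →ₗ[F] A)) (b : Fin d → (B →ₗ[F] B)) (c : Fin d → (B →ₗ[F] A)) : B →ₗ[F] A :=
  LinearMap.fst F A B ∘ₗ (List.ofFn fun j => bk (a j) (c j) (b j)).prod ∘ₗ LinearMap.inr F A B

/-- the sum of the products of the multiplicities -/
def pr (a : Fin d → (A →ₗ[F] A)) (b : Fin d → (B →ₗ[F] B)) : ℕ :=
  ∑ j, ∑ᶠ ζ : F, ev (a j) ζ * ev (b j) ζ

end

/-! ## Block triangular matrices -/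

/-- The upper right block of `(bk a c b)^m` is `∑_(i < m) a^i c b^(m-1-i)`. `T h = a h b⁻¹` has `T^m = 1`
(`b⁻¹ = b^(m-1)`), and `∑_(i < m) T^i (c b⁻¹) = 0`. For `T^m = 1` and `m ≠ 0` in `F`: if `∑ T^i y = 0` then `y` is in the range of
`T - 1` (`m y = m y - ∑ T^i y = - ∑ (T^i - 1) y`). So `c b⁻¹ = (T - 1) h`, `c = a h - h b`. -/
def S_ZRG : Prop :=
  ∀ (F A B : Type) [Field F] [AddCommGroup A] [Module F A] [AddCommGroup B] [Module F B]
    (m : ℕ), 1 ≤ m → (m : F) ≠ 0 → ∀ (a : A →ₗ[F] A) (b : B →ₗ[F] B) (c : B →ₗ[F] A),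
    a ^ m = 1 → b ^ m = 1 → (bk a c b) ^ m = 1 → ∃ h : B →ₗ[F] A, c = a ∘ₗ h - h ∘ₗ b

/-- In bases of eigenvectors (S_DIA) `a h = h b` for all `h` with entries zero outside of the pairs of
equal eigenvalues: the dimension is (at least) `∑ ζ, ev a ζ * ev b ζ`. -/
def S_ZCM : Prop :=
  ∀ (F A B : Type) [Field F] [Finite F] [AddCommGroup A] [Module F A] [FiniteDimensional F A]
    [AddCommGroup B] [Module F B] [FiniteDimensional F B]
    (m : ℕ), 1 ≤ m → m ∣ Nat.card F - 1 → ∀ (a : A →ₗ[F] A) (b : B →ₗ[F] B),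
    a ^ m = 1 → b ^ m = 1 →
      Nat.card F ^ (∑ᶠ ζ : F, ev a ζ * ev b ζ) ≤ Nat.card {h : B →ₗ[F] A // a ∘ₗ h = h ∘ₗ b}

def M_ZCM : Prop := S_DIA → S_ZCM

/-- Let `I` be the set (a subspace) of the `ur a b c`, all `c_j` of the form `a_j h - h b_j`. Every linear functional
on `B →ₗ A` is `X ↦ tr (T X)` for one `T : A →ₗ B`; the functionals that kill `I` are `|B →ₗ A| / |I|` in number, and they
inject into `Hm a b`: let `P_i = a_0 ⋯ a_(i-1)`, `R_i = b_i ⋯ b_(d-1)`. `tr (T P_i (a_i h - h b_i) R_(i+1)) = 0` for all `h`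
gives `Y a_i = b_i Y` for `Y = R_(i+1) T P_i`, i.e. `R_(i+1) T P_(i+1) = R_i T P_i`; so all are equal to `R_0 T P_0 = z T`. So
`Y a_i = z T = b_i Y` and `b_i (z T) = b_i Y a_i = (z T) a_i`; `z ≠ 0`: `T a_i = b_i T`. -/
def S_ZAN : Prop :=
  ∀ (F A B : Type) [Field F] [Finite F] [AddCommGroup A] [Module F A] [FiniteDimensional F A]
    [AddCommGroup B] [Module F B] [FiniteDimensional F B] (d : ℕ) (z : F), z ≠ 0 →
    ∀ (a : Fin d → (A →ₗ[F] A)) (b : Fin d → (B →ₗ[F] B)),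
    (List.ofFn a).prod = z • 1 → (List.ofFn b).prod = z • 1 →
      Nat.card F ^ (Module.finrank F A * Module.finrank F B) ≤
        Nat.card {y : B →ₗ[F] A // ∃ h : Fin d → (B →ₗ[F] A),
          ur a b (fun j => a j ∘ₗ h j - h j ∘ₗ b j) = y} * Nat.card (Hm a b)

/-- The number of the upper right blocks. All `c_j` are in `B_j = {a_j h - h b_j}` (S_ZRG; `m ∣ q - 1` gives
`(m : F) ≠ 0`), `|B_j| |{h | a_j h = h b_j}| = q^(k l)`, S_ZCM; `c` is in the kernel of the linear map `ur a b` on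
`∏ B_j`, of order `∏ |B_j|` divided by the order of the image, S_ZAN. -/
def S_ZON : Prop :=
  ∀ (F A B : Type) [Field F] [Finite F] [AddCommGroup A] [Module F A] [FiniteDimensional F A]
    [AddCommGroup B] [Module F B] [FiniteDimensional F B] (m : List ℕ), (∀ k ∈ m, 2 ≤ k) →
    (∀ k ∈ m, k ∣ Nat.card F - 1) → ∀ z : F, z ≠ 0 →
    ∀ (a : Fin m.length → (A →ₗ[F] A)) (b : Fin m.length → (B →ₗ[F] B)),
    (∀ j, a j ^ m.get j = 1) → (∀ j, b j ^ m.get j = 1) →
      Nat.card {c : Fin m.length → (B →ₗ[F] A) // (∀ j, bk (a j) (c j) (b j) ^ m.get j = 1) ∧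
          (List.ofFn fun j => bk (a j) (c j) (b j)).prod = z • 1} *
        Nat.card F ^ (Module.finrank F A * Module.finrank F B + pr a b) ≤
      Nat.card F ^ (m.length * (Module.finrank F A * Module.finrank F B)) * Nat.card (Hm a b)

def M_ZON : Prop := S_ZRG → S_ZCM → S_ZAN → S_ZON

/-- The number of the `x` which induce given `a` on `W` and `b` on `V / W`. Choose a complement of `W`: an
isomorphism `V ≅ W × (V / W)` that is compatible with the inclusion and the projection; `x j` becomes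
`bk (a j) (c j) (b j)`. S_ZON. -/
def S_FIB : Prop :=
  ∀ (F V : Type) [Field F] [Finite F] [AddCommGroup V] [Module F V] [FiniteDimensional F V]
    (m : List ℕ), (∀ k ∈ m, 2 ≤ k) → (∀ k ∈ m, k ∣ Nat.card F - 1) → ∀ z : F, z ≠ 0 →
    ∀ (W : Submodule F V) (a : Fin m.length → (W →ₗ[F] W))
      (b : Fin m.length → ((V ⧸ W) →ₗ[F] (V ⧸ W))),
    (∀ j, a j ^ m.get j = 1) → (∀ j, b j ^ m.get j = 1) →
      Nat.card {x : Fin m.length → (V →ₗ[F] V) // (∀ j, x j ^ m.get j = 1) ∧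
          (List.ofFn x).prod = z • 1 ∧ ∃ h : Inv x W, sb x W h = a ∧ qt x W h = b} *
        Nat.card F ^ (Module.finrank F W * Module.finrank F (V ⧸ W) + pr a b) ≤
      Nat.card F ^ (m.length * (Module.finrank F W * Module.finrank F (V ⧸ W))) *
        Nat.card (Hm a b)

def M_FIB : Prop := S_ZON → S_FIB

/-! ## Modules -/

/-- Homomorphisms from a simple module. (1) `f ↦ f v`, `v ≠ 0` fixed, is injective (the kernel of `f` is invariant). (2) Let
`dim A ≥ 2`, all `α j` diagonalizable. Let `w ≠ 0` and `E w = {φ w : φ ∈ Hm α α}`. If `E w = A` then `E w' = A` for all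
`w' ≠ 0` (`w' = φ w`, `φ` is invertible), an eigenspace `U ≠ 0` of `α j` is stable under `E`, so `U = A`: all `α j` are scalars,
every line is invariant, `dim A = 1`. So there is `v ∉ E w`. The map `Hm × Hm → B`, `(f, g) ↦ f v + g w`, is
injective (additive): suppose `f v + g w = 0`. Let `R` be the algebra generated by the `α j` (and the corresponding elements
acting on `B`): if some `r` has `r w = 0`, `r v ≠ 0` then `f (r v) = r (f v + g w) - g (r w) = 0`, `f = 0`, `g w = 0`, `g = 0`. Otherwise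
`r w = 0 ⇒ r v = 0`, so `r w ↦ r v` is a well defined endomorphism of `A = R w` which maps `w` to `v`, a
contradiction. (Use `FreeAlgebra F (Fin d)` acting on `A` and `B` by `FreeAlgebra.lift`.) -/
def S_SMP : Prop :=
  ∀ (F A B : Type) [Field F] [Finite F] [AddCommGroup A] [Module F A] [FiniteDimensional F A]
    [AddCommGroup B] [Module F B] [FiniteDimensional F B] (d : ℕ)
    (α : Fin d → (A →ₗ[F] A)) (β : Fin d → (B →ₗ[F] B)), Sim α →
    Nat.card (Hm α β) ≤ Nat.card F ^ Module.finrank F B ∧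
    ((∀ j, ∃ m : ℕ, 1 ≤ m ∧ m ∣ Nat.card F - 1 ∧ α j ^ m = 1) → 2 ≤ Module.finrank F A →
      Nat.card (Hm α β) ^ 2 ≤ Nat.card F ^ Module.finrank F B)

def M_SMP : Prop := S_DIA → S_SMP

/-- Harder-Narasimhan. `deg U = dim (U ∩ ker (x_j - ζ))` for invariant `U`, `μ(U) = deg U / dim U`. Let `W` be an invariant
subspace `≠ 0` of maximal slope, and among these of maximal dimension. `W ≠ V` because `μ(W) ≥ μ(W₁) > μ(V)`. Let `f` be a
nonzero homomorphism `W → V / W`; `W'' = ker f`, `W' / W = range f`. `deg (W' / W) := deg W' - deg W` is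
`ev` of the induced map (`x_j` is diagonalizable, S_DIA), and the same for `W / W''`; these two are isomorphic, so
`deg W' - deg W = deg W - deg W''` and `dim W' - dim W = dim W - dim W''`. But `deg W' dim W < deg W dim W'`
(`W'` is larger than `W`) and `deg W'' dim W ≤ deg W dim W''`: a contradiction. -/
def S_HNF : Prop :=
  ∀ (F V : Type) [Field F] [Finite F] [AddCommGroup V] [Module F V] [FiniteDimensional F V]
    (d : ℕ) (x : Fin d → (V →ₗ[F] V)) (j : Fin d) (k : ℕ), 1 ≤ k → k ∣ Nat.card F - 1 →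
    x j ^ k = 1 → ∀ (ζ : F) (W₁ : Submodule F V) (h₁ : Inv x W₁),
    ev (x j) ζ * Module.finrank F W₁ < ev (sb x W₁ h₁ j) ζ * Module.finrank F V →
      ∃ (W : Submodule F V) (h : Inv x W), W ≠ ⊥ ∧ W ≠ ⊤ ∧
        ∀ f : Hm (sb x W h) (qt x W h), f.1 = 0

def M_HNF : Prop := S_DIA → S_HNF

/-- Strict Cauchy-Schwarz: `k sq x - (dim V)^2` is the sum of the squares of the differences of the multiplicities
of the `k` roots of unity (unordered pairs), an integer, and `0` only if all are equal. -/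
def S_STR : Prop :=
  ∀ (F V : Type) [Field F] [Finite F] [AddCommGroup V] [Module F V] [FiniteDimensional F V]
    (k : ℕ), 1 ≤ k → k ∣ Nat.card F - 1 → ∀ x : V →ₗ[F] V, x ^ k = 1 →
    ¬ k ∣ Module.finrank F V → Module.finrank F V ^ 2 + 1 ≤ k * sq x

def M_STR : Prop := S_DIA → S_STR

/-- Let `W` be a nonzero invariant subspace of minimal dimension `k`; it is simple, `k < n`, `l = n - k`. (1) If `k ≥ 2 / (σ - 2)`:
`|Hm| ≤ q^l ≤ q^((σ-2) k l / 2)` (S_SMP). (2) If all `m_j` divide `k`: `k (σ - 2) = k (d - 2) - ∑ k / m_j` is a positive integer,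
`k ≥ 2`: `|Hm| ≤ q^(l/2) ≤ q^((σ-2) k l / 2)`. (3) Otherwise `k < 2 / (σ-2)` and `m_j` does not divide `k` for some `j`. If
`n ev(a_j) ζ = k ev(x_j) ζ` for all `ζ` (`a = sb x W`) then `sq x_j = (n/k)^2 sq a_j` and `sq a_j - k^2 / m_j ≥ 1 / m_j`
(S_STR): `sq x_j - n^2 / m_j ≥ n^2 / (k^2 m_j) ≥ c₀ n^2`, `c₀ = (σ-2)^2 / (4 m.sum)`. Otherwise
`n ev(a_j) ζ > k ev(x_j) ζ` for some `ζ`, because both sides have the sum `n k` (S_DIA): S_HNF. -/
def S_DEC : Prop :=
  ∀ m : List ℕ, (∀ k ∈ m, 2 ≤ k) → 2 < sig m → ∃ c₀ : ℝ, 0 < c₀ ∧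
    ∀ (F V : Type) [Field F] [Finite F] [AddCommGroup V] [Module F V] [FiniteDimensional F V],
    (∀ k ∈ m, k ∣ Nat.card F - 1) → ∀ x : Fin m.length → (V →ₗ[F] V), (∀ j, x j ^ m.get j = 1) →
    (∃ W : Submodule F V, Inv x W ∧ W ≠ ⊥ ∧ W ≠ ⊤) →
      (∃ j, c₀ * (Module.finrank F V : ℝ) ^ 2 ≤
        (sq (x j) : ℝ) - (Module.finrank F V : ℝ) ^ 2 / m.get j) ∨
      ∃ (W : Submodule F V) (h : Inv x W), W ≠ ⊥ ∧ W ≠ ⊤ ∧
        (Nat.card (Hm (sb x W h) (qt x W h)) : ℝ) ≤ (Nat.card F : ℝ) ^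
          ((sig m - 2) / 2 * Module.finrank F W * Module.finrank F (V ⧸ W))

def M_DEC : Prop := S_DIA → S_SMP → S_HNF → S_STR → S_DEC

/-! ## The count -/

/-- For one `W`, `k = dim W`, `l = dim V / W`, `n = k + l`. `x` induces `a`, `b` with multiplicities `β`, `β'` (at most
`(k+1)^(m.sum) (l+1)^(m.sum)` possibilities, S_EVS 4), at most `q^(C + κ k^2 - |β|^2/2)` and `q^(C + κ l^2 - |β'|^2/2)` possible
`a`, `b` (S_UPB, `κ = (d + σ)/2 - 1`), and for each pair at most `q^((d-1) k l - <β,β'>) H` possible `x` (S_FIB).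
`κ (k^2 + l^2) = κ n^2 - (d + σ - 2) k l`, `|β|^2 + |β'|^2 + 2 <β,β'> = |β + β'|^2 ≥ (d - σ) n^2` (Cauchy-Schwarz: for
each `j` the sum over the at most `m_j` roots of unity is `n`), `κ n^2 - (d - σ) n^2 / 2 = (σ - 1) n^2`. -/
def S_PAR : Prop :=
  ∀ m : List ℕ, (∀ k ∈ m, 2 ≤ k) → 2 < sig m → ∃ C : ℝ, 0 ≤ C ∧
    ∀ (F V : Type) [Field F] [Finite F] [AddCommGroup V] [Module F V] [FiniteDimensional F V],
    (∀ k ∈ m, k ∣ Nat.card F - 1) → ∀ z : F, z ≠ 0 → ∀ (W : Submodule F V) (H : ℝ), 0 ≤ H →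
      (Nat.card {x : Fin m.length → (V →ₗ[F] V) // (∀ j, x j ^ m.get j = 1) ∧
          (List.ofFn x).prod = z • 1 ∧
          ∃ h : Inv x W, (Nat.card (Hm (sb x W h) (qt x W h)) : ℝ) ≤ H} : ℝ) ≤
      ((Module.finrank F V : ℝ) + 1) ^ (2 * m.sum) *
        (Nat.card F : ℝ) ^ (C + (sig m - 1) * (Module.finrank F V : ℝ) ^ 2 -
          (sig m - 1) * (Module.finrank F W * Module.finrank F (V ⧸ W))) * H

def M_PAR : Prop := S_DIA → S_EVS → S_UPB → S_FIB → S_PAR

/-- The tuples in `GL_n` as tuples of endomorphisms of `F^n` (`lm`). S_DEC. First alternative: at most `(n+1)^(m.sum)`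
multiplicity functions (S_EVS 4) with `|β|^2 = ∑ sq x_j ≥ (d - σ) n^2 + c₀ n^2`, S_UPB: `q^(C + (σ-1) n^2 - c₀ n^2 / 2)` each. Second
alternative: for every `k`, `1 ≤ k ≤ n - 1`, at most `4 q^(k l)` subspaces `W` (S_SUB) and S_PAR with `H = q^((σ-2) k l / 2)`:
exponent `C + (σ-1) n^2 - (σ-2) k l / 2`, `k l ≥ n - 1`. -/
def M_RED : Prop := S_SUB → S_EVS → S_UPB → S_DEC → S_PAR → S_RED

end

end FL0
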