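import Pool.Agent.FL0.StR
import Pool.Agent.FL0.LOW
import Pool.Agent.FLN.StN

/-!
# The two main theorems from the counting theorem, irreducibility and the subgroup theorem
-/

namespace FL0

open RSF Polynomial

noncomputable section

namespace MAIN

/-- `2 q^(-a n) ≤ q^(-(a/2) n)` for `n ≥ 2 / a` -/
theorem two_mul_le (a : ℝ) (ha : 0 < a) : ∃ r : ℕ, ∀ n : ℕ, r ≤ n → ∀ q : ℝ, 2 ≤ q →
    2 * q ^ (-a * (n : ℝ)) ≤ q ^ (-(a / 2) * (n : ℝ)) := by
  obtain ⟨r, hr⟩ := exists_nat_ge (2 / a)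
  refine ⟨r, fun n hn q hq => ?_⟩
  have hn' : 2 / a ≤ (n : ℝ) := hr.trans (by exact_mod_cast hn)
  have h1 : 1 ≤ a / 2 * (n : ℝ) := by
    rw [div_le_iff₀ ha] at hn'
    linarith
  have hq0 : 0 < q := by linarith
  calc 2 * q ^ (-a * (n : ℝ)) ≤ q ^ (1 : ℝ) * q ^ (-a * (n : ℝ)) := by
        refine mul_le_mul_of_nonneg_right ?_ (Real.rpow_nonneg hq0.le _)
        rw [Real.rpow_one]
        exact hq
    _ = q ^ (1 + -a * (n : ℝ)) := (Real.rpow_add hq0 _ _).symm
    _ ≤ q ^ (-(a / 2) * (n : ℝ)) := by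
        refine Real.rpow_le_rpow_of_exponent_le (by linarith) ?_
        linarith

theorem card_ge (F : Type) [Field F] [Finite F] : (2 : ℝ) ≤ (Nat.card F : ℝ) := by
  have : 1 < Nat.card F := Finite.one_lt_card
  exact_mod_cast this

/-- the probability of the conjunction of the complements -/
theorem prob_ge {Γ G : Type} [Group Γ] [Group G] [Finite (Γ →* G)] (P Q : (Γ →* G) → Prop)
    (h0 : 0 < Nat.card (Γ →* G)) :
    1 - (prob Γ G (fun ρ => ¬ P ρ) + prob Γ G Q) ≤ prob Γ G (fun ρ => P ρ ∧ ¬ Q ρ) := by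
  unfold prob
  have h0' : (0 : ℝ) < Nat.card (Γ →* G) := by exact_mod_cast h0
  have key : Nat.card (Γ →* G) ≤ Nat.card {ρ : Γ →* G // P ρ ∧ ¬ Q ρ} +
      (Nat.card {ρ : Γ →* G // ¬ P ρ} + Nat.card {ρ : Γ →* G // Q ρ}) := by
    classical
    rw [← Nat.card_sum, ← Nat.card_sum]
    refine Nat.card_le_card_of_surjective (fun x => Sum.elim (fun y => y.1)
      (Sum.elim (fun y => y.1) (fun y => y.1)) x) ?_
    intro ρ
    by_cases h1 : P ρ
    · by_cases h2 : Q ρ
      · exact ⟨Sum.inr (Sum.inr ⟨ρ, h2⟩), rfl⟩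
      · exact ⟨Sum.inl ⟨ρ, h1, h2⟩, rfl⟩
    · exact ⟨Sum.inr (Sum.inl ⟨ρ, h1⟩), rfl⟩
  rw [← add_div, le_div_iff₀ h0', sub_mul, one_mul, div_mul_cancel₀ _ h0'.ne']
  have key' : (Nat.card (Γ →* G) : ℝ) ≤ Nat.card {ρ : Γ →* G // P ρ ∧ ¬ Q ρ} +
      (Nat.card {ρ : Γ →* G // ¬ P ρ} + Nat.card {ρ : Γ →* G // Q ρ}) := by exact_mod_cast key
  linarith

theorem exp_le (F : Type) [Field F] [Finite F] {a b : ℝ} (h : a ≤ b) :
    (Nat.card F : ℝ) ^ a ≤ (Nat.card F : ℝ) ^ b :=
  Real.rpow_le_rpow_of_exponent_le (by linarith [card_ge F]) h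

/-- the last step, for both families of groups -/
theorem last {Γ G : Type} [Group Γ] [Group G] (F : Type) [Field F] [Finite F]
    [Finite (Γ →* G)] (h0 : 0 < Nat.card (Γ →* G)) (n : ℕ) (c a : ℝ) (P Q : (Γ →* G) → Prop)
    (hc : c ≤ a / 2)
    (h2 : 2 * (Nat.card F : ℝ) ^ (-a * (n : ℝ)) ≤ (Nat.card F : ℝ) ^ (-(a / 2) * (n : ℝ)))
    (hP : prob Γ G (fun ρ => ¬ P ρ) ≤ (Nat.card F : ℝ) ^ (-a * (n : ℝ)))
    (hQ : prob Γ G Q ≤ (Nat.card F : ℝ) ^ (-a * (n : ℝ))) :
    1 - (Nat.card F : ℝ) ^ (-c * (n : ℝ)) ≤ prob Γ G (fun ρ => P ρ ∧ ¬ Q ρ) := by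
  have h1 := prob_ge P Q h0
  have h3 : (Nat.card F : ℝ) ^ (-(a / 2) * (n : ℝ)) ≤ (Nat.card F : ℝ) ^ (-c * (n : ℝ)) := by
    refine exp_le F (mul_le_mul_of_nonneg_right ?_ (Nat.cast_nonneg n))
    linarith
  linarith

theorem cast_JJ (G : Type) [Group G] (m : List ℕ) :
    (JJ G m : ℝ) = (m.map fun k => (Nat.card {t : G // t ^ k = 1} : ℝ)).prod := by
  unfold JJ jn
  induction m with
  | nil => simp
  | cons k m ih =>
    rw [List.map_cons, List.prod_cons, List.map_cons, List.prod_cons, Nat.cast_mul, ih]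

theorem finPS (n : ℕ) (F : Type) [Field F] [Finite F] : Finite (PS n F) := by
  have : Finite (Matrix (Fin n) (Fin n) F) := inferInstanceAs (Finite (Fin n → Fin n → F))
  have : Finite (Matrix.SpecialLinearGroup (Fin n) F) :=
    Finite.of_injective (fun g : Matrix.SpecialLinearGroup (Fin n) F => g.1)
      Subtype.val_injective
  exact Quotient.finite _

theorem finO (n : ℕ) (F : Type) [Field F] [Finite F] (m : List ℕ) :
    Finite (OGroup 0 m →* PS n F) := by
  have := finPS n F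
  refine Finite.of_injective (fun (ρ : OGroup 0 m →* PS n F) (j : Fin m.length) => ρ (ox 0 m j)) ?_
  intro ρ ρ' h
  refine PresentedGroup.ext fun x => ?_
  rcases x with i | i | j
  · exact i.elim0
  · exact i.elim0
  · exact congrFun h j

theorem finN (n : ℕ) (F : Type) [Field F] [Finite F] (m : List ℕ) :
    Finite (NGroup 1 m →* PS n F) := by
  have := finPS n F
  refine Finite.of_injective (fun (ρ : NGroup 1 m →* PS n F) =>
    ((fun j : Fin m.length => ρ (nx 1 m j)), ρ (FLN.n1 m))) ?_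
  intro ρ ρ' h
  refine PresentedGroup.ext fun x => ?_
  rcases x with i | j
  · have hi : i = 0 := Subsingleton.elim _ _
    subst hi
    exact congrArg Prod.snd h
  · exact congrFun (congrArg Prod.fst h) j

end MAIN

open MAIN

theorem t_Main0 (hC : S_CNT0) (h2 : S_FII) (h3 : S_FIII) : Main := by
  intro m hm hσ θ hθ
  obtain ⟨c1, r1, hc1, hr1, H1⟩ := hC m hm hσ
  obtain ⟨c2, r2, hc2, H2⟩ := h2 m hm hσ
  obtain ⟨η, r3, hη, H3⟩ := h3 m hm hσ θ hθ
  set a : ℝ := min c2 1 with ha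
  have ha0 : 0 < a := lt_min hc2 one_pos
  obtain ⟨r4, H4⟩ := two_mul_le a ha0
  set c : ℝ := min (min c1 η) (a / 2) with hc
  have hc0 : 0 < c := lt_min (lt_min hc1 hη) (by linarith)
  refine ⟨c, max (max r1 r2) (max r3 r4), hc0, ?_⟩
  intro n hn F _ _ hord
  have hn1 : r1 ≤ n := ((le_max_left _ _).trans (le_max_left _ _)).trans hn
  have hn2 : r2 ≤ n := ((le_max_right _ _).trans (le_max_left _ _)).trans hn
  have hn3 : r3 ≤ n := ((le_max_left _ _).trans (le_max_right _ _)).trans hn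
  have hn4 : r4 ≤ n := ((le_max_right _ _).trans (le_max_right _ _)).trans hn
  have hdvd : ∀ k ∈ m, k ∣ Nat.card F - 1 := fun k hk =>
    (Dvd.intro _ rfl).trans (hord k hk)
  have hfin' := finO n F m
  refine ⟨?_, ?_⟩
  · have h5 := H1 n hn1 F hdvd hord
    rw [cast_JJ] at h5
    refine h5.trans (exp_le F (mul_le_mul_of_nonneg_right ?_ (Nat.cast_nonneg n)))
    have : c ≤ c1 := (min_le_left _ _).trans (min_le_left _ _)
    linarith
  · intro S hS hM
    have h5 := last F (Nat.card_pos (α := OGroup 0 m →* PS n F)) n c a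
      (fun ρ : OGroup 0 m →* PS n F => Irr ρ.range) (fun ρ => ∃ M ∈ S, InConj ρ.range M)
      (min_le_right _ _) (H4 n hn4 _ (card_ge F))
      ((H2 n hn2 F hdvd hord).trans (exp_le F (mul_le_mul_of_nonneg_right
        (neg_le_neg (min_le_left _ _)) (Nat.cast_nonneg n))))
      ((H3 n hn3 F hdvd hord S (hS.trans (exp_le F (mul_le_mul_of_nonneg_right
        ((min_le_left _ _).trans (min_le_right _ _)) (by positivity)))) hM).trans (exp_le F (by
          have h6 : a ≤ 1 := min_le_right _ _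
          have h7 : (0 : ℝ) ≤ n := Nat.cast_nonneg n
          nlinarith)))
    refine h5.trans (le_of_eq ?_)
    unfold prob
    congr 3
    apply congrArg
    funext ρ
    push Not
    rfl

theorem t_Main1 (hC : FLN.S_CNT) (h2 : FLN.S_FII) (h3 : FLN.S_FIII) :
    FLN.Main := by
  intro m hm hσ θ hθ
  obtain ⟨c1, r1, hc1, hr1, H1⟩ := hC m hm hσ
  obtain ⟨c2, r2, hc2, H2⟩ := h2 m hm hσ
  obtain ⟨η, r3, hη, H3⟩ := h3 m hm hσ θ hθ
  set a : ℝ := min c2 1 with ha
  have ha0 : 0 < a := lt_min hc2 one_pos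
  obtain ⟨r4, H4⟩ := two_mul_le a ha0
  set c : ℝ := min (min c1 η) (a / 2) with hc
  have hc0 : 0 < c := lt_min (lt_min hc1 hη) (by linarith)
  refine ⟨c, max (max r1 r2) (max r3 r4), hc0, ?_⟩
  intro n hn F _ _ hord
  have hn1 : r1 ≤ n := ((le_max_left _ _).trans (le_max_left _ _)).trans hn
  have hn2 : r2 ≤ n := ((le_max_right _ _).trans (le_max_left _ _)).trans hn
  have hn3 : r3 ≤ n := ((le_max_left _ _).trans (le_max_right _ _)).trans hn
  have hn4 : r4 ≤ n := ((le_max_right _ _).trans (le_max_right _ _)).trans hn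
  have hdvd : ∀ k ∈ m, k ∣ Nat.card F - 1 := fun k hk =>
    (Dvd.intro _ rfl).trans (hord k hk)
  have hfin' := finN n F m
  refine ⟨?_, ?_⟩
  · have h5 := H1 n hn1 F hdvd hord
    rw [cast_JJ] at h5
    refine h5.trans (exp_le F (mul_le_mul_of_nonneg_right ?_ (Nat.cast_nonneg n)))
    have : c ≤ c1 := (min_le_left _ _).trans (min_le_left _ _)
    linarith
  · intro S hS hM
    have h5 := last F (Nat.card_pos (α := NGroup 1 m →* PS n F)) n c a
      (fun ρ : NGroup 1 m →* PS n F => Irr ρ.range) (fun ρ => ∃ M ∈ S, InConj ρ.range M)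
      (min_le_right _ _) (H4 n hn4 _ (card_ge F))
      ((H2 n hn2 F hdvd hord).trans (exp_le F (mul_le_mul_of_nonneg_right
        (neg_le_neg (min_le_left _ _)) (Nat.cast_nonneg n))))
      ((H3 n hn3 F hdvd hord S (hS.trans (exp_le F (mul_le_mul_of_nonneg_right
        ((min_le_left _ _).trans (min_le_right _ _)) (by positivity)))) hM).trans (exp_le F (by
          have h6 : a ≤ 1 := min_le_right _ _
          have h7 : (0 : ℝ) ≤ n := Nat.cast_nonneg n
          nlinarith)))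
    refine h5.trans (le_of_eq ?_)
    unfold prob
    congr 3
    apply congrArg
    funext ρ
    push Not
    rfl

end

end FL0
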