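import Pool.Agent.FL0.StR

/-!
# DEC: decomposition of reducible tuples
-/

namespace FL0

open RSF Polynomial

noncomputable section

/-! ### sums of multiplicities -/

lemma DEC_sum_ev (hD : S_DIA) (F V : Type) [Field F] [Finite F] [AddCommGroup V] [Module F V]
    [FiniteDimensional F V] (k : ℕ) (hk : 1 ≤ k) (hkq : k ∣ Nat.card F - 1) (x : V →ₗ[F] V)
    (hx : x ^ k = 1) : ∑ᶠ ζ : F, ev x ζ = Module.finrank F V := by
  classical
  obtain ⟨b, l, -, -, h⟩ := hD F V k hk hkq x hx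
  have : Fintype F := Fintype.ofFinite F
  rw [finsum_eq_sum_of_fintype]
  simp only [h]
  have h1 : ∀ ζ : F, Nat.card {i // l i = ζ} = (Finset.univ.filter fun i => l i = ζ).card := by
    intro ζ
    rw [Nat.card_eq_fintype_card, Fintype.card_subtype]
  simp only [h1]
  have h2 := Finset.card_eq_sum_card_fiberwise (f := l) (s := Finset.univ)
    (t := (Finset.univ : Finset F)) (fun _ _ => Finset.mem_univ _)
  rw [← h2, Finset.card_univ, Fintype.card_fin]

lemma DEC_sum_eq {F : Type} [Finite F] (f g : F → ℕ) (h : ∑ᶠ ζ, f ζ = ∑ᶠ ζ, g ζ)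
    (hle : ∀ ζ, f ζ ≤ g ζ) : ∀ ζ, f ζ = g ζ := by
  classical
  have : Fintype F := Fintype.ofFinite F
  rw [finsum_eq_sum_of_fintype, finsum_eq_sum_of_fintype] at h
  have := (Finset.sum_eq_sum_iff_of_le (fun i _ => hle i)).1 h
  intro ζ
  exact this ζ (Finset.mem_univ ζ)

lemma DEC_mul {F : Type} [Finite F] (n : ℕ) (f : F → ℕ) :
    ∑ᶠ ζ, n * f ζ = n * ∑ᶠ ζ, f ζ := by
  classical
  have : Fintype F := Fintype.ofFinite F
  rw [finsum_eq_sum_of_fintype, finsum_eq_sum_of_fintype, Finset.mul_sum]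

/-! ### a minimal invariant subspace -/

lemma DEC_min {F V : Type} [Field F] [AddCommGroup V] [Module F V] [FiniteDimensional F V]
    {d : ℕ} (x : Fin d → (V →ₗ[F] V)) (h : ∃ W : Submodule F V, Inv x W ∧ W ≠ ⊥ ∧ W ≠ ⊤) :
    ∃ (W : Submodule F V) (hW : Inv x W), W ≠ ⊥ ∧ W ≠ ⊤ ∧ Sim (sb x W hW) := by
  classical
  have hex : ∃ k : ℕ, ∃ W : Submodule F V, (Inv x W ∧ W ≠ ⊥ ∧ W ≠ ⊤) ∧ Module.finrank F W = k := by
    obtain ⟨W, hW⟩ := h
    exact ⟨_, W, hW, rfl⟩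
  obtain ⟨W, ⟨hW, hb, ht⟩, hk⟩ := Nat.find_spec hex
  refine ⟨W, hW, hb, ht, (Submodule.nontrivial_iff_ne_bot).2 hb, ?_⟩
  intro W' hW'
  by_cases hbot : W' = ⊥
  · exact Or.inl hbot
  right
  set U : Submodule F V := W'.map W.subtype with hU
  have hUW : U ≤ W := Submodule.map_subtype_le W W'
  have hUb : U ≠ ⊥ := by
    intro h0
    apply hbot
    apply Submodule.map_injective_of_injective W.injective_subtype
    rw [Submodule.map_bot]
    exact h0
  have hUt : U ≠ ⊤ := fun h0 => ht (top_le_iff.1 (h0 ▸ hUW))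
  have hUinv : Inv x U := by
    intro j v hv
    obtain ⟨w, hw, rfl⟩ := hv
    have h1 := hW' j hw
    rw [Submodule.mem_comap] at h1 ⊢
    exact ⟨_, h1, rfl⟩
  have hmin := Nat.find_min' hex ⟨U, ⟨hUinv, hUb, hUt⟩, rfl⟩
  rw [← hk] at hmin
  have hfr : Module.finrank F U = Module.finrank F W' :=
    Submodule.finrank_map_subtype_eq W W'
  exact Submodule.eq_top_of_finrank_eq (le_antisymm (Submodule.finrank_le _) (hfr ▸ hmin))

/-! ### the number `k (σ - 2)` -/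

lemma DEC_int (m : List ℕ) (k : ℕ) (hm : ∀ j ∈ m, 2 ≤ j) (hd : ∀ j ∈ m, j ∣ k) :
    ∃ z : ℤ, (k : ℝ) * sig m = z := by
  induction m with
  | nil => exact ⟨0, by simp [sig]⟩
  | cons a t ih =>
    obtain ⟨z, hz⟩ := ih (fun j hj => hm j (List.mem_cons_of_mem _ hj))
      (fun j hj => hd j (List.mem_cons_of_mem _ hj))
    obtain ⟨c, hc⟩ := hd a List.mem_cons_self
    have ha : (a : ℝ) ≠ 0 := by
      have := hm a List.mem_cons_self
      positivity
    refine ⟨k - c + z, ?_⟩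
    have h1 : sig (a :: t) = (1 - 1 / (a : ℝ)) + sig t := by simp [sig]
    rw [h1, mul_add, hz]
    push_cast
    have h2 : (k : ℝ) = a * c := by exact_mod_cast hc
    rw [h2]
    field_simp

lemma DEC_one (m : List ℕ) (k : ℕ) (hm : ∀ j ∈ m, 2 ≤ j) (hd : ∀ j ∈ m, j ∣ k) (hk : 1 ≤ k)
    (hs : 2 < sig m) : 1 ≤ (k : ℝ) * (sig m - 2) := by
  obtain ⟨z, hz⟩ := DEC_int m k hm hd
  have h1 : (0 : ℝ) < (k : ℝ) * (sig m - 2) := by
    have : (0 : ℝ) < k := by exact_mod_cast hk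
    have h2 : 0 < sig m - 2 := by linarith
    positivity
  have h2 : (k : ℝ) * (sig m - 2) = ((z - 2 * k : ℤ) : ℝ) := by
    push_cast
    rw [← hz]
    ring
  rw [h2] at h1 ⊢
  have h3 : (0 : ℤ) < z - 2 * k := by exact_mod_cast h1
  have h4 : (1 : ℤ) ≤ z - 2 * k := h3
  exact_mod_cast h4

theorem t_DEC : M_DEC := by
  intro hD hSMP hHNF hSTR m hm hs
  have hne : m ≠ [] := by
    rintro rfl
    simp [sig] at hs
    linarith
  obtain ⟨a0, ha0⟩ := List.exists_mem_of_ne_nil m hne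
  have hsum : ∀ j ∈ m, j ≤ m.sum := fun j hj => List.single_le_sum (by simp) j hj
  have hms : (0 : ℝ) < (m.sum : ℝ) := by
    have h1 := hm a0 ha0
    have h2 := hsum a0 ha0
    have : 0 < m.sum := by omega
    exact_mod_cast this
  have hs0 : 0 < sig m - 2 := by linarith
  refine ⟨(sig m - 2) ^ 2 / (4 * m.sum), by positivity, ?_⟩
  intro F V _ _ _ _ _ hq x hx hW
  have hFq : (1 : ℝ) < (Nat.card F : ℝ) := by exact_mod_cast Finite.one_lt_card (α := F)
  have hF1 : (1 : ℝ) ≤ (Nat.card F : ℝ) := hFq.le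
  have hF0 : (0 : ℝ) ≤ (Nat.card F : ℝ) := by linarith
  obtain ⟨W, hWi, hWb, hWt, hsim⟩ := DEC_min x hW
  set k := Module.finrank F W with hk
  set l := Module.finrank F (V ⧸ W) with hl
  set n := Module.finrank F V with hn
  have hkl : l + k = n := Submodule.finrank_quotient_add_finrank W
  have hk1 : 1 ≤ k := by
    rw [hk, Nat.one_le_iff_ne_zero]
    intro h0
    exact hWb (Submodule.finrank_eq_zero.1 h0)
  have hk0 : (0 : ℝ) < k := by exact_mod_cast hk1
  have hl0 : (0 : ℝ) ≤ l := by positivity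
  obtain ⟨h1, h2⟩ := hSMP F W (V ⧸ W) m.length (sb x W hWi) (qt x W hWi) hsim
  have hsbx : ∀ j, sb x W hWi j ^ m.get j = 1 := by
    intro j
    ext w
    have h3 : ∀ r : ℕ, ((((sb x W hWi j) ^ r) w : W) : V) = ((x j) ^ r) (w : V) := by
      intro r
      induction r with
      | zero => simp
      | succ r ih => rw [pow_succ', pow_succ', Module.End.mul_apply, Module.End.mul_apply, ← ih]; rfl
    rw [h3, hx j]
    rfl
  by_cases hA : 2 ≤ (sig m - 2) * k
  · -- case (1)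
    refine Or.inr ⟨W, hWi, hWb, hWt, ?_⟩
    have h4 : (Nat.card (Hm (sb x W hWi) (qt x W hWi)) : ℝ) ≤ (Nat.card F : ℝ) ^ (l : ℝ) := by
      rw [Real.rpow_natCast]
      exact_mod_cast h1
    refine h4.trans (Real.rpow_le_rpow_of_exponent_le hF1 ?_)
    nlinarith
  by_cases hB : ∀ j ∈ m, j ∣ k
  · -- case (2)
    refine Or.inr ⟨W, hWi, hWb, hWt, ?_⟩
    have hk2 : 2 ≤ k := (hm a0 ha0).trans (Nat.le_of_dvd (by omega) (hB a0 ha0))
    have h5 := h2 (fun j => ⟨m.get j, by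
      have := hm (m.get j) (List.get_mem m j)
      omega, hq _ (List.get_mem m j), hsbx j⟩) hk2
    have h6 := DEC_one m k hm hB hk1 hs
    have h7 : (Nat.card (Hm (sb x W hWi) (qt x W hWi)) : ℝ) ≤ (Nat.card F : ℝ) ^ ((l : ℝ) / 2) := by
      have h8 : ((Nat.card (Hm (sb x W hWi) (qt x W hWi)) : ℝ)) ^ 2 ≤
          ((Nat.card F : ℝ) ^ ((l : ℝ) / 2)) ^ 2 := by
        rw [← Real.rpow_natCast ((Nat.card F : ℝ) ^ ((l : ℝ) / 2)) 2, ← Real.rpow_mul hF0]
        have h9 : (l : ℝ) / 2 * ((2 : ℕ) : ℝ) = l := by push_cast; ring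
        rw [h9, Real.rpow_natCast]
        exact_mod_cast h5
      exact le_of_sq_le_sq h8 (by positivity)
    refine h7.trans (Real.rpow_le_rpow_of_exponent_le hF1 ?_)
    nlinarith
  -- case (3)
  push Not at hB hA
  obtain ⟨mj, hmj, hmk⟩ := hB
  obtain ⟨j, hj⟩ := List.get_of_mem hmj
  have hmj2 := hm mj hmj
  have hmq := hq mj hmj
  have hxj : x j ^ mj = 1 := by rw [← hj]; exact hx j
  have haj : sb x W hWi j ^ mj = 1 := by rw [← hj]; exact hsbx j
  have hs1 := DEC_sum_ev hD F V mj (by omega) hmq (x j) hxj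
  have hs2 := DEC_sum_ev hD F W mj (by omega) hmq (sb x W hWi j) haj
  by_cases hC : ∀ ζ, n * ev (sb x W hWi j) ζ ≤ k * ev (x j) ζ
  · left
    refine ⟨j, ?_⟩
    have heq := DEC_sum_eq (fun ζ => n * ev (sb x W hWi j) ζ) (fun ζ => k * ev (x j) ζ)
      (by rw [DEC_mul, DEC_mul, hs1, hs2, mul_comm]) hC
    have hsq : n ^ 2 * sq (sb x W hWi j) = k ^ 2 * sq (x j) := by
      unfold sq
      rw [← DEC_mul, ← DEC_mul]
      refine finsum_congr fun ζ => ?_
      have := heq ζ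
      rw [← mul_pow, ← mul_pow, this]
    have h10 := hSTR F W mj (by omega) hmq (sb x W hWi j) haj (by rw [← hk]; exact hmk)
    rw [← hk] at h10
    have h11 : (n : ℝ) ^ 2 * sq (sb x W hWi j) = (k : ℝ) ^ 2 * sq (x j) := by exact_mod_cast hsq
    have h12 : (k : ℝ) ^ 2 + 1 ≤ mj * sq (sb x W hWi j) := by exact_mod_cast h10
    have hmj0 : (0 : ℝ) < mj := by positivity
    have hmle : (mj : ℝ) ≤ m.sum := by exact_mod_cast hsum mj hmj
    have hjj : ((m.get j : ℕ) : ℝ) = mj := by rw [hj]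
    rw [hjj]
    -- n^2/(k^2 mj) ≤ sq - n^2/mj
    have h13 : (n : ℝ) ^ 2 / ((k : ℝ) ^ 2 * mj) ≤ sq (x j) - (n : ℝ) ^ 2 / mj := by
      have h14 : (sq (x j) : ℝ) = (n : ℝ) ^ 2 * sq (sb x W hWi j) / (k : ℝ) ^ 2 := by
        rw [h11]
        field_simp
      rw [h14]
      have h15 : (n : ℝ) ^ 2 * sq (sb x W hWi j) / (k : ℝ) ^ 2 - (n : ℝ) ^ 2 / mj -
          (n : ℝ) ^ 2 / ((k : ℝ) ^ 2 * mj) =
          (n : ℝ) ^ 2 * (mj * sq (sb x W hWi j) - (k : ℝ) ^ 2 - 1) / ((k : ℝ) ^ 2 * mj) := by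
        field_simp
      have h16 : 0 ≤ (n : ℝ) ^ 2 * (mj * sq (sb x W hWi j) - (k : ℝ) ^ 2 - 1) /
          ((k : ℝ) ^ 2 * mj) := by
        apply div_nonneg
        · apply mul_nonneg (by positivity)
          linarith
        · positivity
      linarith
    refine le_trans ?_ h13
    rw [div_mul_eq_mul_div, div_le_div_iff₀ (by positivity) (by positivity)]
    have h17 : ((sig m - 2) * k) ^ 2 ≤ 4 := by
      have h18 : 0 ≤ (sig m - 2) * k := by positivity
      nlinarith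
    calc (sig m - 2) ^ 2 * (n : ℝ) ^ 2 * ((k : ℝ) ^ 2 * mj)
        = ((sig m - 2) * k) ^ 2 * ((n : ℝ) ^ 2 * mj) := by ring
      _ ≤ 4 * ((n : ℝ) ^ 2 * m.sum) := by
          apply mul_le_mul h17 _ (by positivity) (by norm_num)
          exact mul_le_mul_of_nonneg_left hmle (by positivity)
      _ = (n : ℝ) ^ 2 * (4 * m.sum) := by ring
  · right
    push Not at hC
    obtain ⟨ζ, hζ⟩ := hC
    obtain ⟨W', h', hb', ht', hf⟩ := hHNF F V m.length x j mj (by omega) hmq hxj ζ W hWi (by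
      rw [mul_comm, mul_comm (ev (sb x W hWi j) ζ)]
      exact hζ)
    refine ⟨W', h', hb', ht', ?_⟩
    have hsub : Subsingleton (Hm (sb x W' h') (qt x W' h')) :=
      ⟨fun f g => Subtype.ext ((hf f).trans (hf g).symm)⟩
    have hc : (Nat.card (Hm (sb x W' h') (qt x W' h')) : ℝ) ≤ 1 := by
      exact_mod_cast Finite.card_le_one_iff_subsingleton.2 hsub
    refine hc.trans (Real.one_le_rpow hF1 ?_)
    positivity

end

end FL0
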