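import Pool.Agent.FL0.StR

/-!
# Tuples which induce given tuples on a subspace and on the quotient (module FIB)
-/

set_option autoImplicit false

namespace FL0

open RSF Polynomial

namespace FIBaux

variable {F V : Type} [Field F] [AddCommGroup V] [Module F V]

/-- a splitting -/
lemma exists_split (W : Submodule F V) : ∃ e : V ≃ₗ[F] (W × (V ⧸ W)),
    (∀ w : W, e w = (w, 0)) ∧ ∀ v : V, (e v).2 = Submodule.Quotient.mk v := by
  obtain ⟨s, hs⟩ := LinearMap.exists_rightInverse_of_surjective W.mkQ W.range_mkQ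
  have hs' : ∀ u, Submodule.Quotient.mk (s u) = u := fun u => LinearMap.congr_fun hs u
  have hmem : ∀ v : V, v - s (Submodule.Quotient.mk v) ∈ W := by
    intro v
    rw [← Submodule.Quotient.mk_eq_zero, Submodule.Quotient.mk_sub, hs', sub_self]
  let e : V ≃ₗ[F] (W × (V ⧸ W)) :=
    { toFun := fun v => (⟨v - s (Submodule.Quotient.mk v), hmem v⟩, Submodule.Quotient.mk v)
      map_add' := fun v v' => by
        refine Prod.ext (Subtype.ext ?_) rfl
        show v + v' - s (Submodule.Quotient.mk (v + v')) =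
          v - s (Submodule.Quotient.mk v) + (v' - s (Submodule.Quotient.mk v'))
        rw [Submodule.Quotient.mk_add, map_add]
        abel
      map_smul' := fun c v => by
        refine Prod.ext (Subtype.ext ?_) rfl
        show c • v - s (Submodule.Quotient.mk (c • v)) = c • (v - s (Submodule.Quotient.mk v))
        rw [Submodule.Quotient.mk_smul, map_smul, smul_sub]
      invFun := fun p => p.1 + s p.2
      left_inv := fun v => sub_add_cancel _ _
      right_inv := fun p => by
        have h1 : (Submodule.Quotient.mk ((p.1 : V) + s p.2) : V ⧸ W) = p.2 := by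
          rw [Submodule.Quotient.mk_add, (Submodule.Quotient.mk_eq_zero W).2 p.1.2, zero_add, hs']
        refine Prod.ext (Subtype.ext ?_) h1
        show (p.1 : V) + s p.2 - s (Submodule.Quotient.mk ((p.1 : V) + s p.2)) = p.1
        rw [h1, add_sub_cancel_right] }
  refine ⟨e, fun w => ?_, fun v => rfl⟩
  have h1 : (Submodule.Quotient.mk (w : V) : V ⧸ W) = 0 := (Submodule.Quotient.mk_eq_zero W).2 w.2
  refine Prod.ext (Subtype.ext ?_) h1
  show (w : V) - s (Submodule.Quotient.mk (w : V)) = w
  rw [h1, map_zero, sub_zero]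

/-- conjugation -/
def cj {U : Type} [AddCommGroup U] [Module F U] (e : V ≃ₗ[F] U) :
    Module.End F V →* Module.End F U where
  toFun f := e.toLinearMap ∘ₗ f ∘ₗ e.symm.toLinearMap
  map_one' := by
    ext x
    exact e.apply_symm_apply x
  map_mul' f g := by
    ext x
    show e (f (g (e.symm x))) = e (f (e.symm (e (g (e.symm x)))))
    rw [e.symm_apply_apply]

lemma cj_apply {U : Type} [AddCommGroup U] [Module F U] (e : V ≃ₗ[F] U) (f : Module.End F V)
    (x : U) : cj e f x = e (f (e.symm x)) := rfl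

lemma cj_inj {U : Type} [AddCommGroup U] [Module F U] (e : V ≃ₗ[F] U) :
    Function.Injective (cj e) := by
  intro f g h
  ext x
  have h1 := LinearMap.congr_fun h (e x)
  rw [cj_apply, cj_apply, e.symm_apply_apply] at h1
  exact e.injective h1

lemma cj_smul {U : Type} [AddCommGroup U] [Module F U] (e : V ≃ₗ[F] U) (z : F) :
    cj e (z • (1 : Module.End F V)) = z • (1 : Module.End F U) := by
  ext x
  show e (z • e.symm x) = z • x
  rw [map_smul, e.apply_symm_apply]

end FIBaux

open FIBaux in
theorem t_FIB : M_FIB := by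
  intro hZON F V _ _ _ _ _ m hm2 hmd z hz W a b ha hb
  have : Finite V := Module.finite_of_finite F
  have : Finite (V ⧸ W) := Module.finite_of_finite F
  obtain ⟨e, he1, he2⟩ := exists_split W
  have hfin : Finite (Fin m.length → ((V ⧸ W) →ₗ[F] W)) := by
    have h1 : Finite ((V ⧸ W) →ₗ[F] W) := Finite.of_injective
      (fun f : (V ⧸ W) →ₗ[F] W => (f : (V ⧸ W) → W)) DFunLike.coe_injective
    infer_instance
  refine le_trans (Nat.mul_le_mul_right _ ?_) (hZON F W (V ⧸ W) m hm2 hmd z hz a b ha hb)
  -- the blocks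
  let c : (Fin m.length → (V →ₗ[F] V)) → Fin m.length → ((V ⧸ W) →ₗ[F] W) := fun x j =>
    LinearMap.fst F W (V ⧸ W) ∘ₗ cj e (x j) ∘ₗ LinearMap.inr F W (V ⧸ W)
  have hc : ∀ x : Fin m.length → (V →ₗ[F] V), (∃ h : Inv x W, sb x W h = a ∧ qt x W h = b) →
      ∀ j, bk (a j) (c x j) (b j) = cj e (x j) := by
    rintro x ⟨h, rfl, rfl⟩ j
    refine LinearMap.ext fun p => ?_
    have hp : e.symm p = (p.1 : V) + e.symm (0, p.2) := by
      apply e.injective
      rw [e.apply_symm_apply, map_add, he1, e.apply_symm_apply]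
      exact Prod.ext (add_zero _).symm (zero_add _).symm
    have h1 : cj e (x j) p = e (x j p.1) + cj e (x j) (0, p.2) := by
      rw [cj_apply, cj_apply, hp, map_add, map_add]
    have h2 : e (x j p.1) = (sb x W h j p.1, 0) := he1 (sb x W h j p.1)
    have h3 : (cj e (x j) (0, p.2)).2 = qt x W h j p.2 := by
      have h4 : (Submodule.Quotient.mk (e.symm (0, p.2)) : V ⧸ W) = p.2 := by
        rw [← he2, e.apply_symm_apply]
      rw [cj_apply, he2]
      conv_rhs => rw [← h4]
      rfl
    rw [h1, h2]
    refine Prod.ext rfl ?_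
    show qt x W h j p.2 = 0 + (cj e (x j) (0, p.2)).2
    rw [h3, zero_add]
  refine Nat.card_le_card_of_injective (fun x => ⟨c x.1, fun j => ?_, ?_⟩) ?_
  · have h1 : bk (a j) (c x.1 j) (b j) ^ m.get j = cj e (x.1 j) ^ m.get j :=
      congrArg (fun f : Module.End F (W × (V ⧸ W)) => f ^ m.get j) (hc x.1 x.2.2.2 j)
    rw [h1, ← map_pow]
    have h2 : (x.1 j : Module.End F V) ^ m.get j = 1 := x.2.1 j
    rw [h2, map_one]
  · have h1 : (fun j => bk (a j) (c x.1 j) (b j)) = fun j => cj e (x.1 j) :=
      funext fun j => hc x.1 x.2.2.2 j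
    rw [h1]
    have h2 : (List.ofFn fun j => cj e (x.1 j)) = (List.ofFn x.1).map (cj e) := by
      rw [List.map_ofFn]
      rfl
    rw [h2, ← map_list_prod]
    have h3 := x.2.2.1
    rw [h3, cj_smul]
  · intro x y hxy
    have h1 : c x.1 = c y.1 := congrArg Subtype.val hxy
    refine Subtype.ext (funext fun j => ?_)
    apply cj_inj e
    rw [← hc x.1 x.2.2.2 j, ← hc y.1 y.2.2.2 j, h1]

end FL0
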