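import Pool.Agent.FL0.StG

/-!
# Module FII: homomorphisms with reducible image (helper91)
-/

set_option autoImplicit false

namespace FL0

open RSF Polynomial

noncomputable section

namespace FII

open Matrix

/-- scalars can be taken out of a product -/
theorem prod_ofFn {M N : Type} [Group M] [CommGroup N] (s : N →* M)
    (hs : ∀ x a, Commute (s x) a) (d : ℕ) (v : Fin d → N) (a : Fin d → M) :
    (List.ofFn fun j => s (v j) * a j).prod = s (List.ofFn v).prod * (List.ofFn a).prod := by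
  induction d with
  | zero => simp
  | succ d ih =>
    rw [List.ofFn_succ, List.ofFn_succ, List.ofFn_succ, List.prod_cons, List.prod_cons,
      List.prod_cons, ih, map_mul, mul_assoc, mul_assoc]
    congr 1
    rw [← mul_assoc, ← mul_assoc, (hs _ (a 0)).eq]

theorem comm_scalar {n : ℕ} {F : Type} [Field F] (u : Fˣ) (A : GL (Fin n) F) :
    Commute (GeneralLinearGroup.scalar (Fin n) u) A := by
  refine Units.ext ?_
  change Matrix.scalar (Fin n) u.1 * A.1 = A.1 * Matrix.scalar (Fin n) u.1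
  exact Matrix.scalar_commute _ (fun _ => Commute.all _ _) _

/-- the map which is shown to be injective -/
theorem count {n : ℕ} {F : Type} [Field F] [Finite F] (hn : 1 ≤ n) (m : List ℕ)
    (hm2 : ∀ k ∈ m, 2 ≤ k) (hROT : S_ROT) (hOrd : ∀ k ∈ m, Ord n F k) (b : ℝ)
    (hRED : ∀ z : F, z ≠ 0 →
      (Nat.card {t : Fin m.length → GL (Fin n) F // (∀ j, t j ^ m.get j = 1) ∧
        (List.ofFn fun j => (t j).1).prod = Matrix.scalar (Fin n) z ∧
        ∃ W : Submodule F (Fin n → F), W ≠ ⊥ ∧ W ≠ ⊤ ∧ ∀ j, ∀ w ∈ W, (t j).1.mulVec w ∈ W} : ℝ) ≤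
      b) :
    (Nat.card {A : Fin m.length → SL n F // (∀ j, A j ^ m.get j ∈ Subgroup.center (SL n F)) ∧
      (∃ W : Submodule F (Fin n → F), W ≠ ⊥ ∧ W ≠ ⊤ ∧ ∀ j, Pres (mk (A j)) W) ∧
      (List.ofFn A).prod ∈ Subgroup.center (SL n F)} : ℝ) ≤
    (Nat.card (Subgroup.center (SL n F)) : ℝ) ^ m.length * (Nat.card F * b) := by
  classical
  have : Nonempty (Fin n) := ⟨⟨0, hn⟩⟩
  -- roots of the central elements
  have hroot : ∀ (j : Fin m.length) (l : Subgroup.center (SL n F)), ∃ u : Fˣ,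
      GeneralLinearGroup.scalar (Fin n) u ^ m.get j = SpecialLinearGroup.toGL l.1 := by
    intro j l
    obtain ⟨μ, hμ, hμ2⟩ := Matrix.SpecialLinearGroup.mem_center_iff.1 l.2
    rw [Fintype.card_fin] at hμ
    have hk := hm2 _ (List.get_mem m j)
    obtain ⟨c, hc, hc2⟩ := hROT F n (m.get j) hn (by omega) (hOrd _ (List.get_mem m j)) μ hμ
    refine ⟨Units.mk0 c hc, ?_⟩
    rw [← map_pow]
    refine Units.ext ?_
    change Matrix.scalar (Fin n) ((Units.mk0 c hc) ^ m.get j : Fˣ).1 = l.1.1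
    rw [← hμ2, Units.val_pow_eq_pow_val, Units.val_mk0, hc2]
  choose u hu using hroot
  -- the target
  let T : Fˣ → Type := fun z => {t : Fin m.length → GL (Fin n) F // (∀ j, t j ^ m.get j = 1) ∧
        (List.ofFn fun j => (t j).1).prod = Matrix.scalar (Fin n) z.1 ∧
        ∃ W : Submodule F (Fin n → F), W ≠ ⊥ ∧ W ≠ ⊤ ∧ ∀ j, ∀ w ∈ W, (t j).1.mulVec w ∈ W}
  have hfin : ∀ z, Finite (T z) := fun z => inferInstance
  have := Fintype.ofFinite Fˣ
  -- the map
  have key : ∀ A : {A : Fin m.length → SL n F //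
      (∀ j, A j ^ m.get j ∈ Subgroup.center (SL n F)) ∧
      (∃ W : Submodule F (Fin n → F), W ≠ ⊥ ∧ W ≠ ⊤ ∧ ∀ j, Pres (mk (A j)) W) ∧
      (List.ofFn A).prod ∈ Subgroup.center (SL n F)},
      ∃ w : Σ z : Fˣ, T z, ∀ j, SpecialLinearGroup.toGL (A.1 j) =
        GeneralLinearGroup.scalar (Fin n) (u j ⟨A.1 j ^ m.get j, A.2.1 j⟩) * w.2.1 j := by
    rintro ⟨A, hA1, ⟨W, hW1, hW2, hW3⟩, hA3⟩
    obtain ⟨ν, hν, hν2⟩ := Matrix.SpecialLinearGroup.mem_center_iff.1 hA3
    have hν0 : ν ≠ 0 := by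
      rintro rfl
      rw [Fintype.card_fin, zero_pow (by omega)] at hν
      exact zero_ne_one hν
    let v : Fin m.length → Fˣ := fun j => (u j ⟨A j ^ m.get j, hA1 j⟩)⁻¹
    let y : Fin m.length → GL (Fin n) F := fun j =>
      GeneralLinearGroup.scalar (Fin n) (v j) * SpecialLinearGroup.toGL (A j)
    have hy1 : ∀ j, y j ^ m.get j = 1 := by
      intro j
      change (GeneralLinearGroup.scalar (Fin n) (v j) * SpecialLinearGroup.toGL (A j)) ^ _ = 1
      rw [(comm_scalar (v j) (SpecialLinearGroup.toGL (A j))).mul_pow, ← map_pow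
        SpecialLinearGroup.toGL]
      change (GeneralLinearGroup.scalar (Fin n) (u j ⟨A j ^ m.get j, hA1 j⟩)⁻¹) ^ m.get j *
        SpecialLinearGroup.toGL (A j ^ m.get j) = 1
      rw [map_inv, inv_pow, hu j ⟨A j ^ m.get j, hA1 j⟩, inv_mul_cancel]
    have hy2 : (List.ofFn y).prod =
        GeneralLinearGroup.scalar (Fin n) ((List.ofFn v).prod * Units.mk0 ν hν0) := by
      have h1 := prod_ofFn (GeneralLinearGroup.scalar (Fin n) (R := F)) comm_scalar m.length v
        (fun j => SpecialLinearGroup.toGL (A j))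
      have h2 : (List.ofFn fun j => SpecialLinearGroup.toGL (A j)).prod =
          GeneralLinearGroup.scalar (Fin n) (Units.mk0 ν hν0) := by
        have h3 : (List.ofFn fun j => SpecialLinearGroup.toGL (A j)) =
            (List.ofFn A).map SpecialLinearGroup.toGL := by
          rw [List.map_ofFn]
          rfl
        rw [h3, ← map_list_prod]
        refine Units.ext ?_
        change ((List.ofFn A).prod).1 = Matrix.scalar (Fin n) ν
        exact hν2.symm
      rw [map_mul, ← h2, ← h1]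
    have hy3 : (List.ofFn fun j => (y j).1).prod =
        Matrix.scalar (Fin n) ((List.ofFn v).prod * Units.mk0 ν hν0 : Fˣ).1 := by
      have h3 : (List.ofFn fun j => (y j).1) =
          (List.ofFn y).map (Units.coeHom (Matrix (Fin n) (Fin n) F)) := by
        rw [List.map_ofFn]
        rfl
      rw [h3, ← map_list_prod, hy2]
      rfl
    refine ⟨⟨(List.ofFn v).prod * Units.mk0 ν hν0, ⟨y, hy1, hy3, W, hW1, hW2, ?_⟩⟩, ?_⟩
    · intro j w hw
      have h4 : (y j).1 = Matrix.scalar (Fin n) (v j).1 * (A j).1 := rfl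
      have h5 := hW3 j (A j) rfl w hw
      rw [h4, ← Matrix.mulVec_mulVec]
      have h6 : (Matrix.scalar (Fin n) (v j).1).mulVec ((A j).1.mulVec w) =
          (v j).1 • ((A j).1.mulVec w) := by
        rw [Matrix.scalar_apply, Matrix.diagonal_const_mulVec]
      rw [h6]
      exact W.smul_mem _ h5
    · intro j
      change SpecialLinearGroup.toGL (A j) =
        GeneralLinearGroup.scalar (Fin n) (u j ⟨A j ^ m.get j, hA1 j⟩) *
          (GeneralLinearGroup.scalar (Fin n) (u j ⟨A j ^ m.get j, hA1 j⟩)⁻¹ *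
            SpecialLinearGroup.toGL (A j))
      rw [← mul_assoc, ← map_mul, mul_inv_cancel, map_one, one_mul]
  choose w hw using key
  have h1 : Nat.card {A : Fin m.length → SL n F //
      (∀ j, A j ^ m.get j ∈ Subgroup.center (SL n F)) ∧
      (∃ W : Submodule F (Fin n → F), W ≠ ⊥ ∧ W ≠ ⊤ ∧ ∀ j, Pres (mk (A j)) W) ∧
      (List.ofFn A).prod ∈ Subgroup.center (SL n F)} ≤
      Nat.card ((Fin m.length → Subgroup.center (SL n F)) × Σ z : Fˣ, T z) := by
    refine Nat.card_le_card_of_injective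
      (fun A => (fun j => ⟨A.1 j ^ m.get j, A.2.1 j⟩, w A)) ?_
    intro A B hAB
    rw [Prod.mk.injEq] at hAB
    obtain ⟨h2, h3⟩ := hAB
    refine Subtype.ext (funext fun j => ?_)
    have h4 := congrFun h2 j
    apply SpecialLinearGroup.toGL_injective
    rw [hw A j, hw B j, h3, h4]
  have h2 : (Nat.card (Σ z : Fˣ, T z) : ℝ) ≤ Nat.card F * b := by
    rw [Nat.card_sigma]
    push_cast
    have h3 : ∑ z : Fˣ, (Nat.card (T z) : ℝ) ≤ ∑ _z : Fˣ, b :=
      Finset.sum_le_sum fun z _ => hRED z.1 z.ne_zero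
    refine h3.trans ?_
    have hb : 0 ≤ b := (Nat.cast_nonneg _).trans (hRED 1 one_ne_zero)
    rw [Finset.sum_const, nsmul_eq_mul, Finset.card_univ, ← Nat.card_eq_fintype_card]
    have h4 : Nat.card Fˣ ≤ Nat.card F :=
      Nat.card_le_card_of_injective (fun z : Fˣ => z.1) Units.val_injective
    exact mul_le_mul_of_nonneg_right (by exact_mod_cast h4) hb
  rw [Nat.card_prod, Nat.card_fun, Nat.card_fin] at h1
  calc _ ≤ ((Nat.card (Subgroup.center (SL n F)) ^ m.length * Nat.card (Σ z : Fˣ, T z) : ℕ) : ℝ) :=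
        by exact_mod_cast h1
    _ = (Nat.card (Subgroup.center (SL n F)) : ℝ) ^ m.length * (Nat.card (Σ z : Fˣ, T z) : ℝ) := by
        push_cast
        rfl
    _ ≤ _ := mul_le_mul_of_nonneg_left h2 (by positivity)

end FII

open FII in
theorem t_FII : M_FII := by
  intro hRED hLFH hROT hLOW hPOL m hm2 hsig
  obtain ⟨C1, r1, hC1, hred⟩ := hRED m hm2 hsig
  obtain ⟨C2, r2, hC2, hlow⟩ := hLOW m hm2 hsig
  have hc : 0 < (sig m - 2) / 2 := by linarith
  obtain ⟨r3, hpol⟩ := hPOL ((sig m - 2) / 2) (C1 + C2 + 1) hc (by linarith)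
  refine ⟨(sig m - 2) / 2 / 2, max (max r1 r2) (max r3 1), by linarith, ?_⟩
  intro n hn F _ _ hdvd hOrd
  have hn1 : r1 ≤ n := by omega
  have hn2 : r2 ≤ n := by omega
  have hn3 : r3 ≤ n := by omega
  have hn4 : 1 ≤ n := by omega
  set q : ℝ := (Nat.card F : ℝ) with hq
  have hq2 : 2 ≤ q := by
    rw [hq]
    exact_mod_cast (Finite.one_lt_card : 1 < Nat.card F)
  have hq0 : 0 < q := by linarith
  have hl := hlow n hn2 F hdvd hOrd
  have hp := hpol n hn3 q hq2
  set b : ℝ := ((n : ℝ) + 1) ^ C1 * q ^ ((sig m - 1) * (n : ℝ) ^ 2 + C1 - (sig m - 2) / 2 * n)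
    with hb
  have hcount := count (F := F) hn4 m hm2 hROT hOrd b (fun z hz => hred n hn1 F hdvd z hz)
  have hlift := (hLFH n F).2 m (fun t => ∃ W : Submodule F (Fin n → F), W ≠ ⊥ ∧ W ≠ ⊤ ∧
    ∀ j, Pres (t j) W)
  have hg : 0 < Nat.card (Subgroup.center (SL n F)) := Nat.card_pos
  have hE : (Nat.card {ρ : OGroup 0 m →* PS n F // ∃ W : Submodule F (Fin n → F), W ≠ ⊥ ∧ W ≠ ⊤ ∧
      ∀ j, Pres (ρ (ox 0 m j)) W} : ℝ) ≤ q * b := by
    have h1 : (Nat.card (Subgroup.center (SL n F)) : ℝ) ^ m.length *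
        (Nat.card {ρ : OGroup 0 m →* PS n F // ∃ W : Submodule F (Fin n → F), W ≠ ⊥ ∧ W ≠ ⊤ ∧
          ∀ j, Pres (ρ (ox 0 m j)) W} : ℝ) ≤
        (Nat.card (Subgroup.center (SL n F)) : ℝ) ^ m.length * (q * b) := by
      refine le_trans (le_of_eq ?_) hcount
      exact_mod_cast hlift.symm
    exact le_of_mul_le_mul_left h1 (by positivity)
  have hfin : Finite (OGroup 0 m →* PS n F) := by
    have h0 : (0 : ℝ) < hN n F m := lt_of_lt_of_le (Real.rpow_pos_of_pos hq0 _) hl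
    have h1 : hN n F m ≠ 0 := by
      intro h
      rw [h] at h0
      simp at h0
    exact Nat.finite_of_card_ne_zero h1
  have hI : Nat.card {ρ : OGroup 0 m →* PS n F // ¬ Irr ρ.range} ≤
      Nat.card {ρ : OGroup 0 m →* PS n F // ∃ W : Submodule F (Fin n → F), W ≠ ⊥ ∧ W ≠ ⊤ ∧
      ∀ j, Pres (ρ (ox 0 m j)) W} := by
    refine Nat.card_le_card_of_injective (fun ρ => ⟨ρ.1, ?_⟩) ?_
    · have h := ρ.2
      unfold Irr at h
      push Not at h
      obtain ⟨W, h1, h2, h3⟩ := h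
      exact ⟨W, h2, h3, fun j => h1 _ ⟨_, rfl⟩⟩
    · intro ρ τ h
      have h' := congrArg Subtype.val h
      exact Subtype.ext h'
  have hN0 : (0 : ℝ) ≤ hN n F m := Nat.cast_nonneg _
  unfold prob
  refine div_le_of_le_mul₀ hN0 (Real.rpow_nonneg hq0.le _) ?_
  have hX : (0 : ℝ) ≤ q ^ (-((sig m - 2) / 2 / 2) * (n : ℝ)) := Real.rpow_nonneg hq0.le _
  have hn0 : (1 : ℝ) ≤ (n : ℝ) + 1 := by
    have : (0 : ℝ) ≤ n := Nat.cast_nonneg n
    linarith
  calc (Nat.card {ρ : OGroup 0 m →* PS n F // ¬ Irr ρ.range} : ℝ) ≤ q * b :=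
        le_trans (by exact_mod_cast hI) hE
    _ ≤ (((n : ℝ) + 1) ^ (C1 + C2 + 1) * q ^ (C1 + C2 + 1 - (sig m - 2) / 2 * (n : ℝ))) *
          q ^ ((sig m - 1) * (n : ℝ) ^ 2 - C2) := by
        rw [hb]
        have e1 : q ^ (C1 + C2 + 1 - (sig m - 2) / 2 * (n : ℝ)) *
            q ^ ((sig m - 1) * (n : ℝ) ^ 2 - C2) =
            q * q ^ ((sig m - 1) * (n : ℝ) ^ 2 + C1 - (sig m - 2) / 2 * n) := by
          nth_rewrite 3 [← Real.rpow_one q]
          rw [← Real.rpow_add hq0, ← Real.rpow_add hq0]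
          congr 1
          ring
        rw [mul_assoc, e1]
        have e2 : ((n : ℝ) + 1) ^ C1 ≤ ((n : ℝ) + 1) ^ (C1 + C2 + 1) :=
          Real.rpow_le_rpow_of_exponent_le hn0 (by linarith)
        have e3 : 0 ≤ q * q ^ ((sig m - 1) * (n : ℝ) ^ 2 + C1 - (sig m - 2) / 2 * n) := by
          positivity
        have e4 := mul_le_mul_of_nonneg_right e2 e3
        linarith
    _ ≤ q ^ (-((sig m - 2) / 2 / 2) * (n : ℝ)) * q ^ ((sig m - 1) * (n : ℝ) ^ 2 - C2) :=
        mul_le_mul_of_nonneg_right hp (Real.rpow_nonneg hq0.le _)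
    _ ≤ _ := mul_le_mul_of_nonneg_left hl hX

end

end FL0
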