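import Pool.Agent.FL0.Defs

/-!
# Random homomorphisms of oriented genus 0 to `PSL_n(q)`: the group side (architect helper4)

`S_X` is the statement of module `X`; the module proves `theorem t_X : M_X` (or `t_X : S_X` if there is
no `M_X`) in `Pool/Agent/FL0/X.lean`, namespace `FL0`, importing this file. The statements
`S_PI`, `S_PJ`, `S_JL`, `S_GH` are proved in `Pool/Agent/RSF` (`Fin1.lean`, `Fin4.lean`: `f_PJ`, `f_JL`, `f_GH`,
`t_SM`); the files of `Pool/Agent/RSF` may be imported. `d = m.length`, `σ = sig m`, `q = Nat.card F`.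
-/

namespace FL0

open RSF Polynomial

noncomputable section

/-! ## Statements of part A (helper73) that are used here -/

/-- Frobenius formula with the sharp character bound. -/
def S_FRO : Prop :=
  ∀ m : List ℕ, (∀ k ∈ m, 2 ≤ k) → 2 < sig m → ∃ (c : ℝ) (r : ℕ), 0 < c ∧ ∀ n, r ≤ n →
    ∀ (F : Type) [Field F] [Finite F], (∀ k ∈ m, k ∣ Nat.card F - 1) → ∀ z : F, z ≠ 0 →
    ∀ y : Fin m.length → GL (Fin n) F, (∀ j, y j ^ m.get j = 1) →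
      ∏ j, (y j).1.det = z ^ n →
      |(Nat.card {t : Fin m.length → GL (Fin n) F // (∀ j, IsConj (y j) (t j)) ∧
          (List.ofFn fun j => (t j).1).prod = Matrix.scalar (Fin n) z} : ℝ) * Nat.card (SL n F) -
        ∏ j, (Nat.card {t : GL (Fin n) F // IsConj (y j) t} : ℝ)| ≤
      (∏ j, (Nat.card {t : GL (Fin n) F // IsConj (y j) t} : ℝ)) *
        (Nat.card F : ℝ) ^ ((∑ j, del (m.get j) (y j).1) / 2 - c * n)

/-- Tuples with a common invariant subspace. -/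
def S_RED : Prop :=
  ∀ m : List ℕ, (∀ k ∈ m, 2 ≤ k) → 2 < sig m → ∃ (C : ℝ) (r : ℕ), 0 ≤ C ∧ ∀ n, r ≤ n →
    ∀ (F : Type) [Field F] [Finite F], (∀ k ∈ m, k ∣ Nat.card F - 1) → ∀ z : F, z ≠ 0 →
      (Nat.card {t : Fin m.length → GL (Fin n) F // (∀ j, t j ^ m.get j = 1) ∧
        (List.ofFn fun j => (t j).1).prod = Matrix.scalar (Fin n) z ∧
        ∃ W : Submodule F (Fin n → F), W ≠ ⊥ ∧ W ≠ ⊤ ∧ ∀ j, ∀ w ∈ W, (t j).1.mulVec w ∈ W} : ℝ) ≤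
      ((n : ℝ) + 1) ^ C * (Nat.card F : ℝ) ^
        ((sig m - 1) * (n : ℝ) ^ 2 + C - (sig m - 2) / 2 * n)

/-! ## Homomorphisms and lifts -/

/-- As `S_HO` (`Pool/Agent/RSF/H.lean`): `PresentedGroup.toGroup`, `PresentedGroup.ext`. -/
def S_HO0 : Prop :=
  ∀ (G : Type) [Group G] (m : List ℕ) (E : (Fin m.length → G) → Prop),
    Nat.card {ρ : OGroup 0 m →* G // E fun j => ρ (ox 0 m j)} =
      Nat.card {t : Fin m.length → G // (∀ j, t j ^ m.get j = 1) ∧ E t ∧ (List.ofFn t).prod = 1}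

/-- The fibres of `SL_n → PSL_n` have the order of the centre. -/
def S_LFT : Prop :=
  ∀ (n : ℕ) (F : Type) [Field F] [Finite F] (d : ℕ) (E : (Fin d → PS n F) → Prop),
    Nat.card {A : Fin d → SL n F // E fun j => mk (A j)} =
      Nat.card (Subgroup.center (SL n F)) ^ d * Nat.card {t : Fin d → PS n F // E t}

/-- `S_LFT` for `d = 1` and for the tuples of `S_HO0`; `mk A ^ k = 1` iff `A ^ k` is in the centre. -/
def S_LFH : Prop :=
  ∀ (n : ℕ) (F : Type) [Field F] [Finite F],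
    (∀ k : ℕ, Nat.card (CA n F k) = Nat.card (Subgroup.center (SL n F)) * jn (PS n F) k) ∧
    ∀ (m : List ℕ) (E : (Fin m.length → PS n F) → Prop),
      Nat.card {A : Fin m.length → SL n F // (∀ j, A j ^ m.get j ∈ Subgroup.center (SL n F)) ∧
          E (fun j => mk (A j)) ∧ (List.ofFn A).prod ∈ Subgroup.center (SL n F)} =
        Nat.card (Subgroup.center (SL n F)) ^ m.length *
          Nat.card {ρ : OGroup 0 m →* PS n F // E fun j => ρ (ox 0 m j)}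

def M_LFH : Prop := S_HO0 → S_LFT → S_LFH

/-- `F^*` is cyclic of order `q - 1`. Let `g = (n, q - 1)`; `μ ^ n = 1` and `μ ^ (q - 1) = 1` give `μ ^ g = 1`. For a
generator `w`, `μ = w ^ a` with `(q - 1) ∣ a g`, so `(q - 1) / g ∣ a`, and `k ∣ (q - 1) / g`: `μ = (w ^ (a / k)) ^ k`. -/
def S_ROT : Prop :=
  ∀ (F : Type) [Field F] [Finite F] (n k : ℕ), 1 ≤ n → 1 ≤ k → Ord n F k →
    ∀ μ : F, μ ^ n = 1 → ∃ c : F, c ≠ 0 ∧ c ^ k = μ

/-! ## Split semisimple elements -/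

/-- `k ∣ q - 1`, `x ^ k = 1`: `x` is diagonalizable over `F`. `X ^ k - 1` is the product of the `X - ζ`, `ζ ^ k = 1`,
with `k` different `ζ` (`F^*` is cyclic of order `q - 1`), so the space is the direct sum of the eigenspaces. -/
def S_DIA : Prop :=
  ∀ (F V : Type) [Field F] [Finite F] [AddCommGroup V] [Module F V] [FiniteDimensional F V]
    (k : ℕ), 1 ≤ k → k ∣ Nat.card F - 1 → ∀ x : V →ₗ[F] V, x ^ k = 1 →
    ∃ (b : Module.Basis (Fin (Module.finrank F V)) F V) (l : Fin (Module.finrank F V) → F),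
      (∀ i, x (b i) = l i • b i) ∧ (∀ i, l i ^ k = 1) ∧
      ∀ ζ : F, ev x ζ = Nat.card {i // l i = ζ}

/-- Consequences. (1) Two functions `l`, `l'` with fibres of equal cardinality differ by a
permutation; `g (b i) = b' (π i)`. (2) `∑ ζ, ev x ζ = dim V`, at most `k` values of `ζ`; Cauchy-Schwarz. (3) eigenvalues
are roots of unity. (4) a function `F → ℕ` with support in the at most `k` roots of unity and values
`≤ dim V`. (5) the eigenspaces of `c • x`. -/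
def S_EVS : Prop :=
  ∀ (F V : Type) [Field F] [Finite F] [AddCommGroup V] [Module F V] [FiniteDimensional F V]
    (k : ℕ), 1 ≤ k → k ∣ Nat.card F - 1 →
    (∀ x y : GV F V, x ^ k = 1 → y ^ k = 1 → (∀ ζ, ev (x : V →ₗ[F] V) ζ = ev (y : V →ₗ[F] V) ζ) →
      IsConj x y) ∧
    (∀ x : V →ₗ[F] V, x ^ k = 1 → (Module.finrank F V : ℝ) ^ 2 / k ≤ sq x) ∧
    (∀ x : V →ₗ[F] V, x ^ k = 1 → ∀ ζ, ζ ^ k ≠ 1 → ev x ζ = 0) ∧
    ({β : F → ℕ | ∃ x : V →ₗ[F] V, x ^ k = 1 ∧ ∀ ζ, ev x ζ = β ζ}.ncard ≤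
      (Module.finrank F V + 1) ^ k) ∧
    ∀ (x : V →ₗ[F] V) (c : F), c ≠ 0 → sq (c • x) = sq x

def M_EVS : Prop := S_DIA → S_EVS

/-- The class of `y`, `y ^ k = 1`: `|GL_n|` divided by the order of the centraliser, and the centraliser contains the
product of the general linear groups of the eigenspaces (in the basis of S_DIA), `|GL_a| ≥ q ^ (a^2) / 4` (S_PI,
`LG.card_GL_ge`), `|GL_n| ≤ q ^ (n^2)`. At most `k` eigenspaces. -/
def S_CLS : Prop :=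
  ∀ (F : Type) [Field F] [Finite F] (n k : ℕ), 1 ≤ k → k ∣ Nat.card F - 1 →
    ∀ y : GL (Fin n) F, y ^ k = 1 →
      (Nat.card {t : GL (Fin n) F // IsConj y t} : ℝ) ≤
        4 ^ k * (Nat.card F : ℝ) ^ ((n : ℝ) ^ 2 - sq (lm y.1))

def M_CLS : Prop := S_PI → S_DIA → S_CLS

/-- Upper bound for given multiplicities, all dimensions `l`. Transport to `Fin l → F`, `GL (Fin l) F` by a basis. If there is
such a tuple `y` then all are in the classes of the `y j` (S_EVS 1), `∏ det y j = z ^ l`, and for `l ≥ r` by S_FRO the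
number is at most `2 q^(∑ δ_j / 2) ∏ |C_j| / |SL_l|` (`- c l ≤ 0`, `∑ δ_j ≥ 0`), `|SL_l| ≥ q ^ (l^2 - 1) / 4`, S_CLS. For `l < r`:
at most `∏ |C_j|`. -/
def S_UPB : Prop :=
  ∀ m : List ℕ, (∀ k ∈ m, 2 ≤ k) → 2 < sig m → ∃ C : ℝ, 0 ≤ C ∧
    ∀ (F V : Type) [Field F] [Finite F] [AddCommGroup V] [Module F V] [FiniteDimensional F V],
    (∀ k ∈ m, k ∣ Nat.card F - 1) → ∀ z : F, z ≠ 0 → ∀ β : Fin m.length → F → ℕ,
      (Nat.card {t : Fin m.length → (V →ₗ[F] V) // (∀ j, t j ^ m.get j = 1) ∧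
        (∀ j ζ, ev (t j) ζ = β j ζ) ∧ (List.ofFn t).prod = z • 1} : ℝ) ≤
      (Nat.card F : ℝ) ^ (C + ((m.length + sig m) / 2 - 1) * (Module.finrank F V : ℝ) ^ 2 -
        (∑ j, ∑ᶠ ζ : F, (β j ζ : ℝ) ^ 2) / 2)

def M_UPB : Prop := S_PI → S_FRO → S_EVS → S_CLS → S_UPB

/-! ## The number of homomorphisms -/

/-- The sum of the `q ^ (δ / 2)` over the elements of `SL_n` with central `k`-th power. Let `A ^ k = λ`, `λ ^ n = 1`,
`λ = c ^ k` with `c = c(λ)` fixed (S_ROT), `A = c y`, `y ^ k = 1`. So the sum is at most `g` (the number of `λ`, `g ≤ q`) times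
the sum of the `q ^ (δ(y) / 2)` over the `y ∈ GL_n`, `y ^ k = 1`, i.e. over the at most `(n+1)^k` classes (S_EVS 4, 1)
of `4^k q^(n^2 - sq + (sq - n^2/k)/2) ≤ 4^k q^(n^2 (1 - 1/k))` (S_CLS, S_EVS 2). And `|CA n F k| ≥ |{A ^ k = 1}| ≥
|GL_n| q^(-n^2/k - 4k^2) ≥ q^(n^2 (1 - 1/k) - 4 k^2) / 4` (S_JL). -/
def S_ABS : Prop :=
  ∀ k : ℕ, 1 ≤ k → ∃ C : ℝ, 0 ≤ C ∧ ∀ n, 1 ≤ n → ∀ (F : Type) [Field F] [Finite F],
    k ∣ Nat.card F - 1 → Ord n F k →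
      ∑ᶠ A : CA n F k, (Nat.card F : ℝ) ^ (del k A.1.1 / 2) ≤
        ((n : ℝ) + 1) ^ k * (Nat.card F : ℝ) ^ C * Nat.card (CA n F k)

def M_ABS : Prop := S_PI → S_JL → S_ROT → S_EVS → S_CLS → S_ABS

/-- The tuples `A j ∈ CA n F (m_j)` with product `s ∈ Z(SL_n)`. They are the disjoint union over the tuples of
`GL_n`-classes `C_j ⊆ CA n F (m_j)` (identify `SL_n` with its image in `GL_n`; `CA` is invariant under conjugation by
`GL_n`). For `A j = c_j y j`, `y j ^ m_j = 1` (S_ROT) the tuples `t j ∈ C_j` with product `s` correspond to the tuples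
in the classes of the `y j` with product `z = s / ∏ c_j` (a scalar), `∏ det y j = ∏ c_j ^ (- n) = z ^ n`, `|C_j|` is
the order of the class of `y j`, `δ` does not change (S_EVS 5): S_FRO. The right hand side of S_FRO is the sum of
`∏ q^(δ(A_j) / 2) q^(- c n)` over the tuples in `∏ C_j`. Sum over all tuples of classes. -/
def S_SMC : Prop :=
  ∀ m : List ℕ, (∀ k ∈ m, 2 ≤ k) → 2 < sig m → ∃ (c : ℝ) (r : ℕ), 0 < c ∧ 1 ≤ r ∧ ∀ n, r ≤ n →
    ∀ (F : Type) [Field F] [Finite F], (∀ k ∈ m, k ∣ Nat.card F - 1) → (∀ k ∈ m, Ord n F k) →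
    ∀ s ∈ Subgroup.center (SL n F),
      |(Nat.card {A : Fin m.length → SL n F //
          (∀ j, A j ^ m.get j ∈ Subgroup.center (SL n F)) ∧ (List.ofFn A).prod = s} : ℝ) *
          Nat.card (SL n F) - ∏ j, (Nat.card (CA n F (m.get j)) : ℝ)| ≤
        (∏ j, ∑ᶠ A : CA n F (m.get j), (Nat.card F : ℝ) ^ (del (m.get j) A.1.1 / 2)) *
          (Nat.card F : ℝ) ^ (-c * (n : ℝ))

def M_SMC : Prop := S_FRO → S_ROT → S_EVS → S_SMC

/-- Absorption of polynomial factors: `(n+1)^C ≤ q^(c n / 4) ≤ ...` for `n ≥ r`, `q ≥ 2`. -/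
def S_POL : Prop :=
  ∀ (c C : ℝ), 0 < c → 0 ≤ C → ∃ r : ℕ, ∀ n : ℕ, r ≤ n → ∀ q : ℝ, 2 ≤ q →
    ((n : ℝ) + 1) ^ C * q ^ (C - c * (n : ℝ)) ≤ q ^ (-(c / 2) * (n : ℝ))

/-- (i). Let `Z` be the centre of `SL_n`, `g = |Z|`, `N = ∑_(s ∈ Z)` (number of tuples in S_SMC) `= g^d hN` (S_LFH with
`E = True`), `|CA n F k| = g jn k`, `|SL_n| = g |PSL_n|` (`JL.card_PS_mul` or similar). So `|hN |PSL_n| / ∏ jn - 1| =
|N |SL_n| / (g ∏ |CA|) - 1| ≤ (∏_j (n+1)^(m_j) q^(C_j)) q^(-c n)` (S_SMC, S_ABS), S_POL. (`jn > 0`.) -/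
def S_CNT0 : Prop :=
  ∀ m : List ℕ, (∀ k ∈ m, 2 ≤ k) → 2 < sig m → ∃ (c : ℝ) (r : ℕ), 0 < c ∧ 1 ≤ r ∧ ∀ n, r ≤ n →
    ∀ (F : Type) [Field F] [Finite F], (∀ k ∈ m, k ∣ Nat.card F - 1) → (∀ k ∈ m, Ord n F k) →
      |(hN n F m : ℝ) * Nat.card (PS n F) / JJ (PS n F) m - 1| ≤
        (Nat.card F : ℝ) ^ (-c * (n : ℝ))

def M_CNT0 : Prop := S_LFH → S_SMC → S_ABS → S_POL → S_CNT0

/-- Lower bound: `hN ≥ (1/2) ∏ jn / |PSL_n| ≥ (1/2) |PSL_n|^(d-1) q^(∑ (- n^2/m_j - 4 m_j^2))` (S_PJ), `|PSL_n| ≥ q^(n^2-2) / 4`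
(`LG.card_PS_ge`), `d - 1 - ∑ 1/m_j = σ - 1`. -/
def S_LOW : Prop :=
  ∀ m : List ℕ, (∀ k ∈ m, 2 ≤ k) → 2 < sig m → ∃ (C : ℝ) (r : ℕ), 0 ≤ C ∧ ∀ n, r ≤ n →
    ∀ (F : Type) [Field F] [Finite F], (∀ k ∈ m, k ∣ Nat.card F - 1) → (∀ k ∈ m, Ord n F k) →
      (Nat.card F : ℝ) ^ ((sig m - 1) * (n : ℝ) ^ 2 - C) ≤ hN n F m

def M_LOW : Prop := S_PI → S_PJ → S_CNT0 → S_LOW

/-! ## Irreducibility and subgroups -/

/-- (ii). If `ρ` has a reducible image then all the `ρ x_j` preserve some `W ≠ ⊥, ⊤`. S_LFH with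
`E t = (∃ W ≠ ⊥, ⊤, all Pres (t j) W)`: `g^d` times the number of these `ρ` is at most the number of the `A j ∈ SL_n` with
`A j ^ m_j = λ_j` scalar, product scalar, all preserving `W`. For given `(λ_j)` (at most `g^d` possibilities) `A j = c_j y j`
(S_ROT): the `y j` are counted by S_RED for one of the `q - 1` scalars `z`. So the number is at most `q (n+1)^C
q^((σ-1) n^2 + C - (σ-2) n / 2)`. Divide by S_LOW, S_POL. -/
def S_FII : Prop :=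
  ∀ m : List ℕ, (∀ k ∈ m, 2 ≤ k) → 2 < sig m → ∃ (c : ℝ) (r : ℕ), 0 < c ∧ ∀ n, r ≤ n →
    ∀ (F : Type) [Field F] [Finite F], (∀ k ∈ m, k ∣ Nat.card F - 1) → (∀ k ∈ m, Ord n F k) →
      prob (OGroup 0 m) (PS n F) (fun ρ => ¬ Irr ρ.range) ≤ (Nat.card F : ℝ) ^ (-c * (n : ℝ))

def M_FII : Prop := S_RED → S_LFH → S_ROT → S_LOW → S_POL → S_FII

/-- (iii). `InConj ρ.range M`: for one of the at most `M.index` conjugates `M'` of `M` all `ρ x_j` are in `M'`: at most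
`|M|^(d-1)` tuples with product `1` each (the last is determined by the others; `d ≥ 1`). In total at most
`|S| |G|^(d-1) q^(-θ (d-2) n^2)`, `|G| ≤ q^(n^2)` (`LG` or `KP.card_GL_le`), and `(d-1) - θ (d-2) < σ - 1`. Divide by
S_LOW: `q^(η n^2 - 3 η n^2 + C) ≤ q^(-n)` for `3 η = θ (d-2) - (d - σ)`, `n ≥ r`. -/
def S_FIII : Prop :=
  ∀ m : List ℕ, (∀ k ∈ m, 2 ≤ k) → 2 < sig m → ∀ θ : ℝ, (m.length - sig m) < θ * (m.length - 2) →
    ∃ (η : ℝ) (r : ℕ), 0 < η ∧ ∀ n, r ≤ n →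
    ∀ (F : Type) [Field F] [Finite F], (∀ k ∈ m, k ∣ Nat.card F - 1) → (∀ k ∈ m, Ord n F k) →
    ∀ S : Set (Subgroup (PS n F)), (S.ncard : ℝ) ≤ (Nat.card F : ℝ) ^ (η * (n : ℝ) ^ 2) →
      (∀ M ∈ S, (Nat.card F : ℝ) ^ (θ * (n : ℝ) ^ 2) ≤ M.index) →
      prob (OGroup 0 m) (PS n F) (fun ρ => ∃ M ∈ S, InConj ρ.range M) ≤
        (Nat.card F : ℝ) ^ (-(n : ℝ))

def M_FIII : Prop := S_HO0 → S_LOW → S_FIII

/-- The theorem. -/
def Main : Prop :=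
  ∀ m : List ℕ, (∀ k ∈ m, 2 ≤ k) → 2 < sig m → ∀ θ : ℝ, (m.length - sig m) < θ * (m.length - 2) →
    ∃ (c : ℝ) (r : ℕ), 0 < c ∧ ∀ n, r ≤ n →
    ∀ (F : Type) [Field F] [Finite F], (∀ k ∈ m, k * Nat.gcd n (Nat.card F - 1) ∣ Nat.card F - 1) →
      |(Nat.card (OGroup 0 m →* PS n F) : ℝ) * Nat.card (PS n F) /
          (m.map fun k => (Nat.card {t : PS n F // t ^ k = 1} : ℝ)).prod - 1| ≤
        (Nat.card F : ℝ) ^ (-c * (n : ℝ)) ∧
      ∀ S : Set (Subgroup (PS n F)), (S.ncard : ℝ) ≤ (Nat.card F : ℝ) ^ (c * (n : ℝ) ^ 2) →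
        (∀ M ∈ S, (Nat.card F : ℝ) ^ (θ * (n : ℝ) ^ 2) ≤ M.index) →
        1 - (Nat.card F : ℝ) ^ (-c * (n : ℝ)) ≤ prob (OGroup 0 m) (PS n F)
          (fun ρ => Irr ρ.range ∧ ∀ M ∈ S, ¬ InConj ρ.range M)

/-- Sum of the two probabilities; `Ord n F k` implies `k ∣ q - 1`. -/
def M_Main : Prop := S_CNT0 → S_FII → S_FIII → Main

end

end FL0
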