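import Pool.Agent.FL0.StG

/-!
# Module `LFT`: the fibres of `SL_n → PSL_n`
-/

set_option autoImplicit false

open RSF

namespace FL0

namespace LFT

variable {G : Type} [Group G] (Z : Subgroup G)

/-- a group is the product of the quotient and the subgroup -/
noncomputable def eqv : G ≃ (G ⧸ Z) × Z where
  toFun g := (QuotientGroup.mk g, ⟨(Quotient.out (QuotientGroup.mk g : G ⧸ Z))⁻¹ * g, by
    rw [← QuotientGroup.eq]
    exact QuotientGroup.out_eq' _⟩)
  invFun p := Quotient.out p.1 * p.2.1
  left_inv g := by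
    show Quotient.out (QuotientGroup.mk g : G ⧸ Z) *
      ((Quotient.out (QuotientGroup.mk g : G ⧸ Z))⁻¹ * g) = g
    rw [mul_inv_cancel_left]
  right_inv p := by
    obtain ⟨q, z⟩ := p
    have h : (QuotientGroup.mk (Quotient.out q * z.1) : G ⧸ Z) = q := by
      rw [QuotientGroup.mk_mul_of_mem _ z.2]
      exact QuotientGroup.out_eq' _
    refine Prod.ext h ?_
    apply Subtype.ext
    show (Quotient.out (QuotientGroup.mk (Quotient.out q * z.1) : G ⧸ Z))⁻¹ *
      (Quotient.out q * z.1) = z.1
    rw [h, inv_mul_cancel_left]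

/-- tuples in a group and in the quotient -/
noncomputable def tup (d : ℕ) (E : (Fin d → G ⧸ Z) → Prop) :
    {A : Fin d → G // E fun j => (QuotientGroup.mk (A j) : G ⧸ Z)} ≃
      {t : Fin d → G ⧸ Z // E t} × (Fin d → Z) where
  toFun A := (⟨fun j => QuotientGroup.mk (A.1 j), A.2⟩, fun j => (eqv Z (A.1 j)).2)
  invFun p := ⟨fun j => (eqv Z).symm (p.1.1 j, p.2 j), by
    have h : (fun j => (QuotientGroup.mk ((eqv Z).symm (p.1.1 j, p.2 j)) : G ⧸ Z)) = p.1.1 := by
      funext j
      exact congrArg Prod.fst ((eqv Z).apply_symm_apply (p.1.1 j, p.2 j))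
    rw [h]
    exact p.1.2⟩
  left_inv A := by
    apply Subtype.ext
    funext j
    exact (eqv Z).symm_apply_apply (A.1 j)
  right_inv p := by
    refine Prod.ext ?_ ?_
    · apply Subtype.ext
      funext j
      exact congrArg Prod.fst ((eqv Z).apply_symm_apply (p.1.1 j, p.2 j))
    · funext j
      exact congrArg Prod.snd ((eqv Z).apply_symm_apply (p.1.1 j, p.2 j))

end LFT

theorem t_LFT : S_LFT := by
  intro n F _ _ d E
  have h := Nat.card_congr (LFT.tup (Subgroup.center (SL n F)) d E)
  rw [Nat.card_prod, Nat.card_fun, Nat.card_fin, mul_comm] at h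
  exact h

end FL0
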