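import Pool.Agent.FL0.StR

/-!
# PAR: the count for one invariant subspace (MP_5b5212_al)
-/

set_option autoImplicit false

namespace FL0

open RSF Polynomial

noncomputable section

namespace PAR_aux

theorem sig_eq (m : List ℕ) :
    (∑ j : Fin m.length, 1 / ((m.get j : ℕ) : ℝ)) = m.length - sig m := by
  have h := Fin.sum_univ_fun_getElem m (fun k : ℕ => 1 - 1 / (k : ℝ))
  unfold sig
  rw [← h, Finset.sum_sub_distrib]
  simp

theorem sum_get (m : List ℕ) : (∑ j : Fin m.length, m.get j) = m.sum := by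
  have h := Fin.sum_univ_fun_getElem m (fun k : ℕ => k)
  simpa using h

section

variable {F V A B : Type} [Field F] [AddCommGroup V] [Module F V] [AddCommGroup A] [Module F A]
  [AddCommGroup B] [Module F B]

theorem fin_end [Finite F] [FiniteDimensional F V] : Finite (V →ₗ[F] V) := by
  haveI : Finite V := Module.finite_of_finite F
  exact Finite.of_injective (fun f : V →ₗ[F] V => (f : V → V)) DFunLike.coe_injective

theorem sb_pow (f : V →ₗ[F] V) (W : Submodule F V) (h : W ≤ W.comap f) (i : ℕ) (w : W) :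
    (((f.restrict h) ^ i) w : V) = (f ^ i) (w : V) := by
  induction i generalizing w with
  | zero => rfl
  | succ i ih =>
    rw [pow_succ, pow_succ, Module.End.mul_apply, Module.End.mul_apply, ih]
    rfl

theorem qt_pow (f : V →ₗ[F] V) (W : Submodule F V) (h : W ≤ W.comap f) (i : ℕ) (w : V) :
    ((W.mapQ W f h) ^ i) (W.mkQ w) = W.mkQ ((f ^ i) w) := by
  induction i generalizing w with
  | zero => rfl
  | succ i ih =>
    rw [pow_succ, pow_succ, Module.End.mul_apply, Module.End.mul_apply, ← ih]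
    rfl

theorem sb_prod {d : ℕ} (x : Fin d → (V →ₗ[F] V)) (W : Submodule F V) (h : Inv x W) (w : W) :
    ((List.ofFn (sb x W h)).prod w : V) = (List.ofFn x).prod (w : V) := by
  induction d with
  | zero => rfl
  | succ d ih =>
    rw [List.ofFn_succ, List.ofFn_succ, List.prod_cons, List.prod_cons, Module.End.mul_apply,
      Module.End.mul_apply, ← ih (fun j => x j.succ) (fun j => h j.succ)]
    rfl

theorem qt_prod {d : ℕ} (x : Fin d → (V →ₗ[F] V)) (W : Submodule F V) (h : Inv x W) (w : V) :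
    (List.ofFn (qt x W h)).prod (W.mkQ w) = W.mkQ ((List.ofFn x).prod w) := by
  induction d with
  | zero => rfl
  | succ d ih =>
    rw [List.ofFn_succ, List.ofFn_succ, List.prod_cons, List.prod_cons, Module.End.mul_apply,
      Module.End.mul_apply]
    have h1 := ih (fun j => x j.succ) (fun j => h j.succ)
    have h2 : (fun i : Fin d => qt x W h i.succ) = qt (fun j => x j.succ) W (fun j => h j.succ) :=
      rfl
    rw [h2, h1]
    rfl

theorem ev_prodMap [FiniteDimensional F A] [FiniteDimensional F B] (a : A →ₗ[F] A)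
    (b : B →ₗ[F] B) (ζ : F) : ev (LinearMap.prodMap a b) ζ = ev a ζ + ev b ζ := by
  unfold ev
  have h1 : LinearMap.prodMap a b - ζ • LinearMap.id =
      LinearMap.prodMap (a - ζ • LinearMap.id) (b - ζ • LinearMap.id) := by
    ext <;> simp
  rw [h1, LinearMap.ker_prodMap]
  have e : ((LinearMap.ker (a - ζ • LinearMap.id)).prod (LinearMap.ker (b - ζ • LinearMap.id))) ≃ₗ[F]
      (LinearMap.ker (a - ζ • LinearMap.id)) × (LinearMap.ker (b - ζ • LinearMap.id)) :=
    { toFun := fun x => (⟨x.1.1, x.2.1⟩, ⟨x.1.2, x.2.2⟩)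
      invFun := fun y => ⟨(y.1.1, y.2.1), ⟨y.1.2, y.2.2⟩⟩
      map_add' := fun _ _ => rfl
      map_smul' := fun _ _ => rfl
      left_inv := fun _ => rfl
      right_inv := fun _ => rfl }
  rw [e.finrank_eq, Module.finrank_prod]

theorem prodMap_pow (a : A →ₗ[F] A) (b : B →ₗ[F] B) (i : ℕ) :
    (LinearMap.prodMap a b) ^ i = LinearMap.prodMap (a ^ i) (b ^ i) := by
  induction i with
  | zero =>
    ext <;> simp
  | succ i ih =>
    rw [pow_succ, ih, pow_succ, pow_succ, LinearMap.prodMap_mul]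

end

/-- The sum of the weights. -/
theorem weight (hEVS : S_EVS) (m : List ℕ) (hm : ∀ k ∈ m, 2 ≤ k) (C κ : ℝ)
    (F V : Type) [Field F] [Finite F] [AddCommGroup V] [Module F V] [FiniteDimensional F V]
    (hk : ∀ k ∈ m, k ∣ Nat.card F - 1) (z : F)
    (hU : ∀ β : Fin m.length → F → ℕ,
      (Nat.card {t : Fin m.length → (V →ₗ[F] V) // (∀ j, t j ^ m.get j = 1) ∧
        (∀ j ζ, ev (t j) ζ = β j ζ) ∧ (List.ofFn t).prod = z • 1} : ℝ) ≤
      (Nat.card F : ℝ) ^ (C + κ * (Module.finrank F V : ℝ) ^ 2 -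
        (∑ j, ∑ᶠ ζ : F, (β j ζ : ℝ) ^ 2) / 2))
    (S : Finset (Fin m.length → (V →ₗ[F] V)))
    (hS : ∀ t, t ∈ S ↔ (∀ j, t j ^ m.get j = 1) ∧ (List.ofFn t).prod = z • 1) :
    ∑ t ∈ S, (Nat.card F : ℝ) ^ ((∑ j, (sq (t j) : ℝ)) / 2) ≤
      ((Module.finrank F V : ℝ) + 1) ^ m.sum *
        (Nat.card F : ℝ) ^ (C + κ * (Module.finrank F V : ℝ) ^ 2) := by
  classical
  haveI : Fintype F := Fintype.ofFinite F
  haveI := fin_end (F := F) (V := V)
  have hq0 : (0 : ℝ) < Nat.card F := by exact_mod_cast Nat.card_pos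
  let g : (Fin m.length → (V →ₗ[F] V)) → (Fin m.length → F → ℕ) := fun t j ζ => ev (t j) ζ
  have key : ∀ t : Fin m.length → (V →ₗ[F] V),
      (∑ j, (sq (t j) : ℝ)) = ∑ j, ∑ᶠ ζ : F, ((g t j ζ : ℕ) : ℝ) ^ 2 := by
    intro t
    refine Finset.sum_congr rfl fun j _ => ?_
    unfold sq
    rw [finsum_eq_sum_of_fintype, finsum_eq_sum_of_fintype]
    push_cast
    rfl
  have h1 : ∑ t ∈ S, (Nat.card F : ℝ) ^ ((∑ j, (sq (t j) : ℝ)) / 2) =
      ∑ β ∈ S.image g, ∑ t ∈ S.filter (fun t => g t = β),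
        (Nat.card F : ℝ) ^ ((∑ j, (sq (t j) : ℝ)) / 2) :=
    (Finset.sum_fiberwise_of_maps_to (fun t ht => Finset.mem_image_of_mem g ht) _).symm
  have h2 : ∀ β ∈ S.image g, ∑ t ∈ S.filter (fun t => g t = β),
      (Nat.card F : ℝ) ^ ((∑ j, (sq (t j) : ℝ)) / 2) ≤
      (Nat.card F : ℝ) ^ (C + κ * (Module.finrank F V : ℝ) ^ 2) := by
    intro β _
    have h3 : ∑ t ∈ S.filter (fun t => g t = β),
        (Nat.card F : ℝ) ^ ((∑ j, (sq (t j) : ℝ)) / 2) =
        ((S.filter (fun t => g t = β)).card : ℝ) *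
          (Nat.card F : ℝ) ^ ((∑ j, ∑ᶠ ζ : F, ((β j ζ : ℕ) : ℝ) ^ 2) / 2) := by
      rw [← nsmul_eq_mul, ← Finset.sum_const]
      refine Finset.sum_congr rfl fun t ht => ?_
      rw [key t, (Finset.mem_filter.1 ht).2]
    have h4 : ((S.filter (fun t => g t = β)).card : ℝ) ≤
        (Nat.card {t : Fin m.length → (V →ₗ[F] V) // (∀ j, t j ^ m.get j = 1) ∧
        (∀ j ζ, ev (t j) ζ = β j ζ) ∧ (List.ofFn t).prod = z • 1} : ℝ) := by
      rw [← Nat.card_eq_finsetCard]
      have : Nat.card (S.filter (fun t => g t = β)) ≤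
        Nat.card {t : Fin m.length → (V →ₗ[F] V) // (∀ j, t j ^ m.get j = 1) ∧
        (∀ j ζ, ev (t j) ζ = β j ζ) ∧ (List.ofFn t).prod = z • 1} := by
        refine Nat.card_le_card_of_injective (fun t => ⟨t.1, ?_⟩) ?_
        · obtain ⟨h5, h6⟩ := Finset.mem_filter.1 t.2
          obtain ⟨h7, h8⟩ := (hS t.1).1 h5
          refine ⟨h7, ?_, h8⟩
          intro j ζ
          exact congrFun (congrFun h6 j) ζ
        · intro t t' htt
          apply Subtype.ext
          exact congrArg (fun s => s.1) htt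
      exact_mod_cast this
    rw [h3]
    have h5 := h4.trans (hU β)
    have h6 := mul_le_mul_of_nonneg_right h5
      (Real.rpow_nonneg hq0.le ((∑ j, ∑ᶠ ζ : F, ((β j ζ : ℕ) : ℝ) ^ 2) / 2))
    rw [← Real.rpow_add hq0, sub_add_cancel] at h6
    exact h6
  have hcard : ((S.image g).card : ℝ) ≤ ((Module.finrank F V : ℝ) + 1) ^ m.sum := by
    let M : Fin m.length → Set (F → ℕ) := fun j =>
      {β : F → ℕ | ∃ x : V →ₗ[F] V, x ^ m.get j = 1 ∧ ∀ ζ, ev x ζ = β ζ}
    have hM : ∀ j, (M j).Finite := by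
      intro j
      refine (Set.finite_range (fun x : V →ₗ[F] V => (fun ζ : F => ev x ζ))).subset ?_
      rintro β ⟨x, -, hx⟩
      exact ⟨x, funext hx⟩
    have hMc : ∀ j, (hM j).toFinset.card ≤ (Module.finrank F V + 1) ^ m.get j := by
      intro j
      have h3 : m.get j ∈ m := List.get_mem m j
      have h4 := (hEVS F V (m.get j) (by have := hm _ h3; omega) (hk _ h3)).2.2.2.1
      rw [← Set.ncard_eq_toFinset_card _ (hM j)]
      exact h4
    have hsub : S.image g ⊆ Fintype.piFinset (fun j => (hM j).toFinset) := by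
      intro β hβ
      obtain ⟨t, ht, rfl⟩ := Finset.mem_image.1 hβ
      rw [Fintype.mem_piFinset]
      intro j
      rw [Set.Finite.mem_toFinset]
      exact ⟨t j, ((hS t).1 ht).1 j, fun ζ => rfl⟩
    have h3 : (S.image g).card ≤ (Module.finrank F V + 1) ^ m.sum := by
      calc (S.image g).card ≤ (Fintype.piFinset (fun j => (hM j).toFinset)).card :=
            Finset.card_le_card hsub
        _ = ∏ j, (hM j).toFinset.card := Fintype.card_piFinset _
        _ ≤ ∏ j : Fin m.length, (Module.finrank F V + 1) ^ m.get j :=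
            Finset.prod_le_prod' fun j _ => hMc j
        _ = (Module.finrank F V + 1) ^ m.sum := by
            rw [Finset.prod_pow_eq_pow_sum, sum_get]
    exact_mod_cast h3
  rw [h1]
  calc ∑ β ∈ S.image g, ∑ t ∈ S.filter (fun t => g t = β),
        (Nat.card F : ℝ) ^ ((∑ j, (sq (t j) : ℝ)) / 2)
      ≤ ∑ β ∈ S.image g, (Nat.card F : ℝ) ^ (C + κ * (Module.finrank F V : ℝ) ^ 2) :=
        Finset.sum_le_sum h2
    _ = ((S.image g).card : ℝ) * (Nat.card F : ℝ) ^ (C + κ * (Module.finrank F V : ℝ) ^ 2) := by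
        rw [Finset.sum_const, nsmul_eq_mul]
    _ ≤ _ := mul_le_mul_of_nonneg_right hcard (Real.rpow_nonneg hq0.le _)

end PAR_aux

open PAR_aux in
theorem t_PAR : M_PAR := by
  classical
  intro _ hEVS hUPB hFIB m hm hsig
  obtain ⟨C₀, hC₀, hUPB⟩ := hUPB m hm hsig
  refine ⟨2 * C₀, by positivity, ?_⟩
  intro F V _ _ _ _ _ hk z hz W H hH
  haveI : Fintype F := Fintype.ofFinite F
  haveI := fin_end (F := F) (V := V)
  haveI := fin_end (F := F) (V := W)
  haveI := fin_end (F := F) (V := V ⧸ W)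
  haveI : Fintype (Fin m.length → (V →ₗ[F] V)) := Fintype.ofFinite _
  haveI : Fintype (Fin m.length → (W →ₗ[F] W)) := Fintype.ofFinite _
  haveI : Fintype (Fin m.length → ((V ⧸ W) →ₗ[F] (V ⧸ W))) := Fintype.ofFinite _
  have hq0 : (0 : ℝ) < Nat.card F := by exact_mod_cast Nat.card_pos
  have hq1 : (1 : ℝ) ≤ Nat.card F := by
    have : 0 < Nat.card F := Nat.card_pos
    exact_mod_cast this
  set q : ℝ := (Nat.card F : ℝ) with hq
  set kk : ℕ := Module.finrank F W with hkk
  set ll : ℕ := Module.finrank F (V ⧸ W) with hll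
  have hn : Module.finrank F V = kk + ll := by
    rw [add_comm]
    exact (Submodule.finrank_quotient_add_finrank W).symm
  set κ : ℝ := (m.length + sig m) / 2 - 1 with hκ
  let SA : Finset (Fin m.length → (W →ₗ[F] W)) := Finset.univ.filter fun a =>
    (∀ j, a j ^ m.get j = 1) ∧ (List.ofFn a).prod = z • 1
  let SB : Finset (Fin m.length → ((V ⧸ W) →ₗ[F] (V ⧸ W))) := Finset.univ.filter fun a =>
    (∀ j, a j ^ m.get j = 1) ∧ (List.ofFn a).prod = z • 1
  have hSA : ∀ a, a ∈ SA ↔ (∀ j, a j ^ m.get j = 1) ∧ (List.ofFn a).prod = z • 1 := by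
    intro a
    simp [SA]
  have hSB : ∀ a, a ∈ SB ↔ (∀ j, a j ^ m.get j = 1) ∧ (List.ofFn a).prod = z • 1 := by
    intro a
    simp [SB]
  let SX : Finset (Fin m.length → (V →ₗ[F] V)) := Finset.univ.filter fun x =>
    (∀ j, x j ^ m.get j = 1) ∧ (List.ofFn x).prod = z • 1 ∧
      ∃ h : Inv x W, (Nat.card (Hm (sb x W h) (qt x W h)) : ℝ) ≤ H
  have hSX : ∀ x, x ∈ SX ↔ (∀ j, x j ^ m.get j = 1) ∧ (List.ofFn x).prod = z • 1 ∧
      ∃ h : Inv x W, (Nat.card (Hm (sb x W h) (qt x W h)) : ℝ) ≤ H := by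
    intro x
    simp [SX]
  have hN : Nat.card {x : Fin m.length → (V →ₗ[F] V) // (∀ j, x j ^ m.get j = 1) ∧
          (List.ofFn x).prod = z • 1 ∧
          ∃ h : Inv x W, (Nat.card (Hm (sb x W h) (qt x W h)) : ℝ) ≤ H} = SX.card := by
    rw [Nat.card_eq_fintype_card, Fintype.card_subtype]
  rw [hN]
  let Fb : (Fin m.length → (W →ₗ[F] W)) × (Fin m.length → ((V ⧸ W) →ₗ[F] (V ⧸ W))) →
      Finset (Fin m.length → (V →ₗ[F] V)) := fun p => SX.filter fun x =>
    ∃ h : Inv x W, sb x W h = p.1 ∧ qt x W h = p.2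
  -- the weights
  have hwA := weight hEVS m hm C₀ κ F W hk z (fun β => hUPB F W hk z hz β) SA hSA
  have hwB := weight hEVS m hm C₀ κ F (V ⧸ W) hk z (fun β => hUPB F (V ⧸ W) hk z hz β) SB hSB
  have hcover : SX.card ≤ ∑ p ∈ SA ×ˢ SB, (Fb p).card := by
    have h1 : SX ⊆ (SA ×ˢ SB).biUnion Fb := by
      intro x hx
      obtain ⟨hx1, hx2, h, hx3⟩ := (hSX x).1 hx
      rw [Finset.mem_biUnion]
      refine ⟨(sb x W h, qt x W h), ?_, ?_⟩
      · rw [Finset.mem_product]
        constructor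
        · rw [hSA]
          constructor
          · intro j
            ext w
            have h2 := sb_pow (x j) W (h j) (m.get j) w
            rw [hx1 j] at h2
            exact h2
          · ext w
            rw [sb_prod, hx2]
            rfl
        · rw [hSB]
          constructor
          · intro j
            apply LinearMap.ext
            intro w
            obtain ⟨w, rfl⟩ := W.mkQ_surjective w
            have h2 := qt_pow (x j) W (h j) (m.get j) w
            rw [hx1 j] at h2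
            exact h2
          · apply LinearMap.ext
            intro w
            obtain ⟨w, rfl⟩ := W.mkQ_surjective w
            rw [qt_prod, hx2]
            rfl
      · exact Finset.mem_filter.2 ⟨hx, h, rfl, rfl⟩
    exact (Finset.card_le_card h1).trans Finset.card_biUnion_le
  have hfib : ∀ p ∈ SA ×ˢ SB, ((Fb p).card : ℝ) ≤
      q ^ (((m.length : ℝ) - 1) * (kk * ll) -
        ((m.length : ℝ) - sig m) * ((kk : ℝ) + ll) ^ 2 / 2) * H *
      (q ^ ((∑ j, (sq (p.1 j) : ℝ)) / 2) * q ^ ((∑ j, (sq (p.2 j) : ℝ)) / 2)) := by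
    rintro ⟨a, b⟩ hp
    obtain ⟨ha, hb⟩ := Finset.mem_product.1 hp
    obtain ⟨ha1, ha2⟩ := (hSA a).1 ha
    obtain ⟨hb1, hb2⟩ := (hSB b).1 hb
    rcases (Fb (a, b)).eq_empty_or_nonempty with h0 | ⟨x, hx⟩
    · rw [h0, Finset.card_empty, Nat.cast_zero]
      positivity
    · obtain ⟨hxS, h', hxa, hxb⟩ := Finset.mem_filter.1 hx
      obtain ⟨_, _, h, hxH⟩ := (hSX x).1 hxS
      have hHm : (Nat.card (Hm a b) : ℝ) ≤ H := by
        have e1 : sb x W h = a := hxa
        have e2 : qt x W h = b := hxb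
        rw [e1, e2] at hxH
        exact hxH
      have h1 := hFIB F V m hm hk z hz W a b ha1 hb1
      have h2 : (Fb (a, b)).card ≤ Nat.card {x : Fin m.length → (V →ₗ[F] V) //
          (∀ j, x j ^ m.get j = 1) ∧
          (List.ofFn x).prod = z • 1 ∧ ∃ h : Inv x W, sb x W h = a ∧ qt x W h = b} := by
        rw [← Nat.card_eq_finsetCard]
        refine Nat.card_le_card_of_injective (fun t => ⟨t.1, ?_⟩) ?_
        · obtain ⟨h5, h6, h7, h8⟩ := Finset.mem_filter.1 t.2
          obtain ⟨h9, h10, _⟩ := (hSX t.1).1 h5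
          exact ⟨h9, h10, h6, h7, h8⟩
        · intro t t' htt
          apply Subtype.ext
          exact congrArg (fun s => s.1) htt
      have h3 : ((Fb (a, b)).card : ℝ) * q ^ (kk * ll + pr a b) ≤ q ^ (m.length * (kk * ll)) * H := by
        have h4 : ((Fb (a, b)).card : ℝ) * q ^ (kk * ll + pr a b) ≤
            q ^ (m.length * (kk * ll)) * (Nat.card (Hm a b) : ℝ) := by
          have h5 := (Nat.mul_le_mul_right (Nat.card F ^ (kk * ll + pr a b)) h2).trans h1
          rw [hq]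
          exact_mod_cast h5
        exact h4.trans (mul_le_mul_of_nonneg_left hHm (by positivity))
      have hsq : ((m.length : ℝ) - sig m) * ((kk : ℝ) + ll) ^ 2 ≤
          (∑ j, (sq (a j) : ℝ)) + (∑ j, (sq (b j) : ℝ)) + 2 * (pr a b : ℝ) := by
        rw [← sig_eq, Finset.sum_mul]
        have h4 : (∑ j, (sq (a j) : ℝ)) + (∑ j, (sq (b j) : ℝ)) + 2 * (pr a b : ℝ) =
            ∑ j, ((sq (a j) : ℝ) + (sq (b j) : ℝ) +
              2 * ((∑ᶠ ζ : F, ev (a j) ζ * ev (b j) ζ : ℕ) : ℝ)) := by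
          unfold pr
          rw [Finset.sum_add_distrib, Finset.sum_add_distrib, ← Finset.mul_sum]
          push_cast
          rfl
        rw [h4]
        refine Finset.sum_le_sum fun j _ => ?_
        have h5 : m.get j ∈ m := List.get_mem m j
        have h6 := (hEVS F (W × (V ⧸ W)) (m.get j) (by have := hm _ h5; omega) (hk _ h5)).2.1
          (LinearMap.prodMap (a j) (b j)) (by
            rw [prodMap_pow, ha1 j, hb1 j]
            rfl)
        rw [Module.finrank_prod, ← hkk, ← hll] at h6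
        have h7 : (sq (LinearMap.prodMap (a j) (b j)) : ℝ) = (sq (a j) : ℝ) + (sq (b j) : ℝ) +
              2 * ((∑ᶠ ζ : F, ev (a j) ζ * ev (b j) ζ : ℕ) : ℝ) := by
          unfold sq
          rw [finsum_eq_sum_of_fintype, finsum_eq_sum_of_fintype, finsum_eq_sum_of_fintype,
            finsum_eq_sum_of_fintype]
          push_cast
          rw [Finset.mul_sum, ← Finset.sum_add_distrib, ← Finset.sum_add_distrib]
          refine Finset.sum_congr rfl fun ζ _ => ?_
          rw [ev_prodMap]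
          push_cast
          ring
        rw [h7] at h6
        refine le_trans (le_of_eq ?_) h6
        push_cast
        ring
      -- divide
      have h8 : ((Fb (a, b)).card : ℝ) ≤ q ^ (((m.length : ℝ) - 1) * (kk * ll) - pr a b) * H := by
        have h9 : 0 < q ^ (kk * ll + pr a b) := by positivity
        have h10 : q ^ (((m.length : ℝ) - 1) * (kk * ll) - pr a b) * q ^ (kk * ll + pr a b) =
            q ^ (m.length * (kk * ll)) := by
          rw [← Real.rpow_natCast q (kk * ll + pr a b), ← Real.rpow_natCast q (m.length * (kk * ll)),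
            ← Real.rpow_add hq0]
          congr 1
          push_cast
          ring
        rw [← h10] at h3
        have h11 : ((Fb (a, b)).card : ℝ) * q ^ (kk * ll + pr a b) ≤
            (q ^ (((m.length : ℝ) - 1) * (kk * ll) - pr a b) * H) * q ^ (kk * ll + pr a b) := by
          calc _ ≤ _ := h3
            _ = _ := by ring
        exact le_of_mul_le_mul_right h11 h9
      refine h8.trans ?_
      have h12 : q ^ (((m.length : ℝ) - 1) * (kk * ll) - pr a b) ≤
          q ^ (((m.length : ℝ) - 1) * (kk * ll) -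
            ((m.length : ℝ) - sig m) * ((kk : ℝ) + ll) ^ 2 / 2) *
          (q ^ ((∑ j, (sq (a j) : ℝ)) / 2) * q ^ ((∑ j, (sq (b j) : ℝ)) / 2)) := by
        rw [← Real.rpow_add hq0, ← Real.rpow_add hq0]
        apply Real.rpow_le_rpow_of_exponent_le hq1
        linarith
      calc q ^ (((m.length : ℝ) - 1) * (kk * ll) - pr a b) * H
          ≤ (q ^ (((m.length : ℝ) - 1) * (kk * ll) -
            ((m.length : ℝ) - sig m) * ((kk : ℝ) + ll) ^ 2 / 2) *
          (q ^ ((∑ j, (sq (a j) : ℝ)) / 2) * q ^ ((∑ j, (sq (b j) : ℝ)) / 2))) * H :=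
            mul_le_mul_of_nonneg_right h12 hH
        _ = _ := by ring
  have hsum : (SX.card : ℝ) ≤ q ^ (((m.length : ℝ) - 1) * (kk * ll) -
        ((m.length : ℝ) - sig m) * ((kk : ℝ) + ll) ^ 2 / 2) * H *
      ((∑ a ∈ SA, q ^ ((∑ j, (sq (a j) : ℝ)) / 2)) *
        (∑ b ∈ SB, q ^ ((∑ j, (sq (b j) : ℝ)) / 2))) := by
    have h1 : (SX.card : ℝ) ≤ ∑ p ∈ SA ×ˢ SB, ((Fb p).card : ℝ) := by exact_mod_cast hcover
    refine h1.trans ((Finset.sum_le_sum hfib).trans (le_of_eq ?_))
    rw [← Finset.mul_sum, Finset.sum_product, Finset.sum_mul_sum]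
  refine hsum.trans ?_
  have hA0 : 0 ≤ ∑ a ∈ SA, q ^ ((∑ j, (sq (a j) : ℝ)) / 2) :=
    Finset.sum_nonneg fun a _ => Real.rpow_nonneg hq0.le _
  have hB0 : 0 ≤ ∑ b ∈ SB, q ^ ((∑ j, (sq (b j) : ℝ)) / 2) :=
    Finset.sum_nonneg fun a _ => Real.rpow_nonneg hq0.le _
  have h1 : (∑ a ∈ SA, q ^ ((∑ j, (sq (a j) : ℝ)) / 2)) *
        (∑ b ∈ SB, q ^ ((∑ j, (sq (b j) : ℝ)) / 2)) ≤
      (((kk : ℝ) + 1) ^ m.sum * q ^ (C₀ + κ * (kk : ℝ) ^ 2)) *
        (((ll : ℝ) + 1) ^ m.sum * q ^ (C₀ + κ * (ll : ℝ) ^ 2)) :=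
    mul_le_mul hwA hwB hB0 (by positivity)
  have h2 := mul_le_mul_of_nonneg_left h1 (by positivity :
    0 ≤ q ^ (((m.length : ℝ) - 1) * (kk * ll) -
        ((m.length : ℝ) - sig m) * ((kk : ℝ) + ll) ^ 2 / 2) * H)
  refine h2.trans ?_
  have h3 : ((kk : ℝ) + 1) ^ m.sum * ((ll : ℝ) + 1) ^ m.sum ≤
      ((Module.finrank F V : ℝ) + 1) ^ (2 * m.sum) := by
    rw [hn, two_mul, pow_add]
    push_cast
    have e1 : (0 : ℝ) ≤ kk := Nat.cast_nonneg _
    have e2 : (0 : ℝ) ≤ ll := Nat.cast_nonneg _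
    apply mul_le_mul
    · exact pow_le_pow_left₀ (by positivity) (by linarith) _
    · exact pow_le_pow_left₀ (by positivity) (by linarith) _
    · positivity
    · positivity
  have h4 : q ^ (((m.length : ℝ) - 1) * (kk * ll) -
        ((m.length : ℝ) - sig m) * ((kk : ℝ) + ll) ^ 2 / 2) *
      (q ^ (C₀ + κ * (kk : ℝ) ^ 2) * q ^ (C₀ + κ * (ll : ℝ) ^ 2)) =
      q ^ (2 * C₀ + (sig m - 1) * (Module.finrank F V : ℝ) ^ 2 -
          (sig m - 1) * (kk * ll)) := by
    rw [← Real.rpow_add hq0, ← Real.rpow_add hq0, hn, hκ]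
    congr 1
    push_cast
    ring
  calc q ^ (((m.length : ℝ) - 1) * (kk * ll) -
        ((m.length : ℝ) - sig m) * ((kk : ℝ) + ll) ^ 2 / 2) * H *
      ((((kk : ℝ) + 1) ^ m.sum * q ^ (C₀ + κ * (kk : ℝ) ^ 2)) *
        (((ll : ℝ) + 1) ^ m.sum * q ^ (C₀ + κ * (ll : ℝ) ^ 2)))
      = (((kk : ℝ) + 1) ^ m.sum * ((ll : ℝ) + 1) ^ m.sum) *
        (q ^ (((m.length : ℝ) - 1) * (kk * ll) -
        ((m.length : ℝ) - sig m) * ((kk : ℝ) + ll) ^ 2 / 2) *
      (q ^ (C₀ + κ * (kk : ℝ) ^ 2) * q ^ (C₀ + κ * (ll : ℝ) ^ 2))) * H := by ring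
    _ = (((kk : ℝ) + 1) ^ m.sum * ((ll : ℝ) + 1) ^ m.sum) *
        q ^ (2 * C₀ + (sig m - 1) * (Module.finrank F V : ℝ) ^ 2 -
          (sig m - 1) * (kk * ll)) * H := by rw [h4]
    _ ≤ ((Module.finrank F V : ℝ) + 1) ^ (2 * m.sum) *
        q ^ (2 * C₀ + (sig m - 1) * (Module.finrank F V : ℝ) ^ 2 -
          (sig m - 1) * (kk * ll)) * H :=
        mul_le_mul_of_nonneg_right (mul_le_mul_of_nonneg_right h3 (Real.rpow_nonneg hq0.le _)) hH

end

end FL0
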