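import Pool.Agent.FL0.StR

/-!
# Homomorphisms from a simple module (module SMP)
-/

set_option autoImplicit false

namespace FL0

open RSF Polynomial

namespace SMPaux

variable {F A B : Type} [Field F] [AddCommGroup A] [Module F A] [AddCommGroup B] [Module F B]
  {d : ℕ} {α : Fin d → (A →ₗ[F] A)} {β : Fin d → (B →ₗ[F] B)}

/-- a homomorphism from a simple module which kills a nonzero vector -/
lemma eq_zero (hα : Sim α) {f : A →ₗ[F] B} (hf : ∀ j, f ∘ₗ α j = β j ∘ₗ f) {v : A} (hv : v ≠ 0)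
    (hfv : f v = 0) : f = 0 := by
  have hinv : Inv α (LinearMap.ker f) := by
    intro j x hx
    rw [LinearMap.mem_ker] at hx
    rw [Submodule.mem_comap, LinearMap.mem_ker]
    have h1 := LinearMap.congr_fun (hf j) x
    rw [LinearMap.comp_apply, LinearMap.comp_apply, hx, map_zero] at h1
    exact h1
  rcases hα.2 _ hinv with h1 | h1
  · exfalso
    have h2 : v ∈ LinearMap.ker f := hfv
    rw [h1, Submodule.mem_bot] at h2
    exact hv h2
  · exact LinearMap.ker_eq_top.1 h1

/-- the difference of two homomorphisms -/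
lemma sub_comm {f g : A →ₗ[F] B} (hf : ∀ j, f ∘ₗ α j = β j ∘ₗ f)
    (hg : ∀ j, g ∘ₗ α j = β j ∘ₗ g) (j : Fin d) : (f - g) ∘ₗ α j = β j ∘ₗ (f - g) := by
  rw [LinearMap.sub_comp, LinearMap.comp_sub, hf j, hg j]

/-- homomorphisms commute with the algebra generated by the endomorphisms -/
lemma free_comm {f : A →ₗ[F] B} (hf : ∀ j, f ∘ₗ α j = β j ∘ₗ f) (r : FreeAlgebra F (Fin d)) :
    ∀ a : A, f ((FreeAlgebra.lift F (A := Module.End F A) α r) a) =
      (FreeAlgebra.lift F (A := Module.End F B) β r) (f a) := by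
  induction r using FreeAlgebra.induction with
  | grade0 c =>
    intro a
    rw [AlgHom.commutes, AlgHom.commutes, Module.algebraMap_end_apply,
      Module.algebraMap_end_apply, map_smul]
  | grade1 j =>
    intro a
    rw [FreeAlgebra.lift_ι_apply, FreeAlgebra.lift_ι_apply]
    exact LinearMap.congr_fun (hf j) a
  | mul x y hx hy =>
    intro a
    rw [map_mul, map_mul, Module.End.mul_apply, Module.End.mul_apply, hx, hy]
  | add x y hx hy =>
    intro a
    rw [map_add, map_add, LinearMap.add_apply, LinearMap.add_apply, map_add, hx, hy]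

/-- evaluation at a vector -/
noncomputable def evw (α : Fin d → (A →ₗ[F] A)) (w : A) : FreeAlgebra F (Fin d) →ₗ[F] A :=
  (LinearMap.applyₗ w) ∘ₗ (FreeAlgebra.lift F (A := Module.End F A) α).toLinearMap

lemma evw_apply (w : A) (r : FreeAlgebra F (Fin d)) :
    evw α w r = (FreeAlgebra.lift F (A := Module.End F A) α r) w := rfl

lemma evw_mul (w : A) (j : Fin d) (r : FreeAlgebra F (Fin d)) :
    evw α w (FreeAlgebra.ι F j * r) = α j (evw α w r) := by
  rw [evw_apply, evw_apply, map_mul, Module.End.mul_apply, FreeAlgebra.lift_ι_apply]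

lemma evw_surj (hα : Sim α) {w : A} (hw : w ≠ 0) : Function.Surjective (evw α w) := by
  rw [← LinearMap.range_eq_top]
  have hinv : Inv α (LinearMap.range (evw α w)) := by
    rintro j _ ⟨r, rfl⟩
    exact ⟨FreeAlgebra.ι F j * r, evw_mul w j r⟩
  rcases hα.2 _ hinv with h1 | h1
  · exfalso
    have h2 : w ∈ LinearMap.range (evw α w) := ⟨1, by
      rw [evw_apply, map_one, Module.End.one_apply]⟩
    rw [h1, Submodule.mem_bot] at h2
    exact hw h2
  · exact h1

/-- the density argument -/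
lemma exists_endo (hα : Sim α) {v w : A} (hw : w ≠ 0)
    (h : ∀ r : FreeAlgebra F (Fin d), evw α w r = 0 → evw α v r = 0) :
    ∃ φ : A →ₗ[F] A, (∀ j, φ ∘ₗ α j = α j ∘ₗ φ) ∧ φ w = v := by
  have hs := evw_surj hα hw
  have hle : LinearMap.ker (evw α w) ≤ LinearMap.ker (evw α v) := fun r hr => h r hr
  let e := (evw α w).quotKerEquivOfSurjective hs
  let φ : A →ₗ[F] A := ((LinearMap.ker (evw α w)).liftQ (evw α v) hle) ∘ₗ e.symm.toLinearMap
  have hφ : ∀ r, φ (evw α w r) = evw α v r := by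
    intro r
    have h1 : e.symm (evw α w r) = Submodule.Quotient.mk r := by
      rw [LinearEquiv.symm_apply_eq]
      rfl
    show ((LinearMap.ker (evw α w)).liftQ (evw α v) hle) (e.symm (evw α w r)) = _
    rw [h1]
    rfl
  refine ⟨φ, fun j => LinearMap.ext fun a => ?_, ?_⟩
  · obtain ⟨r, rfl⟩ := hs a
    show φ (α j (evw α w r)) = α j (φ (evw α w r))
    rw [← evw_mul, hφ, hφ, evw_mul]
  · have h1 := hφ 1
    rw [evw_apply, evw_apply, map_one, Module.End.one_apply, Module.End.one_apply] at h1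
    exact h1

/-- two vectors which are not related by an endomorphism -/
lemma exists_pair [FiniteDimensional F A] (hα : Sim α)
    (heig : ∀ j, ∃ (u : A) (c : F), u ≠ 0 ∧ α j u = c • u)
    (h2 : 2 ≤ Module.finrank F A) :
    ∃ v w : A, w ≠ 0 ∧ ∀ φ : A →ₗ[F] A, (∀ j, φ ∘ₗ α j = α j ∘ₗ φ) → φ w ≠ v := by
  by_contra hcon
  push Not at hcon
  have hsc : ∀ j, ∃ c : F, ∀ a, α j a = c • a := by
    intro j
    obtain ⟨u, c, hu, huc⟩ := heig j
    refine ⟨c, fun a => ?_⟩
    obtain ⟨φ, hφ, hφa⟩ := hcon a u hu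
    have h1 := LinearMap.congr_fun (hφ j) u
    rw [LinearMap.comp_apply, LinearMap.comp_apply, huc, map_smul, hφa] at h1
    exact h1.symm
  have hinv : ∀ W : Submodule F A, Inv α W := by
    intro W j x hx
    obtain ⟨c, hc⟩ := hsc j
    rw [Submodule.mem_comap, hc]
    exact W.smul_mem c hx
  have := hα.1
  obtain ⟨w, hw⟩ := exists_ne (0 : A)
  rcases hα.2 _ (hinv (F ∙ w)) with h1 | h1
  · exact hw ((Submodule.span_singleton_eq_bot).1 h1)
  · have h3 : Module.finrank F (F ∙ w) = 1 := finrank_span_singleton hw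
    rw [h1, finrank_top] at h3
    omega

end SMPaux

open SMPaux in
theorem t_SMP : M_SMP := by
  intro hDIA F A B _ _ _ _ _ _ _ _ d α β hα
  have : Finite A := Module.finite_of_finite F
  have : Finite B := Module.finite_of_finite F
  have := hα.1
  have hB : Nat.card B = Nat.card F ^ Module.finrank F B := Module.natCard_eq_pow_finrank
  constructor
  · obtain ⟨v, hv⟩ := exists_ne (0 : A)
    rw [← hB]
    refine Nat.card_le_card_of_injective (fun f : Hm α β => f.1 v) ?_
    intro f g hfg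
    have h1 : (f.1 - g.1) v = 0 := by
      rw [LinearMap.sub_apply, sub_eq_zero]
      exact hfg
    exact Subtype.ext (sub_eq_zero.1 (eq_zero hα (sub_comm f.2 g.2) hv h1))
  · intro hm h2
    have heig : ∀ j, ∃ (u : A) (c : F), u ≠ 0 ∧ α j u = c • u := by
      intro j
      obtain ⟨m, hm1, hmd, hmα⟩ := hm j
      obtain ⟨b, l, hb, -⟩ := hDIA F A m hm1 hmd (α j) hmα
      exact ⟨b ⟨0, by omega⟩, l ⟨0, by omega⟩, b.ne_zero _, hb _⟩
    obtain ⟨v, w, hw, hvw⟩ := exists_pair hα heig h2
    have key : ∃ r : FreeAlgebra F (Fin d), evw α w r = 0 ∧ evw α v r ≠ 0 := by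
      by_contra hcon
      push Not at hcon
      obtain ⟨φ, hφ, hφw⟩ := exists_endo hα hw hcon
      exact hvw φ hφ hφw
    obtain ⟨r, hr1, hr2⟩ := key
    rw [← hB, pow_two, ← Nat.card_prod]
    refine Nat.card_le_card_of_injective (fun p : Hm α β × Hm α β => p.1.1 v + p.2.1 w) ?_
    intro p p' hpp
    have h3 : (p.1.1 - p'.1.1) v + (p.2.1 - p'.2.1) w = 0 := by
      have h4 : p.1.1 v + p.2.1 w = p'.1.1 v + p'.2.1 w := hpp
      rw [LinearMap.sub_apply, LinearMap.sub_apply]
      have h5 : p.1.1 v - p'.1.1 v + (p.2.1 w - p'.2.1 w) =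
          p.1.1 v + p.2.1 w - (p'.1.1 v + p'.2.1 w) := by abel
      rw [h5, h4, sub_self]
    have hc1 := sub_comm p.1.2 p'.1.2
    have hc2 := sub_comm p.2.2 p'.2.2
    have h6 : p.1.1 - p'.1.1 = 0 := by
      refine eq_zero hα hc1 hr2 ?_
      rw [evw_apply, free_comm hc1, eq_neg_of_add_eq_zero_left h3, map_neg, ← free_comm hc2,
        ← evw_apply, hr1, map_zero, neg_zero]
    rw [h6, LinearMap.zero_apply, zero_add] at h3
    have h7 : p.2.1 - p'.2.1 = 0 := eq_zero hα hc2 hw h3
    exact Prod.ext (Subtype.ext (sub_eq_zero.1 h6)) (Subtype.ext (sub_eq_zero.1 h7))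

end FL0
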