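import Pool.Agent.FL0.StG
import Pool.Agent.RSF.LG

/-!
# Module UPB: upper bound for the number of tuples with given multiplicities
-/

namespace FL0

open RSF Polynomial

noncomputable section

namespace UPB

section conj

variable {F V W : Type} [Field F] [AddCommGroup V] [Module F V] [AddCommGroup W] [Module F W]

theorem ev_conj (e : V ≃ₗ[F] W) (A : V →ₗ[F] V) (ζ : F) : ev (e.conj A) ζ = ev A ζ := by
  unfold ev
  refine (LinearEquiv.finrank_eq (LinearEquiv.ofSubmodules e _ _ ?_)).symm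
  ext w
  rw [Submodule.mem_map]
  constructor
  · rintro ⟨v, hv, rfl⟩
    rw [LinearMap.mem_ker, LinearMap.sub_apply, LinearMap.smul_apply, LinearMap.id_apply] at hv ⊢
    rw [LinearEquiv.conj_apply]
    simp only [LinearMap.comp_apply, LinearEquiv.coe_coe, LinearEquiv.symm_apply_apply]
    rw [← map_smul, ← map_sub, hv, map_zero]
  · intro hw
    refine ⟨e.symm w, ?_, by simp⟩
    rw [LinearMap.mem_ker, LinearMap.sub_apply, LinearMap.smul_apply, LinearMap.id_apply] at hw ⊢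
    rw [LinearEquiv.conj_apply] at hw
    simp only [LinearMap.comp_apply, LinearEquiv.coe_coe] at hw
    have h := congrArg e.symm hw
    rw [map_sub, map_smul, map_zero, LinearEquiv.symm_apply_apply] at h
    exact h

theorem sq_conj (e : V ≃ₗ[F] W) (A : V →ₗ[F] V) : sq (e.conj A) = sq A := by
  unfold sq
  simp only [ev_conj]

end conj

section mat

variable {F V : Type} [Field F] [AddCommGroup V] [Module F V] {l : ℕ}
  (b : Module.Basis (Fin l) F V)

theorem lm_mat (A : V →ₗ[F] V) : lm (LinearMap.toMatrixAlgEquiv b A) = b.equivFun.conj A := by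
  unfold lm
  apply LinearMap.ext
  intro x
  rw [LinearEquiv.conj_apply]
  simp only [LinearMap.comp_apply, LinearEquiv.coe_coe, Matrix.toLin'_apply]
  have h := LinearMap.toMatrix_mulVec_repr b b A (b.equivFun.symm x)
  have h2 : (b.repr (b.equivFun.symm x) : Fin l → F) = x := by
    have := b.equivFun.apply_symm_apply x
    exact this
  rw [h2] at h
  exact h

theorem sq_mat (A : V →ₗ[F] V) : sq (lm (LinearMap.toMatrixAlgEquiv b A)) = sq A := by
  rw [lm_mat, sq_conj]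

/-- the general linear group in a basis -/
def toGL : GV F V →* GL (Fin l) F :=
  (Units.map (LinearMap.toMatrixAlgEquiv b).toAlgHom.toRingHom.toMonoidHom).comp
    (LinearMap.GeneralLinearGroup.generalLinearEquiv F V).symm.toMonoidHom

theorem toGL_val (x : GV F V) : (toGL b x).1 = LinearMap.toMatrixAlgEquiv b (x : V →ₗ[F] V) := rfl

end mat

section gv

variable {F V : Type} [Field F] [AddCommGroup V] [Module F V]

theorem exists_gv (A : V →ₗ[F] V) {k : ℕ} (hk : 1 ≤ k) (h : A ^ k = 1) :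
    ∃ x : GV F V, (x : V →ₗ[F] V) = A ∧ x ^ k = 1 := by
  have h1 : A ∘ₗ (A ^ (k - 1)) = LinearMap.id := by
    change A * A ^ (k - 1) = 1
    rw [← pow_succ', Nat.sub_add_cancel hk, h]
  have h2 : (A ^ (k - 1)) ∘ₗ A = LinearMap.id := by
    change A ^ (k - 1) * A = 1
    rw [← pow_succ, Nat.sub_add_cancel hk, h]
  refine ⟨LinearEquiv.ofLinearMap A (A ^ (k - 1)) h1 h2, rfl, ?_⟩
  have h3 : LinearEquiv.automorphismGroup.toLinearMapMonoidHom
      ((LinearEquiv.ofLinearMap A (A ^ (k - 1)) h1 h2 : GV F V) ^ k) = 1 := by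
    rw [map_pow]
    exact h
  apply LinearEquiv.toLinearMap_injective
  exact h3

end gv

theorem prod_le (q : ℝ) (hq : 2 ≤ q) (d : ℕ) (k : Fin d → ℕ) (s cl : Fin d → ℝ) (l : ℕ)
    (h0 : ∀ j, 0 ≤ cl j) (hcl : ∀ j, cl j ≤ 4 ^ (k j) * q ^ ((l : ℝ) ^ 2 - s j)) :
    ∏ j, cl j ≤ q ^ (2 * ∑ j, (k j : ℝ) + d * (l : ℝ) ^ 2 - ∑ j, s j) := by
  have hq0 : 0 < q := by linarith
  have h1 : ∀ j, cl j ≤ q ^ (2 * (k j : ℝ) + (l : ℝ) ^ 2 - s j) := by
    intro j
    refine (hcl j).trans ?_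
    have h2 : (4 : ℝ) ^ (k j) ≤ q ^ (2 * (k j : ℝ)) := by
      have h3 : q ^ (2 * (k j : ℝ)) = (q ^ 2) ^ (k j) := by
        rw [← pow_mul]
        exact_mod_cast Real.rpow_natCast q (2 * k j)
      rw [h3]
      exact pow_le_pow_left₀ (by norm_num) (by nlinarith) _
    calc (4 : ℝ) ^ (k j) * q ^ ((l : ℝ) ^ 2 - s j)
        ≤ q ^ (2 * (k j : ℝ)) * q ^ ((l : ℝ) ^ 2 - s j) :=
          mul_le_mul_of_nonneg_right h2 (by positivity)
      _ = _ := by
          rw [← Real.rpow_add hq0]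
          congr 1
          ring
  refine (Finset.prod_le_prod (fun j _ => h0 j) (fun j _ => h1 j)).trans ?_
  rw [← Real.rpow_sum_of_pos hq0]
  refine le_of_eq ?_
  congr 1
  rw [Finset.sum_sub_distrib, Finset.sum_add_distrib, ← Finset.mul_sum, Finset.sum_const,
    Finset.card_univ, Fintype.card_fin, nsmul_eq_mul]

theorem num_large (q : ℝ) (hq : 2 ≤ q) (d : ℕ) (k : Fin d → ℕ) (s : Fin d → ℝ) (l : ℕ)
    (N S P c : ℝ) (hc : 0 < c) (hP0 : 0 ≤ P)
    (hs : ∀ j, (l : ℝ) ^ 2 / (k j) ≤ s j)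
    (hS : q ^ (l ^ 2) / 4 ≤ q * S)
    (hN : |N * S - P| ≤ P * q ^ ((∑ j, (s j - (l : ℝ) ^ 2 / (k j))) / 2 - c * l)) (hN0 : 0 ≤ N)
    (hP : P ≤ q ^ (2 * ∑ j, (k j : ℝ) + d * (l : ℝ) ^ 2 - ∑ j, s j)) :
    N ≤ q ^ (4 + 2 * ∑ j, (k j : ℝ) + ((d + ∑ j, (1 - 1 / (k j : ℝ))) / 2 - 1) * (l : ℝ) ^ 2 -
      (∑ j, s j) / 2) := by
  have hq0 : 0 < q := by linarith
  have hq1 : 1 ≤ q := by linarith
  set D : ℝ := ∑ j, (s j - (l : ℝ) ^ 2 / (k j)) with hD
  have hD0 : 0 ≤ D := Finset.sum_nonneg fun j _ => by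
    have := hs j
    linarith
  have h1 : q ^ (D / 2 - c * l) ≤ q ^ (D / 2) := by
    apply Real.rpow_le_rpow_of_exponent_le hq1
    have : 0 ≤ c * l := by positivity
    linarith
  have h2 : 1 ≤ q ^ (D / 2) := Real.one_le_rpow hq1 (by linarith)
  have h3 : N * S ≤ 2 * (P * q ^ (D / 2)) := by
    have h4 := (abs_le.mp hN).2
    have h5 : P * q ^ (D / 2 - c * l) ≤ P * q ^ (D / 2) := mul_le_mul_of_nonneg_left h1 hP0
    have h6 : P * 1 ≤ P * q ^ (D / 2) := mul_le_mul_of_nonneg_left h2 hP0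
    linarith
  have h4 : N * q ^ (l ^ 2) ≤ q ^ (4 : ℝ) * (P * q ^ (D / 2)) := by
    have h5 : N * (q ^ (l ^ 2) / 4) ≤ N * (q * S) := mul_le_mul_of_nonneg_left hS hN0
    have h6 : N * (q * S) ≤ q * (2 * (P * q ^ (D / 2))) := by
      calc N * (q * S) = q * (N * S) := by ring
        _ ≤ _ := mul_le_mul_of_nonneg_left h3 hq0.le
    have h7 : (8 : ℝ) * q ≤ q ^ (4 : ℝ) := by
      have h8 : q ^ (4 : ℝ) = q ^ 4 := by exact_mod_cast Real.rpow_natCast q 4
      rw [h8]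
      have h9 : (8 : ℝ) ≤ q ^ 3 := by
        have := pow_le_pow_left₀ (by norm_num : (0 : ℝ) ≤ 2) hq 3
        norm_num at this
        exact this
      calc (8 : ℝ) * q ≤ q ^ 3 * q := mul_le_mul_of_nonneg_right h9 hq0.le
        _ = q ^ 4 := by ring
    have h8 : 0 ≤ P * q ^ (D / 2) := by positivity
    calc N * q ^ (l ^ 2) = 4 * (N * (q ^ (l ^ 2) / 4)) := by ring
      _ ≤ 4 * (q * (2 * (P * q ^ (D / 2)))) := by linarith
      _ = (8 * q) * (P * q ^ (D / 2)) := by ring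
      _ ≤ _ := mul_le_mul_of_nonneg_right h7 h8
  have h5 : q ^ (4 : ℝ) * (P * q ^ (D / 2)) ≤ q ^ (4 : ℝ) *
      (q ^ (2 * ∑ j, (k j : ℝ) + d * (l : ℝ) ^ 2 - ∑ j, s j) * q ^ (D / 2)) :=
    mul_le_mul_of_nonneg_left (mul_le_mul_of_nonneg_right hP (by positivity)) (by positivity)
  have h6 : (q : ℝ) ^ (l ^ 2) = q ^ ((l : ℝ) ^ 2) := by
    have := Real.rpow_natCast q (l ^ 2)
    push_cast at this
    exact this.symm
  have h7 : N * q ^ ((l : ℝ) ^ 2) ≤ q ^ (4 + 2 * ∑ j, (k j : ℝ) +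
      ((d + ∑ j, (1 - 1 / (k j : ℝ))) / 2 - 1) * (l : ℝ) ^ 2 - (∑ j, s j) / 2) *
        q ^ ((l : ℝ) ^ 2) := by
    rw [← h6]
    refine (h4.trans h5).trans (le_of_eq ?_)
    rw [h6, ← Real.rpow_add hq0, ← Real.rpow_add hq0, ← Real.rpow_add hq0]
    congr 1
    have h8 : D = ∑ j, s j - (l : ℝ) ^ 2 * ∑ j, 1 / (k j : ℝ) := by
      rw [hD, Finset.sum_sub_distrib, Finset.mul_sum]
      congr 1
      refine Finset.sum_congr rfl fun j _ => ?_
      rw [mul_one_div]
    have h9 : ∑ j, (1 - 1 / (k j : ℝ)) = d - ∑ j, 1 / (k j : ℝ) := by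
      rw [Finset.sum_sub_distrib, Finset.sum_const, Finset.card_univ, Fintype.card_fin,
        nsmul_eq_mul, mul_one]
    rw [h8, h9]
    ring
  exact le_of_mul_le_mul_right h7 (by positivity)

theorem sig_eq (m : List ℕ) : sig m = ∑ j : Fin m.length, (1 - 1 / (m.get j : ℝ)) := by
  unfold sig
  rw [← Fin.sum_univ_fun_getElem m fun k : ℕ => 1 - 1 / (k : ℝ)]
  rfl

end UPB

open UPB in
theorem t_UPB : M_UPB := by
  intro hPI hFRO hEVS hCLS m hm hσ
  classical
  obtain ⟨c, r, hc, hFRO⟩ := hFRO m hm hσ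
  have hK0 : (0 : ℝ) ≤ ∑ j : Fin m.length, (m.get j : ℝ) :=
    Finset.sum_nonneg fun j _ => Nat.cast_nonneg _
  refine ⟨4 + 2 * ∑ j : Fin m.length, (m.get j : ℝ) + m.length * (r : ℝ) ^ 2, by positivity, ?_⟩
  intro F V _ _ _ _ _ hdiv z hz β
  have hq : (2 : ℝ) ≤ (Nat.card F : ℝ) := by
    exact_mod_cast Finite.one_lt_card (α := F)
  have hq0 : (0 : ℝ) < (Nat.card F : ℝ) := by linarith
  have hq1 : (1 : ℝ) ≤ (Nat.card F : ℝ) := by linarith
  set q : ℝ := (Nat.card F : ℝ) with hqdef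
  rcases isEmpty_or_nonempty {t : Fin m.length → (V →ₗ[F] V) // (∀ j, t j ^ m.get j = 1) ∧
        (∀ j ζ, ev (t j) ζ = β j ζ) ∧ (List.ofFn t).prod = z • 1} with hempty | hne
  · rw [Nat.card_of_isEmpty]
    push_cast
    positivity
  obtain ⟨y₀, hy₀, hyβ, hyprod⟩ := hne.some
  have hk1 : ∀ j : Fin m.length, 1 ≤ m.get j := fun j =>
    (hm _ (List.get_mem m j)).trans' (by norm_num)
  have hkd : ∀ j : Fin m.length, m.get j ∣ Nat.card F - 1 := fun j =>
    hdiv _ (List.get_mem m j)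
  set l : ℕ := Module.finrank F V with hl
  let b : Module.Basis (Fin l) F V := Module.finBasis F V
  -- the fixed tuple
  choose y hy1 hy2 using fun j => exists_gv (y₀ j) (hk1 j) (hy₀ j)
  let Y : Fin m.length → GL (Fin l) F := fun j => toGL b (y j)
  have hYval : ∀ j, (Y j).1 = LinearMap.toMatrixAlgEquiv b (y₀ j) := by
    intro j
    rw [← hy1 j]
    exact toGL_val b (y j)
  have hYpow : ∀ j, Y j ^ m.get j = 1 := by
    intro j
    change toGL b (y j) ^ m.get j = 1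
    rw [← map_pow, hy2 j, map_one]
  have hprodM : ∀ t : Fin m.length → (V →ₗ[F] V), (List.ofFn t).prod = z • 1 →
      (List.ofFn fun j => LinearMap.toMatrixAlgEquiv b (t j)).prod = Matrix.scalar (Fin l) z := by
    intro t ht
    have h1 : (List.ofFn fun j => LinearMap.toMatrixAlgEquiv b (t j)) =
        (List.ofFn t).map (LinearMap.toMatrixAlgEquiv b) := by
      rw [List.map_ofFn]
      rfl
    rw [h1, ← map_list_prod, ht, map_smul, map_one]
    ext i j
    simp [Matrix.scalar_apply, Matrix.diagonal_apply, Matrix.one_apply]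
  have hYdet : ∏ j, (Y j).1.det = z ^ l := by
    have h1 := congrArg Matrix.det (hprodM y₀ hyprod)
    rw [Matrix.scalar_apply, Matrix.det_diagonal, Finset.prod_const, Finset.card_univ,
      Fintype.card_fin] at h1
    rw [← h1, ← Matrix.coe_detMonoidHom, map_list_prod, List.map_ofFn, List.prod_ofFn]
    refine Finset.prod_congr rfl fun j _ => ?_
    rw [hYval j]
    rfl
  have hsq : ∀ j, (sq (lm (Y j).1) : ℝ) = ∑ᶠ ζ : F, (β j ζ : ℝ) ^ 2 := by
    intro j
    rw [hYval j, sq_mat]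
    unfold sq
    simp only [hyβ j]
    have : Fintype F := Fintype.ofFinite F
    rw [finsum_eq_sum_of_fintype, finsum_eq_sum_of_fintype]
    push_cast
    rfl
  -- the injection
  have hex : ∀ (A : V →ₗ[F] V) (j : Fin m.length), A ^ m.get j = 1 → (∀ ζ, ev A ζ = β j ζ) →
      ∃ g : GL (Fin l) F, g.1 = LinearMap.toMatrixAlgEquiv b A ∧ IsConj (Y j) g := by
    intro A j hA hAβ
    obtain ⟨x, hx1, hx2⟩ := exists_gv A (hk1 j) hA
    refine ⟨toGL b x, ?_, ?_⟩
    · rw [← hx1]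
      exact toGL_val b x
    · refine (toGL b).map_isConj ?_
      refine (hEVS F V (m.get j) (hk1 j) (hkd j)).1 (y j) x (hy2 j) hx2 fun ζ => ?_
      rw [hy1 j, hx1, hyβ j, hAβ]
  have hfin : Finite (GL (Fin l) F) := by
    have : Finite (Matrix (Fin l) (Fin l) F) := inferInstance
    exact Finite.of_injective (fun g : GL (Fin l) F => g.1) Units.val_injective
  have hN1 : Nat.card {t : Fin m.length → (V →ₗ[F] V) // (∀ j, t j ^ m.get j = 1) ∧
        (∀ j ζ, ev (t j) ζ = β j ζ) ∧ (List.ofFn t).prod = z • 1} ≤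
      Nat.card {t : Fin m.length → GL (Fin l) F // (∀ j, IsConj (Y j) (t j)) ∧
        (List.ofFn fun j => (t j).1).prod = Matrix.scalar (Fin l) z} := by
    choose g hg1 hg2 using hex
    refine Nat.card_le_card_of_injective
      (fun t => ⟨fun j => g (t.1 j) j (t.2.1 j) (t.2.2.1 j), fun j => hg2 _ _ _ _, ?_⟩) ?_
    · rw [← hprodM t.1 t.2.2.2]
      congr 2
      funext j
      exact hg1 _ _ _ _
    · intro t t' h
      apply Subtype.ext
      funext j
      have h1 := congrArg (fun u => (u.1 j).1) h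
      change (g (t.1 j) j _ _).1 = (g (t'.1 j) j _ _).1 at h1
      rw [hg1, hg1] at h1
      exact (LinearMap.toMatrixAlgEquiv b).injective h1
  have hN2 : Nat.card {t : Fin m.length → GL (Fin l) F // (∀ j, IsConj (Y j) (t j)) ∧
        (List.ofFn fun j => (t j).1).prod = Matrix.scalar (Fin l) z} ≤
      ∏ j, Nat.card {t : GL (Fin l) F // IsConj (Y j) t} := by
    rw [← Nat.card_pi]
    refine Nat.card_le_card_of_injective (fun t j => ⟨t.1 j, t.2.1 j⟩) ?_
    intro t t' h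
    apply Subtype.ext
    funext j
    exact congrArg Subtype.val (congrFun h j)
  have hcl : ∀ j, (Nat.card {t : GL (Fin l) F // IsConj (Y j) t} : ℝ) ≤
      4 ^ (m.get j) * q ^ ((l : ℝ) ^ 2 - ∑ᶠ ζ : F, (β j ζ : ℝ) ^ 2) := by
    intro j
    have h1 := hCLS F l (m.get j) (hk1 j) (hkd j) (Y j) (hYpow j)
    rw [hsq j] at h1
    exact h1
  have hP := prod_le q hq m.length m.get (fun j => ∑ᶠ ζ : F, (β j ζ : ℝ) ^ 2)
    (fun j => (Nat.card {t : GL (Fin l) F // IsConj (Y j) t} : ℝ)) l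
    (fun j => Nat.cast_nonneg _) hcl
  have hs0 : ∀ j, 0 ≤ ∑ᶠ ζ : F, (β j ζ : ℝ) ^ 2 := fun j =>
    finsum_nonneg fun ζ => by positivity
  have hS0 : 0 ≤ ∑ j, ∑ᶠ ζ : F, (β j ζ : ℝ) ^ 2 := Finset.sum_nonneg fun j _ => hs0 j
  have hσd : (m.length : ℝ) - sig m = ∑ j : Fin m.length, 1 / (m.get j : ℝ) := by
    rw [sig_eq, Finset.sum_sub_distrib, Finset.sum_const, Finset.card_univ, Fintype.card_fin,
      nsmul_eq_mul, mul_one]
    ring
  have hσd0 : 0 ≤ (m.length : ℝ) - sig m := by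
    rw [hσd]
    exact Finset.sum_nonneg fun j _ => by positivity
  have hexp : 0 ≤ ((m.length + sig m) / 2 - 1 : ℝ) := by linarith
  refine (Nat.cast_le.mpr hN1).trans ?_
  rcases le_or_gt r l with hrl | hrl
  · -- large dimension
    have h1 := hFRO l hrl F hdiv z hz Y hYpow hYdet
    have hsum : ∑ j, del (m.get j) (Y j).1 = ∑ j : Fin m.length,
        ((∑ᶠ ζ : F, (β j ζ : ℝ) ^ 2) - (l : ℝ) ^ 2 / (m.get j : ℝ)) := by
      refine Finset.sum_congr rfl fun j _ => ?_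
      unfold del
      rw [hsq j]
    rw [hsum] at h1
    have hs : ∀ j : Fin m.length, (l : ℝ) ^ 2 / (m.get j : ℝ) ≤ ∑ᶠ ζ : F, (β j ζ : ℝ) ^ 2 := by
      intro j
      have h2 := (hEVS F V (m.get j) (hk1 j) (hkd j)).2.1 (y₀ j) (hy₀ j)
      have h3 : (sq (y₀ j) : ℝ) = ∑ᶠ ζ : F, (β j ζ : ℝ) ^ 2 := by
        rw [← hsq j, hYval j, sq_mat]
      rw [h3] at h2
      exact h2
    have hSL : q ^ (l ^ 2) / 4 ≤ q * (Nat.card (SL l F) : ℝ) := by
      have h2 := LG.card_GL_ge (F := F) (n := l) hPI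
      have h3 := LG.card_GL_le (F := F) (n := l)
      have h4 : (Nat.card (GL (Fin l) F) : ℝ) ≤ (Nat.card F : ℝ) * (Nat.card (SL l F) : ℝ) := by
        exact_mod_cast h3
      exact h2.trans h4
    have h2 := num_large q hq m.length m.get (fun j => ∑ᶠ ζ : F, (β j ζ : ℝ) ^ 2) l _ _ _ c hc
      (Finset.prod_nonneg fun j _ => Nat.cast_nonneg _) hs hSL h1 (Nat.cast_nonneg _) hP
    refine h2.trans (Real.rpow_le_rpow_of_exponent_le hq1 ?_)
    rw [← sig_eq]
    have : 0 ≤ (m.length : ℝ) * (r : ℝ) ^ 2 := by positivity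
    linarith
  · -- small dimension
    have h1 : ((Nat.card {t : Fin m.length → GL (Fin l) F // (∀ j, IsConj (Y j) (t j)) ∧
        (List.ofFn fun j => (t j).1).prod = Matrix.scalar (Fin l) z} : ℕ) : ℝ) ≤
        ∏ j, (Nat.card {t : GL (Fin l) F // IsConj (Y j) t} : ℝ) := by
      exact_mod_cast hN2
    refine (h1.trans hP).trans (Real.rpow_le_rpow_of_exponent_le hq1 ?_)
    have h2 : (l : ℝ) ≤ r := by exact_mod_cast hrl.le
    have h3 : (m.length : ℝ) * (l : ℝ) ^ 2 ≤ m.length * (r : ℝ) ^ 2 := by gcongr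
    have h4 : 0 ≤ ((m.length + sig m) / 2 - 1 : ℝ) * (l : ℝ) ^ 2 := by positivity
    linarith

end

end FL0
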