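import Pool.Agent.FL0.StR

/-!
# FL0, module ZAN: the cokernel of the product map (helper83)
-/

namespace FL0

open RSF Polynomial

noncomputable section

namespace ZAN_aux

variable {F A B : Type} [Field F] [AddCommGroup A] [Module F A] [AddCommGroup B] [Module F B]

theorem bk_mul (a a' : A →ₗ[F] A) (c c' : B →ₗ[F] A) (b b' : B →ₗ[F] B) :
    bk a c b * bk a' c' b' = bk (a * a') (a ∘ₗ c' + c ∘ₗ b') (b * b') := by
  refine LinearMap.ext fun x => ?_
  obtain ⟨x, y⟩ := x
  change (a (a' x + c' y) + c (b' y), b (b' y)) = (a (a' x) + (a (c' y) + c (b' y)), b (b' y))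
  rw [map_add, add_assoc]

theorem bk_one : bk (1 : A →ₗ[F] A) (0 : B →ₗ[F] A) (1 : B →ₗ[F] B) = 1 := by
  refine LinearMap.ext fun x => ?_
  obtain ⟨x, y⟩ := x
  simp [bk]

theorem ur_bk (a : A →ₗ[F] A) (c : B →ₗ[F] A) (b : B →ₗ[F] B) :
    LinearMap.fst F A B ∘ₗ bk a c b ∘ₗ LinearMap.inr F A B = c := by
  refine LinearMap.ext fun x => ?_
  simp [bk]

theorem prod_bk {d : ℕ} (a : Fin d → (A →ₗ[F] A)) (b : Fin d → (B →ₗ[F] B))
    (c : Fin d → (B →ₗ[F] A)) :
    (List.ofFn fun j => bk (a j) (c j) (b j)).prod =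
      bk (List.ofFn a).prod (ur a b c) (List.ofFn b).prod := by
  have h : ∃ c', (List.ofFn fun j => bk (a j) (c j) (b j)).prod =
      bk (List.ofFn a).prod c' (List.ofFn b).prod := by
    induction d with
    | zero => exact ⟨0, by simp [bk_one]⟩
    | succ d ih =>
      obtain ⟨c', hc⟩ := ih (fun j => a j.succ) (fun j => b j.succ) (fun j => c j.succ)
      refine ⟨a 0 ∘ₗ c' + c 0 ∘ₗ (List.ofFn fun j => b j.succ).prod, ?_⟩
      rw [List.ofFn_succ, List.prod_cons, hc, bk_mul, List.ofFn_succ, List.prod_cons,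
        List.ofFn_succ (f := b), List.prod_cons]
  obtain ⟨c', hc⟩ := h
  have h1 : ur a b c = c' := by
    unfold ur
    rw [hc, ur_bk]
  rw [h1, hc]

theorem ur_zero (a : Fin 0 → (A →ₗ[F] A)) (b : Fin 0 → (B →ₗ[F] B))
    (c : Fin 0 → (B →ₗ[F] A)) : ur a b c = 0 := by
  unfold ur
  refine LinearMap.ext fun x => ?_
  simp

theorem ur_succ {d : ℕ} (a : Fin (d + 1) → (A →ₗ[F] A)) (b : Fin (d + 1) → (B →ₗ[F] B))
    (c : Fin (d + 1) → (B →ₗ[F] A)) :
    ur a b c = a 0 ∘ₗ ur (fun j => a j.succ) (fun j => b j.succ) (fun j => c j.succ) +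
      c 0 ∘ₗ (List.ofFn fun j => b j.succ).prod := by
  have h : ur a b c = LinearMap.fst F A B ∘ₗ
      (List.ofFn fun j => bk (a j) (c j) (b j)).prod ∘ₗ LinearMap.inr F A B := rfl
  rw [h, List.ofFn_succ, List.prod_cons, prod_bk, bk_mul, ur_bk]

theorem ur_add {d : ℕ} (a : Fin d → (A →ₗ[F] A)) (b : Fin d → (B →ₗ[F] B))
    (c c' : Fin d → (B →ₗ[F] A)) : ur a b (c + c') = ur a b c + ur a b c' := by
  induction d with
  | zero => rw [ur_zero, ur_zero, ur_zero, add_zero]
  | succ d ih =>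
    rw [ur_succ, ur_succ, ur_succ]
    have h := ih (fun j => a j.succ) (fun j => b j.succ) (fun j => c j.succ) (fun j => c' j.succ)
    have h1 : (fun j : Fin d => (c + c') j.succ) =
        (fun j => c j.succ) + fun j => c' j.succ := rfl
    rw [h1, h, Pi.add_apply, LinearMap.comp_add, LinearMap.add_comp]
    abel

theorem ur_smul {d : ℕ} (a : Fin d → (A →ₗ[F] A)) (b : Fin d → (B →ₗ[F] B))
    (r : F) (c : Fin d → (B →ₗ[F] A)) : ur a b (r • c) = r • ur a b c := by
  induction d with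
  | zero => rw [ur_zero, ur_zero, smul_zero]
  | succ d ih =>
    rw [ur_succ, ur_succ]
    have h := ih (fun j => a j.succ) (fun j => b j.succ) (fun j => c j.succ)
    have h1 : (fun j : Fin d => (r • c) j.succ) = r • fun j => c j.succ := rfl
    rw [h1, h, Pi.smul_apply, LinearMap.comp_smul, LinearMap.smul_comp, smul_add]

/-- The product map on the tuples of commutators. -/
def Phi {d : ℕ} (a : Fin d → (A →ₗ[F] A)) (b : Fin d → (B →ₗ[F] B)) :
    (Fin d → (B →ₗ[F] A)) →ₗ[F] (B →ₗ[F] A) where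
  toFun h := ur a b (fun j => a j ∘ₗ h j - h j ∘ₗ b j)
  map_add' h h' := by
    rw [← ur_add]
    congr 1
    funext j
    rw [Pi.add_apply, Pi.add_apply, LinearMap.comp_add, LinearMap.add_comp]
    abel
  map_smul' r h := by
    rw [RingHom.id_apply, ← ur_smul]
    congr 1
    funext j
    rw [Pi.smul_apply, Pi.smul_apply, LinearMap.comp_smul, LinearMap.smul_comp, smul_sub]

/-- The trace form. -/
def tau [FiniteDimensional F A] [FiniteDimensional F B] :
    (A →ₗ[F] B) →ₗ[F] Module.Dual F (B →ₗ[F] A) where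
  toFun T :=
    { toFun := fun X => LinearMap.trace F B (T ∘ₗ X)
      map_add' := fun X Y => by rw [LinearMap.comp_add, map_add]
      map_smul' := fun r X => by rw [LinearMap.comp_smul, map_smul, RingHom.id_apply] }
  map_add' T T' := by
    refine LinearMap.ext fun X => ?_
    change LinearMap.trace F B ((T + T') ∘ₗ X) = LinearMap.trace F B (T ∘ₗ X) +
      LinearMap.trace F B (T' ∘ₗ X)
    rw [LinearMap.add_comp, map_add]
  map_smul' r T := by
    refine LinearMap.ext fun X => ?_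
    change LinearMap.trace F B ((r • T) ∘ₗ X) = r • LinearMap.trace F B (T ∘ₗ X)
    rw [LinearMap.smul_comp, map_smul]

theorem tau_inj [FiniteDimensional F B] (T : A →ₗ[F] B)
    (h : ∀ X : B →ₗ[F] A, LinearMap.trace F B (T ∘ₗ X) = 0) : T = 0 := by
  refine LinearMap.ext fun v => ?_
  rw [LinearMap.zero_apply]
  refine (Module.forall_dual_apply_eq_zero_iff F (T v)).1 fun f => ?_
  have h1 := h (f.smulRight v)
  have h2 : T ∘ₗ f.smulRight v = f.smulRight (T v) := by
    refine LinearMap.ext fun x => ?_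
    simp
  rwa [h2, LinearMap.trace_smulRight] at h1

theorem tau_surj [FiniteDimensional F A] [FiniteDimensional F B] :
    Function.Surjective (tau (F := F) (A := A) (B := B)) := by
  have h : Module.finrank F (A →ₗ[F] B) =
      Module.finrank F (Module.Dual F (B →ₗ[F] A)) := by
    rw [Subspace.dual_finrank_eq, Module.finrank_linearMap, Module.finrank_linearMap, mul_comm]
  rw [← LinearMap.injective_iff_surjective_of_finrank_eq_finrank h,
    injective_iff_map_eq_zero]
  intro T hT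
  exact tau_inj T fun X => LinearMap.congr_fun hT X

theorem claim [FiniteDimensional F A] [FiniteDimensional F B] {d : ℕ}
    (a : Fin d → (A →ₗ[F] A)) (b : Fin d → (B →ₗ[F] B)) (T : A →ₗ[F] B)
    (h : ∀ h : Fin d → (B →ₗ[F] A),
      LinearMap.trace F B (T ∘ₗ ur a b (fun j => a j ∘ₗ h j - h j ∘ₗ b j)) = 0) (j : Fin d) :
    ∃ Y : A →ₗ[F] B, Y ∘ₗ a j = (List.ofFn b).prod ∘ₗ T ∧
      b j ∘ₗ Y = (List.ofFn b).prod ∘ₗ T := by
  induction d generalizing T with
  | zero => exact j.elim0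
  | succ d ih =>
    set R : B →ₗ[F] B := (List.ofFn fun j => b j.succ).prod with hR
    have hb : (List.ofFn b).prod = b 0 ∘ₗ R := by
      rw [List.ofFn_succ, List.prod_cons]
      rfl
    have hlink : R ∘ₗ T ∘ₗ a 0 = b 0 ∘ₗ R ∘ₗ T := by
      rw [← sub_eq_zero]
      refine tau_inj _ fun X => ?_
      have h1 := h (Fin.cons X fun _ => 0)
      rw [ur_succ] at h1
      have h2 : ur (fun j : Fin d => a j.succ) (fun j => b j.succ) (fun j : Fin d =>
          a j.succ ∘ₗ (Fin.cons X fun _ => 0 : Fin (d + 1) → (B →ₗ[F] A)) j.succ -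
          (Fin.cons X fun _ => 0 : Fin (d + 1) → (B →ₗ[F] A)) j.succ ∘ₗ b j.succ) = 0 := by
        have h3 : (fun j : Fin d =>
          a j.succ ∘ₗ (Fin.cons X fun _ => 0 : Fin (d + 1) → (B →ₗ[F] A)) j.succ -
          (Fin.cons X fun _ => 0 : Fin (d + 1) → (B →ₗ[F] A)) j.succ ∘ₗ b j.succ) =
            (0 : F) • 0 := by
          funext j
          simp
        rw [h3, ur_smul, zero_smul]
      rw [h2, LinearMap.comp_zero, zero_add, Fin.cons_zero, LinearMap.sub_comp,
        LinearMap.comp_sub, map_sub, sub_eq_zero] at h1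
      rw [LinearMap.sub_comp, map_sub, sub_eq_zero]
      have h4 : LinearMap.trace F B ((R ∘ₗ T ∘ₗ a 0) ∘ₗ X) =
          LinearMap.trace F B (T ∘ₗ (a 0 ∘ₗ X) ∘ₗ R) :=
        LinearMap.trace_comp_comm' (T ∘ₗ a 0 ∘ₗ X) R
      have h5 : LinearMap.trace F B ((b 0 ∘ₗ R ∘ₗ T) ∘ₗ X) =
          LinearMap.trace F B (T ∘ₗ (X ∘ₗ b 0) ∘ₗ R) :=
        LinearMap.trace_comp_comm' (T ∘ₗ X) (b 0 ∘ₗ R)
      rw [h4, h5]
      exact h1
    refine Fin.cases ?_ (fun j => ?_) j
    · refine ⟨R ∘ₗ T, ?_, ?_⟩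
      · rw [hb, LinearMap.comp_assoc, hlink, LinearMap.comp_assoc]
      · rw [hb, LinearMap.comp_assoc]
    · obtain ⟨Y, hY1, hY2⟩ := ih (fun j => a j.succ) (fun j => b j.succ) (T ∘ₗ a 0) (by
        intro h'
        have h1 := h (Fin.cons 0 h')
        rw [ur_succ, Fin.cons_zero, LinearMap.comp_zero, LinearMap.zero_comp, sub_zero,
          LinearMap.zero_comp, add_zero] at h1
        rw [LinearMap.comp_assoc]
        exact h1) j
      refine ⟨Y, ?_, ?_⟩
      · rw [hY1, hb, LinearMap.comp_assoc, hlink]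
      · rw [hY2, hb, LinearMap.comp_assoc, hlink]

end ZAN_aux

open ZAN_aux in
theorem t_ZAN : S_ZAN := by
  intro F A B _ _ _ _ _ _ _ _ d z hz a b _ hb
  have hfin : Finite (A →ₗ[F] B) := Module.finite_of_finite F
  have hfin' : Finite (Hm a b) := by
    unfold Hm
    infer_instance
  have hI : Nat.card {y : B →ₗ[F] A // ∃ h : Fin d → (B →ₗ[F] A),
      ur a b (fun j => a j ∘ₗ h j - h j ∘ₗ b j) = y} =
      Nat.card F ^ Module.finrank F (LinearMap.range (Phi a b)) := by
    rw [← Module.natCard_eq_pow_finrank]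
    exact Nat.card_congr (Equiv.subtypeEquivRight fun y => Iff.rfl)
  have hA : Nat.card (LinearMap.range (Phi a b)).dualAnnihilator =
      Nat.card F ^ Module.finrank F (LinearMap.range (Phi a b)).dualAnnihilator :=
    Module.natCard_eq_pow_finrank (K := F)
      (V := ((LinearMap.range (Phi a b)).dualAnnihilator :
        Submodule F (Module.Dual F (B →ₗ[F] A))))
  have hsum := Subspace.finrank_add_finrank_dualAnnihilator_eq (LinearMap.range (Phi a b))
  have hle : Nat.card (LinearMap.range (Phi a b)).dualAnnihilator ≤ Nat.card (Hm a b) := by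
    have key : ∀ ψ : (LinearMap.range (Phi a b)).dualAnnihilator,
        ∃ T : Hm a b, tau T.1 = ψ.1 := by
      intro ψ
      obtain ⟨T, hT⟩ := tau_surj (F := F) (A := A) (B := B) ψ.1
      refine ⟨⟨T, fun j => ?_⟩, hT⟩
      obtain ⟨Y, hY1, hY2⟩ := claim a b T (fun h => by
        have h1 := (Submodule.mem_dualAnnihilator ψ.1).1 ψ.2 (Phi a b h) ⟨h, rfl⟩
        rw [← hT] at h1
        exact h1) j
      rw [hb] at hY1 hY2
      have h1 : z • (T ∘ₗ a j) = z • (b j ∘ₗ T) := by
        have h2 : (z • (1 : B →ₗ[F] B)) ∘ₗ T = z • T := by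
          refine LinearMap.ext fun x => ?_
          simp
        rw [h2] at hY1 hY2
        rw [← LinearMap.smul_comp, ← LinearMap.comp_smul, ← hY2, LinearMap.comp_assoc, hY1, hY2]
      exact smul_right_injective _ hz h1
    choose g hg using key
    refine Nat.card_le_card_of_injective g fun ψ ψ' h => ?_
    exact Subtype.ext (by rw [← hg ψ, ← hg ψ', h])
  have hfr : Module.finrank F A * Module.finrank F B = Module.finrank F (B →ₗ[F] A) := by
    rw [Module.finrank_linearMap, mul_comm]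
  rw [hfr, ← hsum, pow_add, hI, ← hA]
  exact Nat.mul_le_mul_left _ hle

end

end FL0
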