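import Pool.Agent.FL0.StR

/-!
# FL0_ZON: the number of the upper right blocks
-/

set_option autoImplicit false

namespace FL0

noncomputable section

namespace ZON

section Block

variable {F A B : Type} [Field F] [AddCommGroup A] [Module F A] [AddCommGroup B] [Module F B]

theorem bk_mul (a a' : A →ₗ[F] A) (c c' : B →ₗ[F] A) (b b' : B →ₗ[F] B) :
    bk a c b * bk a' c' b' = bk (a * a') (a ∘ₗ c' + c ∘ₗ b') (b * b') := by
  apply LinearMap.ext
  rintro ⟨w, u⟩
  apply Prod.ext
  · change a (a' w + c' u) + c (b' u) = a (a' w) + (a (c' u) + c (b' u))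
    rw [map_add, add_assoc]
  · rfl

theorem bk_one : bk (1 : A →ₗ[F] A) (0 : B →ₗ[F] A) (1 : B →ₗ[F] B) = 1 := by
  apply LinearMap.ext
  rintro ⟨w, u⟩
  apply Prod.ext
  · change w + 0 = w
    rw [add_zero]
  · rfl

theorem fst_bk_inr (a : A →ₗ[F] A) (c : B →ₗ[F] A) (b : B →ₗ[F] B) :
    LinearMap.fst F A B ∘ₗ bk a c b ∘ₗ LinearMap.inr F A B = c := by
  apply LinearMap.ext
  intro u
  change a 0 + c u = c u
  rw [map_zero, zero_add]

theorem fst_bk_inl (a : A →ₗ[F] A) (c : B →ₗ[F] A) (b : B →ₗ[F] B) :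
    LinearMap.fst F A B ∘ₗ bk a c b ∘ₗ LinearMap.inl F A B = a := by
  apply LinearMap.ext
  intro w
  change a w + c 0 = a w
  rw [map_zero, add_zero]

theorem snd_bk_inr (a : A →ₗ[F] A) (c : B →ₗ[F] A) (b : B →ₗ[F] B) :
    LinearMap.snd F A B ∘ₗ bk a c b ∘ₗ LinearMap.inr F A B = b := rfl

theorem prod_bk : ∀ (d : ℕ) (a : Fin d → (A →ₗ[F] A)) (b : Fin d → (B →ₗ[F] B))
    (c : Fin d → (B →ₗ[F] A)),
    (List.ofFn fun j => bk (a j) (c j) (b j)).prod =
      bk (List.ofFn a).prod (ur a b c) (List.ofFn b).prod := by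
  intro d
  induction d with
  | zero =>
    intro a b c
    have h1 : ur a b c = 0 := by
      unfold ur
      simp only [List.ofFn_zero, List.prod_nil]
      rfl
    rw [h1]
    simp only [List.ofFn_zero, List.prod_nil]
    exact bk_one.symm
  | succ d ih =>
    intro a b c
    have h1 : (List.ofFn fun j => bk (a j) (c j) (b j)).prod =
        bk (a 0 * (List.ofFn fun j => a (Fin.succ j)).prod)
          (a 0 ∘ₗ ur (fun j => a (Fin.succ j)) (fun j => b (Fin.succ j))
            (fun j => c (Fin.succ j)) + c 0 ∘ₗ (List.ofFn fun j => b (Fin.succ j)).prod)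
          (b 0 * (List.ofFn fun j => b (Fin.succ j)).prod) := by
      rw [List.ofFn_succ, List.prod_cons, ih, bk_mul]
    have h2 : ur a b c = a 0 ∘ₗ ur (fun j => a (Fin.succ j)) (fun j => b (Fin.succ j))
            (fun j => c (Fin.succ j)) + c 0 ∘ₗ (List.ofFn fun j => b (Fin.succ j)).prod := by
      unfold ur
      rw [h1, fst_bk_inr]
      rfl
    rw [h1, h2, List.ofFn_succ (f := a), List.ofFn_succ (f := b), List.prod_cons, List.prod_cons]

theorem ur_succ {d : ℕ} (a : Fin (d + 1) → (A →ₗ[F] A)) (b : Fin (d + 1) → (B →ₗ[F] B))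
    (c : Fin (d + 1) → (B →ₗ[F] A)) :
    ur a b c = a 0 ∘ₗ ur (fun j => a (Fin.succ j)) (fun j => b (Fin.succ j))
      (fun j => c (Fin.succ j)) + c 0 ∘ₗ (List.ofFn fun j => b (Fin.succ j)).prod := by
  have h := prod_bk (d + 1) a b c
  rw [List.ofFn_succ, List.prod_cons, prod_bk, bk_mul] at h
  have h2 := congrArg (fun T => LinearMap.fst F A B ∘ₗ T ∘ₗ LinearMap.inr F A B) h
  simp only [fst_bk_inr] at h2
  exact h2.symm

theorem ur_add : ∀ (d : ℕ) (a : Fin d → (A →ₗ[F] A)) (b : Fin d → (B →ₗ[F] B))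
    (c c' : Fin d → (B →ₗ[F] A)), ur a b (c + c') = ur a b c + ur a b c' := by
  intro d
  induction d with
  | zero =>
    intro a b c c'
    have h1 : ∀ c : Fin 0 → (B →ₗ[F] A), ur a b c = 0 := by
      intro c
      unfold ur
      simp only [List.ofFn_zero, List.prod_nil]
      rfl
    rw [h1, h1, h1, add_zero]
  | succ d ih =>
    intro a b c c'
    rw [ur_succ, ur_succ, ur_succ]
    have h1 := ih (fun j => a (Fin.succ j)) (fun j => b (Fin.succ j)) (fun j => c (Fin.succ j))
      (fun j => c' (Fin.succ j))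
    have h2 : (fun j => (c + c') (Fin.succ j)) =
        (fun j => c (Fin.succ j)) + (fun j => c' (Fin.succ j)) := rfl
    rw [h2, h1, LinearMap.comp_add, Pi.add_apply, LinearMap.add_comp]
    abel

/-- the additive map -/
def urH {d : ℕ} (a : Fin d → (A →ₗ[F] A)) (b : Fin d → (B →ₗ[F] B)) :
    (Fin d → (B →ₗ[F] A)) →+ (B →ₗ[F] A) :=
  AddMonoidHom.mk' (ur a b) (ur_add d a b)

/-- the commutators -/
def LH {d : ℕ} (a : Fin d → (A →ₗ[F] A)) (b : Fin d → (B →ₗ[F] B)) :
    (Fin d → (B →ₗ[F] A)) →+ (Fin d → (B →ₗ[F] A)) :=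
  AddMonoidHom.mk' (fun h j => a j ∘ₗ h j - h j ∘ₗ b j) (fun h h' => by
    funext j
    simp only [Pi.add_apply, LinearMap.comp_add, LinearMap.add_comp]
    abel)

end Block

end ZON

open ZON in
theorem t_ZON : M_ZON := by
  classical
  intro hZRG hZCM hZAN F A B _ _ _ _ _ _ _ _ m hm2 hmq z hz a b ha hb
  set q := Nat.card F with hq
  set S := {c : Fin m.length → (B →ₗ[F] A) // (∀ j, bk (a j) (c j) (b j) ^ m.get j = 1) ∧
          (List.ofFn fun j => bk (a j) (c j) (b j)).prod = z • 1} with hS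
  haveI : Finite A := Module.finite_of_finite F
  haveI : Finite B := Module.finite_of_finite F
  haveI : Finite (B →ₗ[F] A) := Module.finite_of_finite F
  rcases isEmpty_or_nonempty S with hE | ⟨⟨c0, hc0⟩⟩
  · rw [Nat.card_of_isEmpty, zero_mul]
    exact Nat.zero_le _
  have hz1 : LinearMap.fst F A B ∘ₗ (z • (1 : (A × B) →ₗ[F] (A × B))) ∘ₗ LinearMap.inr F A B = 0 := by
    apply LinearMap.ext
    intro u
    change z • (0 : A) = 0
    rw [smul_zero]
  have hpa : (List.ofFn a).prod = z • 1 := by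
    have h1 := hc0.2
    rw [prod_bk] at h1
    have h2 := congrArg (fun T => LinearMap.fst F A B ∘ₗ T ∘ₗ LinearMap.inl F A B) h1
    simp only [fst_bk_inl] at h2
    exact h2
  have hpb : (List.ofFn b).prod = z • 1 := by
    have h1 := hc0.2
    rw [prod_bk] at h1
    have h2 := congrArg (fun T => LinearMap.snd F A B ∘ₗ T ∘ₗ LinearMap.inr F A B) h1
    simp only [snd_bk_inr] at h2
    exact h2
  -- the maps
  let L := LH a b
  let U := urH a b
  let f := U.comp L
  have hI : Nat.card {y : B →ₗ[F] A // ∃ h : Fin m.length → (B →ₗ[F] A),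
      ur a b (fun j => a j ∘ₗ h j - h j ∘ₗ b j) = y} = Nat.card f.range := by
    refine Nat.card_congr (Equiv.subtypeEquivRight fun y => ?_)
    rw [AddMonoidHom.mem_range]
    rfl
  have hker : Nat.card f.ker * Nat.card f.range = Nat.card (Fin m.length → (B →ₗ[F] A)) := by
    rw [← AddSubgroup.index_ker]
    exact AddSubgroup.card_mul_index _
  have hG : Nat.card (Fin m.length → (B →ₗ[F] A)) =
      q ^ (m.length * (Module.finrank F A * Module.finrank F B)) := by
    rw [Nat.card_pi, Finset.prod_const, Finset.card_univ, Fintype.card_fin,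
      Module.natCard_eq_pow_finrank (K := F), Module.finrank_linearMap, ← pow_mul, hq]
    congr 1
    ring
  -- the kernel of `L`
  have hkL : q ^ (pr a b) ≤ Nat.card L.ker := by
    have e1 : Nat.card L.ker =
        Nat.card {h : Fin m.length → (B →ₗ[F] A) // ∀ j, a j ∘ₗ h j = h j ∘ₗ b j} := by
      refine Nat.card_congr (Equiv.subtypeEquivRight fun h => ?_)
      rw [AddMonoidHom.mem_ker]
      constructor
      · intro h1 j
        exact sub_eq_zero.1 (congrFun h1 j)
      · intro h1
        funext j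
        exact sub_eq_zero.2 (h1 j)
    rw [e1, Nat.card_congr (Equiv.subtypePiEquivPi (p := fun j (h : B →ₗ[F] A) =>
      a j ∘ₗ h = h ∘ₗ b j)), Nat.card_pi]
    unfold pr
    rw [← Finset.prod_pow_eq_pow_sum]
    refine Finset.prod_le_prod' fun j _ => ?_
    exact hZCM F A B (m.get j) (by
      have := hm2 _ (List.get_mem m j)
      omega) (hmq _ (List.get_mem m j)) (a j) (b j) (ha j) (hb j)
  -- `(k : F) ≠ 0`
  have hk0 : ∀ j, ((m.get j : ℕ) : F) ≠ 0 := by
    intro j h0
    obtain ⟨t, ht⟩ := hmq _ (List.get_mem m j)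
    haveI : Fintype F := Fintype.ofFinite F
    have h1 : (q : F) = 0 := by
      rw [hq, Nat.card_eq_fintype_card]
      exact FiniteField.cast_card_eq_zero F
    have h2 : 1 ≤ q := Nat.card_pos
    have h3 : ((q - 1 : ℕ) : F) = -1 := by
      rw [Nat.cast_sub h2, h1]
      simp
    rw [ht] at h3
    push_cast at h3
    rw [h0, zero_mul] at h3
    exact one_ne_zero (neg_eq_zero.1 h3.symm)
  -- the injection
  have hex : ∀ c : S, ∃ h, L h = c.1 := by
    intro c
    have h1 : ∀ j, ∃ h : B →ₗ[F] A, c.1 j = a j ∘ₗ h - h ∘ₗ b j := fun j =>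
      hZRG F A B (m.get j) (by
        have := hm2 _ (List.get_mem m j)
        omega) (hk0 j) (a j) (b j) (c.1 j) (ha j) (hb j) (c.2.1 j)
    choose h hh using h1
    exact ⟨h, funext fun j => (hh j).symm⟩
  choose s hs using hex
  have hU : ∀ c : S, U c.1 = 0 := by
    intro c
    change ur a b c.1 = 0
    unfold ur
    rw [c.2.2]
    exact hz1
  have hinj : Nat.card S * Nat.card L.ker ≤ Nat.card f.ker := by
    rw [← Nat.card_prod]
    refine Nat.card_le_card_of_injective
      (fun p : S × L.ker => (⟨s p.1 + p.2.1, ?_⟩ : f.ker)) ?_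
    · rw [AddMonoidHom.mem_ker]
      change U (L (s p.1 + p.2.1)) = 0
      rw [map_add, hs, AddMonoidHom.mem_ker.1 p.2.2, add_zero, hU]
    · rintro ⟨c, h⟩ ⟨c', h'⟩ he
      have h1 : s c + h.1 = s c' + h'.1 := congrArg Subtype.val he
      have h2 := congrArg L h1
      rw [map_add, map_add, hs, hs, AddMonoidHom.mem_ker.1 h.2, AddMonoidHom.mem_ker.1 h'.2,
        add_zero, add_zero] at h2
      have h3 : c = c' := Subtype.ext h2
      subst h3
      have h4 : h = h' := Subtype.ext (add_left_cancel h1)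
      rw [h4]
  have hAN := hZAN F A B m.length z hz a b hpa hpb
  rw [hI] at hAN
  calc Nat.card S * q ^ (Module.finrank F A * Module.finrank F B + pr a b)
      = Nat.card S * q ^ (pr a b) * q ^ (Module.finrank F A * Module.finrank F B) := by
        rw [pow_add]
        ring
    _ ≤ Nat.card S * Nat.card L.ker * (Nat.card f.range * Nat.card (Hm a b)) :=
        Nat.mul_le_mul (Nat.mul_le_mul_left _ hkL) hAN
    _ ≤ Nat.card f.ker * (Nat.card f.range * Nat.card (Hm a b)) :=
        Nat.mul_le_mul_right _ hinj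
    _ = q ^ (m.length * (Module.finrank F A * Module.finrank F B)) * Nat.card (Hm a b) := by
        rw [← mul_assoc, hker, hG]

end

end FL0
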