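import Pool.Agent.FL0.StG
import Pool.Agent.RSF.JL

/-!
# The number of homomorphisms to `PSL_n(q)` (module CNT0)
-/

namespace FL0

open RSF Polynomial

noncomputable section

namespace CNT0

theorem card_fib {X Y : Type} [Finite X] (P : X → Prop) (f : X → Y) (S : Set Y) [Fintype S] :
    Nat.card {A : X // P A ∧ f A ∈ S} = ∑ s : S, Nat.card {A : X // P A ∧ f A = s} := by
  rw [← Nat.card_sigma]
  refine Nat.card_congr
    { toFun := fun A => ⟨⟨f A.1, A.2.2⟩, ⟨A.1, A.2.1, rfl⟩⟩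
      invFun := fun x => ⟨x.2.1, x.2.2.1, by rw [x.2.2.2]; exact x.1.2⟩
      left_inv := fun A => rfl
      right_inv := ?_ }
  rintro ⟨⟨s, hs⟩, ⟨A, hA, hAs⟩⟩
  change f A = s at hAs
  subst hAs
  rfl

theorem finPS (n : ℕ) (F : Type) [Field F] [Finite F] : Finite (PS n F) := by
  have := JL.finite_SL (F := F) (n := n)
  exact Quotient.finite _

theorem jn_pos (n : ℕ) (F : Type) [Field F] [Finite F] (k : ℕ) : 0 < jn (PS n F) k := by
  have := finPS n F
  have : Nonempty {x : PS n F // x ^ k = 1} := ⟨⟨1, one_pow k⟩⟩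
  exact Nat.card_pos

theorem JJ_eq (G : Type) [Group G] (m : List ℕ) : JJ G m = ∏ j : Fin m.length, jn G (m.get j) := by
  rw [JJ, ← List.prod_ofFn]
  congr 1
  conv_lhs => rw [← List.ofFn_get m]
  rw [List.map_ofFn]
  rfl

/-- the real inequality -/
theorem real_ineq {ι : Type} [Fintype ι] (N : ι → ℝ) (a G J g B e P Q T : ℝ) (d : ℕ) (hg : 0 < g)
    (hJ : 0 < J) (hι : (Fintype.card ι : ℝ) = g) (hN : ∑ s, N s = g ^ d * a)
    (hT : T = G * g) (hP : P = g ^ d * J) (hQ : Q ≤ B * P) (he : 0 ≤ e)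
    (h : ∀ s, |N s * T - P| ≤ Q * e) : |a * G / J - 1| ≤ B * e := by
  have h1 : |(∑ s, N s) * T - g * P| ≤ g * (Q * e) := by
    have h2 : (∑ s, N s) * T - g * P = ∑ s, (N s * T - P) := by
      rw [Finset.sum_sub_distrib, ← Finset.sum_mul, Finset.sum_const, Finset.card_univ,
        nsmul_eq_mul, hι]
    rw [h2]
    refine (Finset.abs_sum_le_sum_abs _ _).trans ((Finset.sum_le_sum fun s _ => h s).trans ?_)
    rw [Finset.sum_const, Finset.card_univ, nsmul_eq_mul, hι]
  have h3 : g * (Q * e) ≤ g * (B * P * e) :=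
    mul_le_mul_of_nonneg_left (mul_le_mul_of_nonneg_right hQ he) hg.le
  have h4 := h1.trans h3
  rw [hN, hT, hP] at h4
  have h5 : g ^ d * a * (G * g) - g * (g ^ d * J) = g ^ (d + 1) * J * (a * G / J - 1) := by
    field_simp
    ring
  have hpos : 0 < g ^ (d + 1) * J := by positivity
  rw [h5, abs_mul, abs_of_pos hpos] at h4
  refine le_of_mul_le_mul_left (h4.trans (le_of_eq ?_)) hpos
  ring

/-- absorption -/
theorem absorb {ι : Type} [Fintype ι] (k : ι → ℕ) (C : ι → ℝ) (hC : ∀ j, 0 ≤ C j) (x q c n : ℝ)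
    (hx : 1 ≤ x) (hq : 1 ≤ q) :
    (∏ j, (x ^ k j * q ^ C j)) * q ^ (-c * n) ≤
      x ^ (∑ j, (k j : ℝ) + ∑ j, C j) * q ^ (∑ j, (k j : ℝ) + ∑ j, C j - c * n) := by
  have hq0 : 0 < q := by linarith
  have hx0 : 0 < x := by linarith
  have hk : 0 ≤ ∑ j, (k j : ℝ) := Finset.sum_nonneg fun j _ => Nat.cast_nonneg _
  have hCs : 0 ≤ ∑ j, C j := Finset.sum_nonneg fun j _ => hC j
  rw [Finset.prod_mul_distrib, Finset.prod_pow_eq_pow_sum, ← Real.rpow_sum_of_pos hq0, mul_assoc,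
    ← Real.rpow_add hq0, ← Real.rpow_natCast, Nat.cast_sum]
  refine mul_le_mul (Real.rpow_le_rpow_of_exponent_le hx (by linarith))
    (Real.rpow_le_rpow_of_exponent_le hq (by linarith)) (Real.rpow_nonneg hq0.le _)
    (Real.rpow_nonneg hx0.le _)

end CNT0

open CNT0 in
theorem t_CNT0 : M_CNT0 := by
  intro hLFH hSMC hABS hPOL m hm hσ
  obtain ⟨c, r1, hc, hr1, h1⟩ := hSMC m hm hσ
  have hA : ∀ k : ℕ, ∃ C : ℝ, 0 ≤ C ∧ (1 ≤ k → ∀ n, 1 ≤ n → ∀ (F : Type) [Field F] [Finite F],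
      k ∣ Nat.card F - 1 → Ord n F k →
        ∑ᶠ A : CA n F k, (Nat.card F : ℝ) ^ (del k A.1.1 / 2) ≤
          ((n : ℝ) + 1) ^ k * (Nat.card F : ℝ) ^ C * Nat.card (CA n F k)) := by
    intro k
    by_cases hk : 1 ≤ k
    · obtain ⟨C, hC, h⟩ := hABS k hk
      exact ⟨C, hC, fun _ => h⟩
    · exact ⟨0, le_rfl, fun h => absurd h hk⟩
  choose C hC0 hC using hA
  have hK : 0 ≤ ∑ j : Fin m.length, ((m.get j : ℕ) : ℝ) + ∑ j : Fin m.length, C (m.get j) :=
    add_nonneg (Finset.sum_nonneg fun j _ => Nat.cast_nonneg _)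
      (Finset.sum_nonneg fun j _ => hC0 _)
  obtain ⟨r2, h2⟩ := hPOL c _ hc hK
  refine ⟨c / 2, max r1 r2, by positivity, le_max_of_le_left hr1, fun n hn F _ _ hk hO => ?_⟩
  have hn1 : r1 ≤ n := (le_max_left _ _).trans hn
  have hn2 : r2 ≤ n := (le_max_right _ _).trans hn
  have hq : (2 : ℝ) ≤ Nat.card F := by
    have h3 : 1 < Nat.card F := Finite.one_lt_card
    exact_mod_cast h3
  have hfin := JL.finite_SL (F := F) (n := n)
  have hfp := finPS n F
  have hft : Fintype (Subgroup.center (SL n F) : Set (SL n F)) := Fintype.ofFinite _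
  have hg : 0 < Nat.card (Subgroup.center (SL n F)) := Nat.card_pos
  obtain ⟨hL1, hL2⟩ := hLFH n F
  have hcount := hL2 m (fun _ => True)
  have e1 : Nat.card {ρ : OGroup 0 m →* PS n F // True} = hN n F m :=
    Nat.card_congr (Equiv.subtypeUnivEquiv fun _ => trivial)
  have e2 : Nat.card {A : Fin m.length → SL n F //
      (∀ j, A j ^ m.get j ∈ Subgroup.center (SL n F)) ∧ True ∧
        (List.ofFn A).prod ∈ Subgroup.center (SL n F)} =
      ∑ s : (Subgroup.center (SL n F) : Set (SL n F)), Nat.card {A : Fin m.length → SL n F //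
        (∀ j, A j ^ m.get j ∈ Subgroup.center (SL n F)) ∧ (List.ofFn A).prod = s} := by
    rw [← card_fib (fun A : Fin m.length → SL n F =>
      ∀ j, A j ^ m.get j ∈ Subgroup.center (SL n F)) (fun A => (List.ofFn A).prod)]
    refine Nat.card_congr (Equiv.subtypeEquivRight fun A => ?_)
    simp
  rw [e1, e2] at hcount
  have hP : ∏ j, (Nat.card (CA n F (m.get j)) : ℝ) =
      (Nat.card (Subgroup.center (SL n F)) : ℝ) ^ m.length * JJ (PS n F) m := by
    rw [JJ_eq, Nat.cast_prod]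
    simp only [hL1, Nat.cast_mul]
    rw [Finset.prod_mul_distrib, Finset.prod_const, Finset.card_univ, Fintype.card_fin]
  have hQ : (∏ j, ∑ᶠ A : CA n F (m.get j), (Nat.card F : ℝ) ^ (del (m.get j) A.1.1 / 2)) ≤
      (∏ j : Fin m.length, (((n : ℝ) + 1) ^ m.get j * (Nat.card F : ℝ) ^ C (m.get j))) *
        ∏ j, (Nat.card (CA n F (m.get j)) : ℝ) := by
    rw [← Finset.prod_mul_distrib]
    refine Finset.prod_le_prod (fun j _ => ?_) fun j _ => ?_
    · exact finsum_nonneg fun A => Real.rpow_nonneg (by linarith) _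
    · have hj : m.get j ∈ m := List.get_mem m j
      exact hC (m.get j) (by have := hm _ hj; omega) n (by omega) F (hk _ hj) (hO _ hj)
  have hcard : (Nat.card (SL n F) : ℝ) =
      (Nat.card (PS n F) : ℝ) * Nat.card (Subgroup.center (SL n F)) := by
    rw [Subgroup.card_eq_card_quotient_mul_card_subgroup (Subgroup.center (SL n F)), Nat.cast_mul]
  have hJ : (0 : ℝ) < JJ (PS n F) m := by
    rw [JJ_eq]
    exact_mod_cast Finset.prod_pos fun j _ => jn_pos n F (m.get j)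
  have key := real_ineq (fun s : (Subgroup.center (SL n F) : Set (SL n F)) =>
      (Nat.card {A : Fin m.length → SL n F //
        (∀ j, A j ^ m.get j ∈ Subgroup.center (SL n F)) ∧ (List.ofFn A).prod = s} : ℝ))
    (hN n F m) (Nat.card (PS n F)) (JJ (PS n F) m) (Nat.card (Subgroup.center (SL n F)))
    (∏ j : Fin m.length, (((n : ℝ) + 1) ^ m.get j * (Nat.card F : ℝ) ^ C (m.get j)))
    ((Nat.card F : ℝ) ^ (-c * (n : ℝ))) _ _ _ m.length (by exact_mod_cast hg) hJ
    (by rw [← Nat.card_eq_fintype_card]; rfl) (by exact_mod_cast hcount) hcard hP hQ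
    (Real.rpow_nonneg (by linarith) _) fun s => h1 n hn1 F hk hO s.1 s.2
  refine key.trans ((absorb _ _ (fun j => hC0 (m.get j)) ((n : ℝ) + 1) (Nat.card F : ℝ) c n ?_
    (by linarith)).trans ?_)
  · have : (0 : ℝ) ≤ n := Nat.cast_nonneg n
    linarith
  · exact h2 n hn2 (Nat.card F) hq

end

end FL0
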