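import Pool.Agent.FL0.StG

/-!
# FL0_DIA: elements of order dividing `q - 1` are diagonalizable
-/

set_option autoImplicit false

namespace FL0

open Polynomial

namespace DIA

variable {F V : Type} [Field F] [AddCommGroup V] [Module F V]

theorem ker_eq (x : V →ₗ[F] V) (ζ : F) :
    LinearMap.ker (x - ζ • LinearMap.id) = Module.End.eigenspace x ζ := by
  rw [Module.End.eigenspace_def]
  rfl

/-- the sum of the kernels of coprime factors -/
theorem sup_ker (x : V →ₗ[F] V) (s : Finset F) :
    ⨆ a ∈ s, Module.End.eigenspace x a = LinearMap.ker (aeval x (∏ a ∈ s, (X - C a))) := by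
  classical
  induction s using Finset.induction_on with
  | empty =>
    rw [Finset.prod_empty, map_one]
    simp only [Finset.notMem_empty, not_false_eq_true, iSup_neg, iSup_bot]
    symm
    rw [Module.End.one_eq_id]
    exact LinearMap.ker_id
  | insert a s ha ih =>
    rw [Finset.iSup_insert, ih, Finset.prod_insert ha,
      ← Polynomial.sup_ker_aeval_eq_ker_aeval_mul_of_coprime]
    · congr 1
      rw [map_sub, aeval_X, aeval_C, Module.End.eigenspace_def, Algebra.algebraMap_eq_smul_one]
    · refine IsCoprime.prod_right fun b hb => ?_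
      exact Polynomial.isCoprime_X_sub_C_of_isUnit_sub
        (IsUnit.mk0 _ (sub_ne_zero.2 (fun h => ha (h ▸ hb))))

theorem prod_eq (F : Type) [Field F] [Fintype F] :
    ∏ a : F, (X - C a) = X ^ Fintype.card F - X := by
  classical
  have h1 : 1 < Fintype.card F := Fintype.one_lt_card
  have hmon : (X ^ Fintype.card F - X : F[X]).Monic := by
    apply Monic.sub_of_left (monic_X_pow _)
    rw [degree_X, degree_X_pow]
    exact_mod_cast h1
  have hr := FiniteField.roots_X_pow_card_sub_X F
  have h2 := prod_multiset_X_sub_C_of_monic_of_roots_card_eq hmon (by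
    rw [hr, FiniteField.X_pow_card_sub_X_natDegree_eq F h1]
    rfl)
  rw [hr] at h2
  exact h2

end DIA

theorem t_DIA : S_DIA := by
  classical
  intro F V _ _ _ _ _ k hk hkq x hx
  have : Fintype F := Fintype.ofFinite F
  have hq : Nat.card F = Fintype.card F := Nat.card_eq_fintype_card
  -- `x ^ q = x`
  have hxq : aeval x (∏ a : F, (X - C a)) = 0 := by
    rw [DIA.prod_eq, map_sub, map_pow, aeval_X]
    obtain ⟨t, ht⟩ := hkq
    have h1 : 1 < Fintype.card F := Fintype.one_lt_card
    have h2 : Fintype.card F = k * t + 1 := by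
      rw [← hq, ← ht, hq]
      omega
    rw [h2, pow_succ, pow_mul, hx, one_pow, one_mul, sub_self]
  have htop : ⨆ a : F, Module.End.eigenspace x a = ⊤ := by
    have h := DIA.sup_ker x Finset.univ
    rw [hxq] at h
    rw [← LinearMap.ker_zero (M := V) (M₂ := V) (τ₁₂ := RingHom.id F)]
    rw [← h]
    simp
  have hint : DirectSum.IsInternal (fun a : F => Module.End.eigenspace x a) :=
    DirectSum.isInternal_submodule_of_iSupIndep_of_iSup_eq_top
      (Module.End.eigenspaces_iSupIndep x) htop
  let B := hint.collectedBasis fun a => Module.finBasis F (Module.End.eigenspace x a)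
  have hcard : Fintype.card (Σ a : F, Fin (Module.finrank F (Module.End.eigenspace x a))) =
      Module.finrank F V := (Module.finrank_eq_card_basis B).symm
  let e : (Σ a : F, Fin (Module.finrank F (Module.End.eigenspace x a))) ≃
      Fin (Module.finrank F V) := Fintype.equivFinOfCardEq hcard
  have hBx : ∀ s, x (B s) = s.1 • B s := fun s =>
    Module.End.mem_eigenspace_iff.1 (hint.collectedBasis_mem _ s)
  refine ⟨B.reindex e, fun i => (e.symm i).1, fun i => ?_, fun i => ?_, fun ζ => ?_⟩
  · rw [Module.Basis.reindex_apply]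
    exact hBx _
  · have h1 : ∀ m : ℕ, (x ^ m) (B (e.symm i)) = (e.symm i).1 ^ m • B (e.symm i) := by
      intro m
      induction m with
      | zero => simp
      | succ m ih =>
        rw [pow_succ', Module.End.mul_apply, ih, map_smul, hBx, smul_smul, pow_succ]
    have h2 := h1 k
    rw [hx, Module.End.one_apply] at h2
    have h3 : ((e.symm i).1 ^ k - 1) • B (e.symm i) = 0 := by
      rw [sub_smul, ← h2, one_smul, sub_self]
    rcases smul_eq_zero.1 h3 with h4 | h4
    · exact sub_eq_zero.1 h4
    · exact absurd h4 (B.ne_zero _)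
  · have h1 : Nat.card {i : Fin (Module.finrank F V) // (e.symm i).1 = ζ} =
        Nat.card {s : (Σ a : F, Fin (Module.finrank F (Module.End.eigenspace x a))) // s.1 = ζ} :=
      Nat.card_congr (e.symm.subtypeEquiv fun i => Iff.rfl)
    rw [h1, Nat.card_congr (Equiv.sigmaSubtype ζ), Nat.card_fin]
    unfold ev
    rw [DIA.ker_eq]

end FL0
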