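import Pool.Agent.FL0.StG

/-!
# Module EVS: eigenspaces of elements of finite order over a finite field
-/

set_option autoImplicit false

namespace FL0

open RSF Polynomial

noncomputable section

namespace EVS

section

variable {F V : Type} [Field F] [AddCommGroup V] [Module F V]

theorem ev_smul (x : V →ₗ[F] V) {c : F} (hc : c ≠ 0) (ζ : F) :
    ev (c • x) ζ = ev x (c⁻¹ * ζ) := by
  have h : c • x - ζ • LinearMap.id = c • (x - (c⁻¹ * ζ) • (LinearMap.id : V →ₗ[F] V)) := by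
    rw [smul_sub, smul_smul, ← mul_assoc, mul_inv_cancel₀ hc, one_mul]
  unfold ev
  rw [h, LinearMap.ker_smul _ _ hc]

theorem sq_smul (x : V →ₗ[F] V) {c : F} (hc : c ≠ 0) : sq (c • x) = sq x := by
  unfold sq
  simp only [ev_smul x hc]
  exact finsum_comp_equiv (Equiv.mulLeft₀ c⁻¹ (inv_ne_zero hc)) (f := fun ζ => ev x ζ ^ 2)

omit [Field F] in
theorem card_fib {d : ℕ} [Fintype F] (l : Fin d → F) : ∑ ζ : F, Nat.card {i // l i = ζ} = d := by
  classical
  have h := Fintype.card_congr (Equiv.sigmaFiberEquiv l)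
  rw [Fintype.card_sigma, Fintype.card_fin] at h
  refine (Finset.sum_congr rfl fun ζ _ => ?_).trans h
  rw [Nat.card_eq_fintype_card]

omit [Field F] in
/-- two functions with fibres of the same cardinality -/
theorem perm {d : ℕ} (l l' : Fin d → F)
    (h : ∀ ζ : F, Nat.card {i // l i = ζ} = Nat.card {i // l' i = ζ}) :
    ∃ π : Fin d ≃ Fin d, ∀ i, l' (π i) = l i := by
  classical
  have e : ∀ ζ : F, ({i // l i = ζ} ≃ {i // l' i = ζ}) := fun ζ =>
    Fintype.equivOfCardEq (by rw [← Nat.card_eq_fintype_card, ← Nat.card_eq_fintype_card, h ζ])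
  refine ⟨(Equiv.sigmaFiberEquiv l).symm.trans
    ((Equiv.sigmaCongrRight e).trans (Equiv.sigmaFiberEquiv l')), fun i => ?_⟩
  exact (e (l i) ⟨i, rfl⟩).2

end

end EVS

theorem t_EVS : M_EVS := by
  intro hDIA F V _ _ _ _ _ k hk hkq
  classical
  have : Fintype F := Fintype.ofFinite F
  obtain ⟨R, hR⟩ : ∃ R : Finset F, R = nthRootsFinset k (1 : F) := ⟨_, rfl⟩
  have hRm : ∀ ζ : F, ζ ∈ R ↔ ζ ^ k = 1 := by
    intro ζ
    rw [hR, mem_nthRootsFinset (by omega)]
  have hRc : R.card ≤ k := by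
    rw [hR]
    unfold nthRootsFinset
    exact (Multiset.toFinset_card_le _).trans (card_nthRoots k 1)
  have hz : ∀ x : V →ₗ[F] V, x ^ k = 1 → ∀ ζ, ζ ^ k ≠ 1 → ev x ζ = 0 := by
    intro x hx ζ hζ
    obtain ⟨b, l, h1, h2, h3⟩ := hDIA F V k hk hkq x hx
    rw [h3 ζ]
    have : IsEmpty {i // l i = ζ} := ⟨fun i => hζ (by rw [← i.2]; exact h2 _)⟩
    exact Nat.card_of_isEmpty
  have hsum : ∀ x : V →ₗ[F] V, x ^ k = 1 → ∑ ζ, ev x ζ = Module.finrank F V := by
    intro x hx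
    obtain ⟨b, l, h1, h2, h3⟩ := hDIA F V k hk hkq x hx
    rw [← EVS.card_fib l]
    exact Finset.sum_congr rfl fun ζ _ => h3 ζ
  refine ⟨?_, ?_, hz, ?_, fun x c hc => EVS.sq_smul x hc⟩
  · intro x y hx hy hxy
    have hpow : ∀ z : GV F V, z ^ k = 1 → (z : V →ₗ[F] V) ^ k = 1 := fun z hz => by
      have h := congrArg (LinearEquiv.automorphismGroup.toLinearMapMonoidHom (R := F) (M := V)) hz
      rw [map_pow, map_one] at h
      exact h
    have hx' := hpow x hx
    have hy' := hpow y hy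
    obtain ⟨b, l, h1, h2, h3⟩ := hDIA F V k hk hkq x hx'
    obtain ⟨b', l', h1', h2', h3'⟩ := hDIA F V k hk hkq y hy'
    obtain ⟨π, hπ⟩ := EVS.perm l l' fun ζ => by rw [← h3, ← h3', hxy]
    obtain ⟨g, hg⟩ : ∃ g : GV F V, g = b.equiv b' π := ⟨_, rfl⟩
    have hgb : ∀ i, g (b i) = b' (π i) := fun i => by
      rw [hg, Module.Basis.equiv_apply]
    refine isConj_iff.2 ⟨g, ?_⟩
    rw [mul_inv_eq_iff_eq_mul]
    apply LinearEquiv.toLinearMap_injective
    refine b.ext fun i => ?_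
    change g ((x : V →ₗ[F] V) (b i)) = (y : V →ₗ[F] V) (g (b i))
    rw [h1, map_smul, hgb, h1', hπ]
  · intro x hx
    have hk' : (0 : ℝ) < k := by exact_mod_cast hk
    have e1 : sq x = ∑ ζ ∈ R, ev x ζ ^ 2 := by
      unfold sq
      rw [finsum_eq_sum_of_fintype]
      symm
      refine Finset.sum_subset (Finset.subset_univ _) fun ζ _ hζ => ?_
      rw [hz x hx ζ (fun h => hζ ((hRm ζ).2 h))]
      rfl
    have e2 : ∑ ζ ∈ R, ev x ζ = Module.finrank F V := by
      rw [← hsum x hx]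
      refine Finset.sum_subset (Finset.subset_univ _) fun ζ _ hζ => ?_
      exact hz x hx ζ (fun h => hζ ((hRm ζ).2 h))
    have e3 : (∑ ζ ∈ R, (ev x ζ : ℝ)) ^ 2 ≤ R.card * ∑ ζ ∈ R, (ev x ζ : ℝ) ^ 2 :=
      sq_sum_le_card_mul_sum_sq
    have e4 : (∑ ζ ∈ R, (ev x ζ : ℝ)) = Module.finrank F V := by
      rw [← e2]
      push_cast
      rfl
    have e5 : (sq x : ℝ) = ∑ ζ ∈ R, (ev x ζ : ℝ) ^ 2 := by
      rw [e1]
      push_cast
      rfl
    rw [div_le_iff₀ hk', e5, ← e4]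
    have h6 : (0 : ℝ) ≤ ∑ ζ ∈ R, (ev x ζ : ℝ) ^ 2 := Finset.sum_nonneg fun _ _ => by positivity
    have h7 : (R.card : ℝ) ≤ k := by exact_mod_cast hRc
    calc _ ≤ R.card * ∑ ζ ∈ R, (ev x ζ : ℝ) ^ 2 := e3
      _ ≤ k * ∑ ζ ∈ R, (ev x ζ : ℝ) ^ 2 := mul_le_mul_of_nonneg_right h7 h6
      _ = _ := mul_comm _ _
  · obtain ⟨P, hP⟩ : ∃ P : Finset (F → ℕ), P = Fintype.piFinset fun ζ : F =>
        if ζ ∈ R then Finset.range (Module.finrank F V + 1) else {0} := ⟨_, rfl⟩
    have hPc : P.card = (Module.finrank F V + 1) ^ R.card := by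
      rw [hP, Fintype.card_piFinset]
      have h1 : ∀ ζ : F, (if ζ ∈ R then Finset.range (Module.finrank F V + 1) else {0}).card =
          if ζ ∈ R then Module.finrank F V + 1 else 1 := by
        intro ζ
        split_ifs
        · rw [Finset.card_range]
        · rw [Finset.card_singleton]
      rw [Finset.prod_congr rfl fun ζ _ => h1 ζ, Finset.prod_ite_mem, Finset.univ_inter,
        Finset.prod_const]
    have hsub : {β : F → ℕ | ∃ x : V →ₗ[F] V, x ^ k = 1 ∧ ∀ ζ, ev x ζ = β ζ} ⊆ (P : Set (F → ℕ)) := by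
      rintro β ⟨x, hx, hβ⟩
      rw [Finset.mem_coe, hP, Fintype.mem_piFinset]
      intro ζ
      split_ifs with h
      · rw [Finset.mem_range, ← hβ ζ, Nat.lt_succ_iff, ← hsum x hx]
        exact Finset.single_le_sum (f := fun ζ => ev x ζ) (fun _ _ => Nat.zero_le _)
          (Finset.mem_univ ζ)
      · rw [Finset.mem_singleton, ← hβ ζ]
        exact hz x hx ζ fun h' => h ((hRm ζ).2 h')
    calc _ ≤ (P : Set (F → ℕ)).ncard := Set.ncard_le_ncard hsub P.finite_toSet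
      _ = P.card := Set.ncard_coe_finset P
      _ = (Module.finrank F V + 1) ^ R.card := hPc
      _ ≤ _ := Nat.pow_le_pow_right (Nat.succ_pos _) hRc

end

end FL0
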