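import Pool.Agent.FL0.StR

/-!
# FL0_HNF: Harder-Narasimhan
-/

set_option autoImplicit false

namespace FL0

namespace HNF

variable {F M N : Type} [Field F] [AddCommGroup M] [Module F M] [AddCommGroup N] [Module F N]

/-- the projection to the eigenspace -/
def pj (ζ : F) (n : ℕ) (y : M →ₗ[F] M) : M →ₗ[F] M := 1 - (y - ζ • 1) ^ n

theorem pj_comm (ζ : F) (n : ℕ) {φ : M →ₗ[F] N} {y : M →ₗ[F] M} {z : N →ₗ[F] N}
    (h : φ ∘ₗ y = z ∘ₗ φ) : φ ∘ₗ pj ζ n y = pj ζ n z ∘ₗ φ := by
  have h1 : ∀ v, φ ((y - ζ • 1) v) = (z - ζ • 1) (φ v) := by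
    intro v
    have h2 := LinearMap.congr_fun h v
    rw [LinearMap.comp_apply, LinearMap.comp_apply] at h2
    rw [LinearMap.sub_apply, LinearMap.sub_apply, map_sub, h2, LinearMap.smul_apply,
      LinearMap.smul_apply, map_smul, Module.End.one_apply, Module.End.one_apply]
  have h3 : ∀ (k : ℕ) (v : M), φ (((y - ζ • 1) ^ k) v) = ((z - ζ • 1) ^ k) (φ v) := by
    intro k
    induction k with
    | zero => intro v; simp
    | succ k ih =>
      intro v
      rw [pow_succ', pow_succ', Module.End.mul_apply, Module.End.mul_apply, h1, ih]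
  ext v
  rw [LinearMap.comp_apply, LinearMap.comp_apply, pj, pj, LinearMap.sub_apply,
    LinearMap.sub_apply, map_sub, h3, Module.End.one_apply, Module.End.one_apply]

theorem rank [FiniteDimensional F M] (φ : M →ₗ[F] N) (K : Submodule F M) :
    Module.finrank F (K.map φ) + Module.finrank F (LinearMap.ker φ ⊓ K : Submodule F M) =
      Module.finrank F K := by
  have h1 := LinearMap.finrank_range_add_finrank_ker (φ.domRestrict K)
  rw [LinearMap.range_domRestrict, LinearMap.ker_domRestrict] at h1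
  rw [← h1, inf_comm (LinearMap.ker φ) K, ← Submodule.map_comap_subtype,
    Submodule.finrank_map_subtype_eq]

/-- rank and nullity for the ranges of projections -/
theorem rankP [FiniteDimensional F M] (φ : M →ₗ[F] N) (e : M →ₗ[F] M) (e' : N →ₗ[F] N)
    (h : φ ∘ₗ e = e' ∘ₗ φ) (hid : ∀ v, e (e v) = e v) (U : Submodule F M)
    (hU : ∀ u ∈ U, e u ∈ U) :
    Module.finrank F ((U.map φ).map e') +
      Module.finrank F ((LinearMap.ker φ ⊓ U : Submodule F M).map e) =
      Module.finrank F (U.map e) := by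
  have h0 : ∀ v, φ (e v) = e' (φ v) := fun v => LinearMap.congr_fun h v
  have h1 : (U.map φ).map e' = (U.map e).map φ := by
    rw [← Submodule.map_comp, ← Submodule.map_comp, h]
  have h2 : (LinearMap.ker φ ⊓ U : Submodule F M).map e = LinearMap.ker φ ⊓ U.map e := by
    ext v
    constructor
    · rintro ⟨u, ⟨hu1, hu2⟩, rfl⟩
      refine ⟨?_, ⟨u, hu2, rfl⟩⟩
      have hu1' : φ u = 0 := hu1
      change φ (e u) = 0
      rw [h0, hu1', map_zero]
    · rintro ⟨hv, ⟨u, hu, rfl⟩⟩
      exact ⟨e u, ⟨hv, hU u hu⟩, hid u⟩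
  rw [h1, h2]
  exact rank φ (U.map e)

section proj

variable {V : Type} [AddCommGroup V] [Module F V]

theorem pj_fix {ζ : F} {n : ℕ} (hn : 1 ≤ n) {y : V →ₗ[F] V} {v : V} (hv : (y - ζ • 1) v = 0) :
    pj ζ n y v = v := by
  obtain ⟨k, rfl⟩ : ∃ k, n = k + 1 := ⟨n - 1, by omega⟩
  rw [pj, LinearMap.sub_apply, Module.End.one_apply, pow_succ, Module.End.mul_apply, hv, map_zero,
    sub_zero]

theorem pj_eig [Finite F] [FiniteDimensional F V] (hDIA : S_DIA) (ζ : F) {y : V →ₗ[F] V} {k : ℕ}
    (hk : 1 ≤ k) (hkq : k ∣ Nat.card F - 1) (hy : y ^ k = 1) (v : V) :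
    (y - ζ • 1) (pj ζ (Nat.card F - 1) y v) = 0 := by
  have : Fintype F := Fintype.ofFinite F
  obtain ⟨b, l, hb, -, -⟩ := hDIA F V k hk hkq y hy
  have h1 : ∀ i, (y - ζ • 1) (b i) = (l i - ζ) • b i := by
    intro i
    rw [LinearMap.sub_apply, LinearMap.smul_apply, Module.End.one_apply, hb, sub_smul]
  have h2 : ∀ (n : ℕ) i, ((y - ζ • 1) ^ n) (b i) = (l i - ζ) ^ n • b i := by
    intro n i
    induction n with
    | zero => simp
    | succ n ih =>
      rw [pow_succ', Module.End.mul_apply, ih, map_smul, h1, smul_smul, pow_succ]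
  have h3 : (y - ζ • 1) ∘ₗ pj ζ (Nat.card F - 1) y = 0 := by
    refine b.ext fun i => ?_
    have h4 : pj ζ (Nat.card F - 1) y (b i) = (1 - (l i - ζ) ^ (Nat.card F - 1)) • b i := by
      rw [pj, LinearMap.sub_apply, Module.End.one_apply, h2, sub_smul, one_smul]
    rw [LinearMap.comp_apply, h4, map_smul, h1, smul_smul, sub_mul, one_mul, ← pow_succ,
      Nat.card_eq_fintype_card, Nat.sub_add_cancel Fintype.card_pos, FiniteField.pow_card,
      sub_self, zero_smul]
    rfl
  exact LinearMap.congr_fun h3 v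

theorem pj_mem {ζ : F} {n : ℕ} {y : V →ₗ[F] V} {U : Submodule F V} (hU : ∀ u ∈ U, y u ∈ U)
    {u : V} (hu : u ∈ U) : pj ζ n y u ∈ U := by
  have h1 : ∀ (k : ℕ), ((y - ζ • 1) ^ k) u ∈ U := by
    intro k
    induction k with
    | zero => exact hu
    | succ k ih =>
      rw [pow_succ', Module.End.mul_apply, LinearMap.sub_apply, LinearMap.smul_apply,
        Module.End.one_apply]
      exact U.sub_mem (hU _ ih) (U.smul_mem _ ih)
  rw [pj, LinearMap.sub_apply, Module.End.one_apply]
  exact U.sub_mem hu (h1 n)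

end proj

theorem hpos' [FiniteDimensional F M] (f : M →ₗ[F] N) (hf : f ≠ 0) :
    0 < Module.finrank F (LinearMap.range f) := by
  rw [Module.finrank_pos_iff]
  refine (Submodule.nontrivial_iff_ne_bot).2 fun h => hf ?_
  exact LinearMap.range_eq_bot.1 h

theorem arith {r D d w ρ n : ℕ} (h1 : (r + D) * w < D * (ρ + w)) (h2 : d * w ≤ D * n)
    (h3 : r + d = D) (h4 : ρ + n = w) : False := by
  subst h3
  subst h4
  nlinarith

end HNF

open HNF in
theorem t_HNF : M_HNF := by
  classical
  intro hDIA F V _ _ _ _ _ d x j k hk hkq hxk ζ W₁ h₁ hlt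
  have hV : Finite V := Module.finite_of_finite F
  have hq1 : 1 ≤ Nat.card F - 1 := by
    have : 1 < Nat.card F := Finite.one_lt_card
    omega
  let e : V →ₗ[F] V := pj ζ (Nat.card F - 1) (x j)
  have hone : (1 : V →ₗ[F] V) = LinearMap.id := rfl
  have he1 : ∀ v, (x j - ζ • 1) (e v) = 0 := pj_eig hDIA ζ hk hkq hxk
  have hid : ∀ v, e (e v) = e v := fun v => pj_fix hq1 (he1 v)
  have heU : ∀ U : Submodule F V, Inv x U → ∀ u ∈ U, e u ∈ U := fun U hU u hu =>
    pj_mem (U := U) (fun v hv => hU j hv) hu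
  -- the degrees
  have hdeg : ∀ (U : Submodule F V) (h : Inv x U),
      ev (sb x U h j) ζ = Module.finrank F (U.map e) := by
    intro U h
    have h0 : (LinearMap.ker (sb x U h j - ζ • LinearMap.id)).map U.subtype = U.map e := by
      ext v
      constructor
      · rintro ⟨u, hu, rfl⟩
        refine ⟨u.1, u.2, pj_fix hq1 ?_⟩
        have h1 := congrArg Subtype.val (LinearMap.mem_ker.1 hu)
        exact h1
      · rintro ⟨u, hu, rfl⟩
        refine ⟨⟨e u, heU U h u hu⟩, ?_, rfl⟩
        apply Subtype.ext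
        exact he1 u
    unfold ev
    rw [← Submodule.finrank_map_subtype_eq, h0]
  have hdegT : ev (x j) ζ = Module.finrank F ((⊤ : Submodule F V).map e) := by
    have h0 : LinearMap.ker (x j - ζ • LinearMap.id) = (⊤ : Submodule F V).map e := by
      ext v
      constructor
      · intro hv
        exact ⟨v, Submodule.mem_top, pj_fix hq1 (LinearMap.mem_ker.1 hv)⟩
      · rintro ⟨u, -, rfl⟩
        exact he1 u
    unfold ev
    rw [h0]
  rw [hdegT, hdeg] at hlt
  -- the maximal slope
  let S : Set (Submodule F V) := {U | Inv x U ∧ U ≠ ⊥}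
  have hfin : Finite (Submodule F V) :=
    Finite.of_injective (fun U => (U : Set V)) SetLike.coe_injective
  let sl : Submodule F V → ℚ ×ₗ ℕ := fun U =>
    toLex ((Module.finrank F (U.map e) : ℚ) / Module.finrank F U, Module.finrank F U)
  have hW₁ : W₁ ∈ S := by
    refine ⟨h₁, ?_⟩
    rintro rfl
    rw [Submodule.map_bot, finrank_bot] at hlt
    simp at hlt
  obtain ⟨W, ⟨hW, hWb⟩, hmax⟩ := Set.exists_max_image S sl (Set.toFinite S) ⟨W₁, hW₁⟩
  have hpos : ∀ U : Submodule F V, U ≠ ⊥ → 0 < Module.finrank F U := by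
    intro U hU
    rw [Module.finrank_pos_iff]
    exact (Submodule.nontrivial_iff_ne_bot).2 hU
  have hc : ∀ U ∈ S, Module.finrank F (U.map e) * Module.finrank F W ≤
      Module.finrank F (W.map e) * Module.finrank F U ∧
      (Module.finrank F W < Module.finrank F U → Module.finrank F (U.map e) * Module.finrank F W <
        Module.finrank F (W.map e) * Module.finrank F U) := by
    intro U hU
    have h1 := hmax U hU
    have hu : (0 : ℚ) < Module.finrank F U := by exact_mod_cast hpos U hU.2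
    have hw : (0 : ℚ) < Module.finrank F W := by exact_mod_cast hpos W hWb
    rcases Prod.Lex.toLex_le_toLex.1 h1 with h2 | ⟨h2, h3⟩
    · have h4 : (Module.finrank F (U.map e) : ℚ) / Module.finrank F U <
          (Module.finrank F (W.map e) : ℚ) / Module.finrank F W := h2
      rw [div_lt_div_iff₀ hu hw] at h4
      have h5 : Module.finrank F (U.map e) * Module.finrank F W <
        Module.finrank F (W.map e) * Module.finrank F U := by exact_mod_cast h4
      exact ⟨h5.le, fun _ => h5⟩
    · have h4 : (Module.finrank F (U.map e) : ℚ) / Module.finrank F U =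
          (Module.finrank F (W.map e) : ℚ) / Module.finrank F W := h2
      rw [div_eq_div_iff hu.ne' hw.ne'] at h4
      have h5 : Module.finrank F (U.map e) * Module.finrank F W =
        Module.finrank F (W.map e) * Module.finrank F U := by exact_mod_cast h4
      exact ⟨h5.le, fun h => absurd h3 (not_le.2 h)⟩
  refine ⟨W, hW, hWb, ?_, fun f => ?_⟩
  · rintro rfl
    have h1 := (hc W₁ hW₁).1
    rw [finrank_top] at h1
    omega
  -- a nonzero homomorphism
  by_contra hf
  have hsub : W.subtype ∘ₗ pj ζ (Nat.card F - 1) (sb x W hW j) = e ∘ₗ W.subtype :=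
    pj_comm ζ _ rfl
  have hmk : W.mkQ ∘ₗ e = pj ζ (Nat.card F - 1) (qt x W hW j) ∘ₗ W.mkQ :=
    pj_comm ζ _ rfl
  have hfj := pj_comm ζ (Nat.card F - 1) (f.2 j)
  have hsub' : ∀ v, ((pj ζ (Nat.card F - 1) (sb x W hW j) v : W) : V) = e v := fun v =>
    LinearMap.congr_fun hsub v
  have hidW : ∀ v, pj ζ (Nat.card F - 1) (sb x W hW j)
      (pj ζ (Nat.card F - 1) (sb x W hW j) v) = pj ζ (Nat.card F - 1) (sb x W hW j) v := by
    intro v
    apply Subtype.ext
    rw [hsub', hsub', hid]
  let W2 : Submodule F V := (LinearMap.ker f.1).map W.subtype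
  let W3 : Submodule F V := (LinearMap.range f.1).comap W.mkQ
  have hW3W : W ≤ W3 := by
    intro w hw
    change W.mkQ w ∈ LinearMap.range f.1
    rw [(Submodule.Quotient.mk_eq_zero W).2 hw |> fun h => (h : W.mkQ w = 0)]
    exact Submodule.zero_mem _
  have hW3m : W3.map W.mkQ = LinearMap.range f.1 :=
    Submodule.map_comap_eq_of_surjective (Submodule.mkQ_surjective W) _
  have hW3k : LinearMap.ker W.mkQ ⊓ W3 = W := by
    rw [Submodule.ker_mkQ]
    exact inf_eq_left.2 hW3W
  have hinv3 : Inv x W3 := by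
    intro i v hv
    obtain ⟨w, hw⟩ := LinearMap.mem_range.1 hv
    refine LinearMap.mem_range.2 ⟨sb x W hW i w, ?_⟩
    have h1 := LinearMap.congr_fun (f.2 i) w
    rw [LinearMap.comp_apply, LinearMap.comp_apply, hw] at h1
    exact h1
  -- four equations
  have e1 := rankP f.1 _ _ hfj hidW ⊤ fun _ _ => Submodule.mem_top
  have e2 := rank f.1 ⊤
  have e3 := rankP W.mkQ e _ hmk hid W3 (heU W3 hinv3)
  have e4 := rank W.mkQ W3
  rw [hW3m, hW3k] at e3 e4
  rw [inf_top_eq, ← LinearMap.range_eq_map] at e1 e2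
  rw [finrank_top] at e2
  have g1 : Module.finrank F ((⊤ : Submodule F W).map (pj ζ (Nat.card F - 1) (sb x W hW j))) =
      Module.finrank F (W.map e) := by
    rw [← Submodule.finrank_map_subtype_eq, ← Submodule.map_comp, hsub, Submodule.map_comp,
      Submodule.map_subtype_top]
  have g2 : Module.finrank F
      ((LinearMap.ker f.1).map (pj ζ (Nat.card F - 1) (sb x W hW j))) =
      Module.finrank F (W2.map e) := by
    rw [← Submodule.finrank_map_subtype_eq, ← Submodule.map_comp, hsub, Submodule.map_comp]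
  have g3 : Module.finrank F (LinearMap.ker f.1) = Module.finrank F W2 :=
    (Submodule.finrank_map_subtype_eq _ _).symm
  rw [g1, g2] at e1
  rw [g3] at e2
  have hinv2 : Inv x W2 := by
    rintro i v ⟨w, hw, rfl⟩
    refine ⟨sb x W hW i w, ?_, rfl⟩
    have h1 := LinearMap.congr_fun (f.2 i) w
    rw [LinearMap.comp_apply, LinearMap.comp_apply, LinearMap.mem_ker.1 hw, map_zero] at h1
    exact LinearMap.mem_ker.2 h1
  have hW3b : W3 ≠ ⊥ := fun h => hWb (le_bot_iff.1 (h ▸ hW3W))
  have hrpos : 0 < Module.finrank F (LinearMap.range f.1) :=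
    hpos' f.1 hf
  have c3 := (hc W3 ⟨hinv3, hW3b⟩).2 (by omega)
  have c2 : Module.finrank F (W2.map e) * Module.finrank F W ≤
      Module.finrank F (W.map e) * Module.finrank F W2 := by
    by_cases h : W2 = ⊥
    · rw [h, Submodule.map_bot, finrank_bot, zero_mul, mul_zero]
    · exact (hc W2 ⟨hinv2, h⟩).1
  rw [← e3, ← e4] at c3
  exact arith c3 c2 e1 e2

end FL0
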