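import Pool.Agent.FL0.StG
import Pool.Agent.RSF.H

/-!
# Module `HO0`: homomorphisms of the oriented groups of genus 0 are tuples
-/

set_option autoImplicit false

open RSF RSF.H

namespace FL0

namespace HO0

/-- the function on the generators of the oriented group of genus `0` given by a tuple -/
def og {G : Type} {d : ℕ} (p : Fin d → G) : OGen 0 d → G
  | OGen.a i => i.elim0
  | OGen.b i => i.elim0
  | OGen.x j => p j

/-- the tuple of a homomorphism -/
def ot {G : Type} [Group G] {m : List ℕ} (ρ : OGroup 0 m →* G) : Fin m.length → G :=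
  fun j => ρ (ox 0 m j)

theorem orel {G : Type} [Group G] {m : List ℕ} (p : Fin m.length → G)
    (h1 : ∀ j, p j ^ m.get j = 1) (h2 : (List.ofFn p).prod = 1) :
    ∀ r ∈ ORel 0 m, FreeGroup.lift (og p) r = 1 := by
  rintro r (⟨j, rfl⟩ | rfl)
  · rw [map_pow, FreeGroup.lift_apply_of]
    exact h1 j
  · rw [map_mul, map_ofFn, map_ofFn]
    simp only [List.ofFn_zero, List.prod_nil, mul_one, FreeGroup.lift_apply_of]
    exact h2

theorem ot_pow {G : Type} [Group G] {m : List ℕ} (ρ : OGroup 0 m →* G) (j : Fin m.length) :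
    ot ρ j ^ m.get j = 1 := by
  have h : (PresentedGroup.mk (ORel 0 m)) (FreeGroup.of (OGen.x j) ^ m.get j) = 1 :=
    PresentedGroup.one_of_mem (Or.inl ⟨j, rfl⟩)
  rw [map_pow] at h
  have h' := congrArg ρ h
  rw [map_pow, map_one] at h'
  exact h'

theorem ot_rel {G : Type} [Group G] {m : List ℕ} (ρ : OGroup 0 m →* G) :
    (List.ofFn (ot ρ)).prod = 1 := by
  have h := PresentedGroup.one_of_mem (rels := ORel 0 m) (Or.inr rfl)
  have h' := congrArg ρ h
  rw [map_one, map_mul, map_mul, map_ofFn, map_ofFn, map_ofFn, map_ofFn] at h'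
  simp only [List.ofFn_zero, List.prod_nil, mul_one] at h'
  exact h'

end HO0

open HO0

theorem t_HO0 : S_HO0 := by
  intro G _ m E
  refine Nat.card_congr
    { toFun := fun ρ => ⟨ot ρ.1, ot_pow ρ.1, ρ.2, ot_rel ρ.1⟩
      invFun := fun p => ⟨PresentedGroup.toGroup (orel p.1 p.2.1 p.2.2.2), ?_⟩
      left_inv := ?_
      right_inv := ?_ }
  · have h : (fun j => PresentedGroup.toGroup (orel p.1 p.2.1 p.2.2.2) (ox 0 m j)) = p.1 := by
      funext j
      exact PresentedGroup.toGroup.of (orel p.1 p.2.1 p.2.2.2)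
    rw [h]
    exact p.2.2.1
  · intro ρ
    apply Subtype.ext
    apply PresentedGroup.ext
    intro x
    refine (PresentedGroup.toGroup.of (orel (ot ρ.1) (ot_pow ρ.1) (ot_rel ρ.1))).trans ?_
    cases x with
    | a i => exact i.elim0
    | b i => exact i.elim0
    | x j => rfl
  · intro p
    apply Subtype.ext
    funext j
    exact PresentedGroup.toGroup.of (orel p.1 p.2.1 p.2.2.2)

end FL0
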