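import Pool.Agent.FL0.StR

/-!
# FL0, module RED: the number of tuples in `GL_n` with a common invariant subspace
-/

set_option autoImplicit false

namespace FL0

open RSF Polynomial

namespace Red

lemma sig_eq (m : List ℕ) : (m.length : ℝ) - sig m = ∑ j : Fin m.length, 1 / (m.get j : ℝ) := by
  have h : ∑ j : Fin m.length, 1 / (m.get j : ℝ) = (m.map fun k : ℕ => 1 / (k : ℝ)).sum := by
    have := Fin.sum_univ_fun_getElem m (fun k : ℕ => 1 / (k : ℝ))
    simpa using this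
  rw [h, sig]
  clear h
  induction m with
  | nil => simp
  | cons a l ih =>
    simp only [List.map_cons, List.sum_cons, List.length_cons]
    push_cast
    linarith

lemma sum_get (m : List ℕ) : ∑ j : Fin m.length, m.get j = m.sum := by
  have := Fin.sum_univ_getElem m
  exact this

/-- union bound -/
lemma ub {α ι : Type} [Finite α] (s : Set α) (T : Finset ι) (Y : ι → Set α) (M N : ℝ)
    (hs : ∀ x ∈ s, ∃ i ∈ T, x ∈ Y i) (hY : ∀ i ∈ T, ((Y i).ncard : ℝ) ≤ M) (hM : 0 ≤ M)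
    (hN : (T.card : ℝ) ≤ N) : (s.ncard : ℝ) ≤ N * M := by
  have h1 : s ⊆ ⋃ i ∈ T, Y i := by
    intro x hx
    obtain ⟨i, hi, hx'⟩ := hs x hx
    exact Set.mem_biUnion (show i ∈ (T : Set ι) from hi) hx'
  have h2 : s.ncard ≤ ∑ i ∈ T, (Y i).ncard :=
    (Set.ncard_le_ncard h1 (Set.toFinite _)).trans (Finset.set_ncard_biUnion_le T Y)
  have h3 : (s.ncard : ℝ) ≤ ∑ i ∈ T, ((Y i).ncard : ℝ) := by exact_mod_cast h2
  refine h3.trans ((Finset.sum_le_sum hY).trans ?_)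
  rw [Finset.sum_const, nsmul_eq_mul]
  exact mul_le_mul_of_nonneg_right hN hM

/-- the tuples with one large class -/
lemma part1 (m : List ℕ) (hm : ∀ k ∈ m, 2 ≤ k) (hEVS : S_EVS) (c₀ C₁ : ℝ)
    (hUPB : ∀ (F V : Type) [Field F] [Finite F] [AddCommGroup V] [Module F V]
      [FiniteDimensional F V], (∀ k ∈ m, k ∣ Nat.card F - 1) → ∀ z : F, z ≠ 0 →
      ∀ β : Fin m.length → F → ℕ,
      (Nat.card {t : Fin m.length → (V →ₗ[F] V) // (∀ j, t j ^ m.get j = 1) ∧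
        (∀ j ζ, ev (t j) ζ = β j ζ) ∧ (List.ofFn t).prod = z • 1} : ℝ) ≤
      (Nat.card F : ℝ) ^ (C₁ + ((m.length + sig m) / 2 - 1) * (Module.finrank F V : ℝ) ^ 2 -
        (∑ j, ∑ᶠ ζ : F, (β j ζ : ℝ) ^ 2) / 2))
    (F V : Type) [Field F] [Finite F] [AddCommGroup V] [Module F V] [FiniteDimensional F V]
    (hF : ∀ k ∈ m, k ∣ Nat.card F - 1) (z : F) (hz : z ≠ 0) :
    ({x : Fin m.length → (V →ₗ[F] V) | (∀ j, x j ^ m.get j = 1) ∧
      (List.ofFn x).prod = z • 1 ∧ ∃ j, c₀ * (Module.finrank F V : ℝ) ^ 2 ≤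
        (sq (x j) : ℝ) - (Module.finrank F V : ℝ) ^ 2 / m.get j}.ncard : ℝ) ≤
      ((Module.finrank F V : ℝ) + 1) ^ m.sum *
        (Nat.card F : ℝ) ^ (C₁ + (sig m - 1) * (Module.finrank F V : ℝ) ^ 2 -
          c₀ * (Module.finrank F V : ℝ) ^ 2 / 2) := by
  classical
  have hVf : Finite V := Module.finite_of_finite F
  have hEf : Finite (V →ₗ[F] V) := Finite.of_injective (fun f => (f : V → V)) DFunLike.coe_injective
  have hFt : Fintype F := Fintype.ofFinite F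
  have hq1 : (1 : ℝ) ≤ Nat.card F := by
    have := Finite.one_lt_card (α := F)
    exact_mod_cast this.le
  obtain ⟨n, hn⟩ : ∃ n, n = Module.finrank F V := ⟨_, rfl⟩
  rw [← hn]
  have hge1 : ∀ j : Fin m.length, 1 ≤ m.get j := fun j => by
    have := hm _ (List.get_mem m j)
    omega
  have hdv : ∀ j : Fin m.length, m.get j ∣ Nat.card F - 1 := fun j => hF _ (List.get_mem m j)
  -- the multiplicities
  obtain ⟨S, hS⟩ : ∃ S : Fin m.length → Set (F → ℕ), S = fun j =>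
    {β : F → ℕ | ∃ x : V →ₗ[F] V, x ^ m.get j = 1 ∧ ∀ ζ, ev x ζ = β ζ} := ⟨_, rfl⟩
  have hSfin : ∀ j, (S j).Finite := by
    intro j
    refine (Set.finite_range fun x : V →ₗ[F] V => fun ζ => ev x ζ).subset ?_
    rw [hS]
    rintro β ⟨x, -, hx⟩
    exact ⟨x, funext hx⟩
  have hSc : ∀ j, (hSfin j).toFinset.card ≤ (n + 1) ^ m.get j := by
    intro j
    have h1 := (hEVS F V (m.get j) (hge1 j) (hdv j)).2.2.2.1
    rw [← hn] at h1
    rw [← Set.ncard_eq_toFinset_card (S j) (hSfin j), hS]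
    exact h1
  have hT : (((Fintype.piFinset fun j => (hSfin j).toFinset).card : ℕ) : ℝ) ≤
      ((n : ℝ) + 1) ^ m.sum := by
    have h1 : (Fintype.piFinset fun j => (hSfin j).toFinset).card ≤ (n + 1) ^ m.sum := by
      rw [Fintype.card_piFinset]
      calc ∏ j, (hSfin j).toFinset.card ≤ ∏ j : Fin m.length, (n + 1) ^ m.get j :=
            Finset.prod_le_prod' fun j _ => hSc j
        _ = (n + 1) ^ m.sum := by rw [Finset.prod_pow_eq_pow_sum, sum_get]
    exact_mod_cast h1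
  have hcast : ∀ β : F → ℕ, ((∑ᶠ ζ : F, β ζ ^ 2 : ℕ) : ℝ) = ∑ᶠ ζ : F, (β ζ : ℝ) ^ 2 := by
    intro β
    rw [finsum_eq_sum_of_fintype, finsum_eq_sum_of_fintype]
    push_cast
    rfl
  refine ub _ (Fintype.piFinset fun j => (hSfin j).toFinset)
    (fun β => {t : Fin m.length → (V →ₗ[F] V) | ((∀ j, t j ^ m.get j = 1) ∧
      (∀ j ζ, ev (t j) ζ = β j ζ) ∧ (List.ofFn t).prod = z • 1) ∧
      ∃ j, c₀ * (n : ℝ) ^ 2 ≤ (sq (t j) : ℝ) - (n : ℝ) ^ 2 / m.get j}) _ _ ?_ ?_ ?_ hT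
  · rintro x ⟨hx1, hx2, hx3⟩
    refine ⟨fun j ζ => ev (x j) ζ, ?_, ⟨hx1, fun _ _ => rfl, hx2⟩, hx3⟩
    rw [Fintype.mem_piFinset]
    intro j
    rw [Set.Finite.mem_toFinset, hS]
    exact ⟨x j, hx1 j, fun _ => rfl⟩
  · intro β _
    by_cases hne : ({t : Fin m.length → (V →ₗ[F] V) | ((∀ j, t j ^ m.get j = 1) ∧
      (∀ j ζ, ev (t j) ζ = β j ζ) ∧ (List.ofFn t).prod = z • 1) ∧
      ∃ j, c₀ * (n : ℝ) ^ 2 ≤ (sq (t j) : ℝ) - (n : ℝ) ^ 2 / m.get j}).Nonempty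
    · obtain ⟨t, ⟨ht1, ht2, ht3⟩, j₀, hj₀⟩ := hne
      have h1 := hUPB F V hF z hz β
      rw [← hn] at h1
      have h3 : ({t : Fin m.length → (V →ₗ[F] V) | ((∀ j, t j ^ m.get j = 1) ∧
          (∀ j ζ, ev (t j) ζ = β j ζ) ∧ (List.ofFn t).prod = z • 1) ∧
          ∃ j, c₀ * (n : ℝ) ^ 2 ≤ (sq (t j) : ℝ) - (n : ℝ) ^ 2 / m.get j}).ncard ≤
          Nat.card {t : Fin m.length → (V →ₗ[F] V) // (∀ j, t j ^ m.get j = 1) ∧
            (∀ j ζ, ev (t j) ζ = β j ζ) ∧ (List.ofFn t).prod = z • 1} := by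
        exact (Set.ncard_le_ncard (t := {t : Fin m.length → (V →ₗ[F] V) |
          (∀ j, t j ^ m.get j = 1) ∧ (∀ j ζ, ev (t j) ζ = β j ζ) ∧ (List.ofFn t).prod = z • 1})
          (fun x hx => hx.1) (Set.toFinite _)).trans (Nat.card_coe_set_eq _).ge
      refine (Nat.cast_le.2 h3).trans (h1.trans ?_)
      refine Real.rpow_le_rpow_of_exponent_le hq1 ?_
      have h4 : ∀ j, (∑ᶠ ζ : F, (β j ζ : ℝ) ^ 2) = (sq (t j) : ℝ) := by
        intro j
        rw [← hcast]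
        unfold sq
        congr 1
        refine finsum_congr fun ζ => ?_
        rw [ht2 j ζ]
      rw [Finset.sum_congr rfl fun j _ => h4 j]
      have h5 : ∀ j, (n : ℝ) ^ 2 / m.get j ≤ sq (t j) := by
        intro j
        have h6 := (hEVS F V (m.get j) (hge1 j) (hdv j)).2.1 (t j) (ht1 j)
        rw [← hn] at h6
        exact h6
      have h7 : ∑ j : Fin m.length, (n : ℝ) ^ 2 / m.get j + c₀ * (n : ℝ) ^ 2 ≤
          ∑ j, (sq (t j) : ℝ) := by
        have h8 : c₀ * (n : ℝ) ^ 2 ≤ ∑ j : Fin m.length, ((sq (t j) : ℝ) - (n : ℝ) ^ 2 / m.get j) :=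
          hj₀.trans (Finset.single_le_sum
            (f := fun j : Fin m.length => ((sq (t j) : ℝ) - (n : ℝ) ^ 2 / m.get j))
            (fun j _ => sub_nonneg.2 (h5 j)) (Finset.mem_univ j₀))
        rw [Finset.sum_sub_distrib] at h8
        linarith
      have h9 : ∑ j : Fin m.length, (n : ℝ) ^ 2 / m.get j =
          (n : ℝ) ^ 2 * ((m.length : ℝ) - sig m) := by
        rw [sig_eq, Finset.mul_sum]
        exact Finset.sum_congr rfl fun j _ => by rw [mul_one_div]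
      rw [h9] at h7
      nlinarith
    · rw [Set.not_nonempty_iff_eq_empty] at hne
      rw [hne, Set.ncard_empty]
      push_cast
      positivity
  · positivity

/-- the tuples with a good invariant subspace -/
lemma part2 (m : List ℕ) (h2 : 2 < sig m) (hSUB : S_SUB) (C₂ : ℝ)
    (hPAR : ∀ (F V : Type) [Field F] [Finite F] [AddCommGroup V] [Module F V]
      [FiniteDimensional F V],
      (∀ k ∈ m, k ∣ Nat.card F - 1) → ∀ z : F, z ≠ 0 → ∀ (W : Submodule F V) (H : ℝ), 0 ≤ H →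
      (Nat.card {x : Fin m.length → (V →ₗ[F] V) // (∀ j, x j ^ m.get j = 1) ∧
          (List.ofFn x).prod = z • 1 ∧
          ∃ h : Inv x W, (Nat.card (Hm (sb x W h) (qt x W h)) : ℝ) ≤ H} : ℝ) ≤
      ((Module.finrank F V : ℝ) + 1) ^ (2 * m.sum) *
        (Nat.card F : ℝ) ^ (C₂ + (sig m - 1) * (Module.finrank F V : ℝ) ^ 2 -
          (sig m - 1) * (Module.finrank F W * Module.finrank F (V ⧸ W))) * H)
    (F V : Type) [Field F] [Finite F] [AddCommGroup V] [Module F V] [FiniteDimensional F V]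
    (hF : ∀ k ∈ m, k ∣ Nat.card F - 1) (z : F) (hz : z ≠ 0) :
    ({x : Fin m.length → (V →ₗ[F] V) | (∀ j, x j ^ m.get j = 1) ∧
      (List.ofFn x).prod = z • 1 ∧ ∃ (W : Submodule F V) (h : Inv x W), W ≠ ⊥ ∧ W ≠ ⊤ ∧
        (Nat.card (Hm (sb x W h) (qt x W h)) : ℝ) ≤ (Nat.card F : ℝ) ^
          ((sig m - 2) / 2 * Module.finrank F W * Module.finrank F (V ⧸ W))}.ncard : ℝ) ≤
      ((Module.finrank F V : ℝ) + 1) ^ (2 * m.sum + 1) *
        (4 * (Nat.card F : ℝ) ^ (C₂ + (sig m - 1) * (Module.finrank F V : ℝ) ^ 2 -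
          (sig m - 2) / 2 * ((Module.finrank F V : ℝ) - 1))) := by
  classical
  have hVf : Finite V := Module.finite_of_finite F
  have hEf : Finite (V →ₗ[F] V) := Finite.of_injective (fun f => (f : V → V)) DFunLike.coe_injective
  have hWf : Finite (Submodule F V) :=
    Finite.of_injective (fun W => (W : Set V)) SetLike.coe_injective
  have hWt : Fintype (Submodule F V) := Fintype.ofFinite _
  have hq1 : (1 : ℝ) ≤ Nat.card F := by
    have := Finite.one_lt_card (α := F)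
    exact_mod_cast this.le
  have hq0 : (0 : ℝ) < Nat.card F := by linarith
  obtain ⟨n, hn⟩ : ∃ n, n = Module.finrank F V := ⟨_, rfl⟩
  rw [← hn]
  obtain ⟨σ, hσ⟩ : ∃ σ, σ = sig m := ⟨_, rfl⟩
  rw [← hσ] at h2 ⊢
  have hmain : ∀ k ∈ Finset.Ico 1 n,
      ({x : Fin m.length → (V →ₗ[F] V) | (∀ j, x j ^ m.get j = 1) ∧
      (List.ofFn x).prod = z • 1 ∧ ∃ (W : Submodule F V) (h : Inv x W), Module.finrank F W = k ∧
        (Nat.card (Hm (sb x W h) (qt x W h)) : ℝ) ≤ (Nat.card F : ℝ) ^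
          ((σ - 2) / 2 * Module.finrank F W * Module.finrank F (V ⧸ W))}.ncard : ℝ) ≤
      ((n : ℝ) + 1) ^ (2 * m.sum) *
        (4 * (Nat.card F : ℝ) ^ (C₂ + (σ - 1) * (n : ℝ) ^ 2 - (σ - 2) / 2 * ((n : ℝ) - 1))) := by
    intro k hk
    rw [Finset.mem_Ico] at hk
    have hk1 : (1 : ℝ) ≤ k := by exact_mod_cast hk.1
    have hkn : (k : ℝ) + 1 ≤ n := by exact_mod_cast hk.2
    have hcard : (((Finset.univ.filter fun W : Submodule F V => Module.finrank F W = k).card : ℕ) : ℝ) ≤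
        4 * (Nat.card F : ℝ) ^ ((k : ℝ) * (n - k)) := by
      have h1 := (hSUB F V k (by rw [← hn]; omega)).2
      rw [← hn] at h1
      have h3 : (Finset.univ.filter fun W : Submodule F V => Module.finrank F W = k).card =
          Nat.card {W : Submodule F V // Module.finrank F W = k} := by
        rw [Nat.card_eq_fintype_card, Fintype.card_subtype]
      rw [h3]
      have h4 : ((Nat.card {W : Submodule F V // Module.finrank F W = k} : ℕ) : ℝ) ≤
          ((4 * Nat.card F ^ (k * (n - k)) : ℕ) : ℝ) := by exact_mod_cast h1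
      refine h4.trans (le_of_eq ?_)
      push_cast
      congr 1
      rw [← Real.rpow_natCast]
      congr 1
      push_cast [Nat.cast_sub hk.2.le]
      ring
    have hub := ub {x : Fin m.length → (V →ₗ[F] V) | (∀ j, x j ^ m.get j = 1) ∧
        (List.ofFn x).prod = z • 1 ∧ ∃ (W : Submodule F V) (h : Inv x W), Module.finrank F W = k ∧
        (Nat.card (Hm (sb x W h) (qt x W h)) : ℝ) ≤ (Nat.card F : ℝ) ^
          ((σ - 2) / 2 * Module.finrank F W * Module.finrank F (V ⧸ W))}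
      (Finset.univ.filter fun W : Submodule F V => Module.finrank F W = k)
      (fun W => {x : Fin m.length → (V →ₗ[F] V) | (∀ j, x j ^ m.get j = 1) ∧
          (List.ofFn x).prod = z • 1 ∧
          ∃ h : Inv x W, (Nat.card (Hm (sb x W h) (qt x W h)) : ℝ) ≤
            (Nat.card F : ℝ) ^ ((σ - 2) / 2 * k * (n - k))})
      (((n : ℝ) + 1) ^ (2 * m.sum) *
        (Nat.card F : ℝ) ^ (C₂ + (σ - 1) * (n : ℝ) ^ 2 - (σ - 1) * (k * (n - k))) *
          (Nat.card F : ℝ) ^ ((σ - 2) / 2 * k * (n - k)))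
      (4 * (Nat.card F : ℝ) ^ ((k : ℝ) * (n - k))) ?_ ?_ (by positivity) hcard
    · refine hub.trans ?_
      have h3 : 4 * (Nat.card F : ℝ) ^ ((k : ℝ) * (n - k)) * (((n : ℝ) + 1) ^ (2 * m.sum) *
          (Nat.card F : ℝ) ^ (C₂ + (σ - 1) * (n : ℝ) ^ 2 - (σ - 1) * (k * (n - k))) *
          (Nat.card F : ℝ) ^ ((σ - 2) / 2 * k * (n - k))) =
          ((n : ℝ) + 1) ^ (2 * m.sum) * (4 * (Nat.card F : ℝ) ^ ((k : ℝ) * (n - k) +
            (C₂ + (σ - 1) * (n : ℝ) ^ 2 - (σ - 1) * (k * (n - k))) +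
            (σ - 2) / 2 * k * (n - k))) := by
        rw [Real.rpow_add hq0, Real.rpow_add hq0]
        ring
      rw [h3]
      refine mul_le_mul_of_nonneg_left (mul_le_mul_of_nonneg_left ?_ (by norm_num)) (by positivity)
      refine Real.rpow_le_rpow_of_exponent_le hq1 ?_
      have h4 : (n : ℝ) - 1 ≤ k * (n - k) := by nlinarith
      nlinarith
    · rintro x ⟨hx1, hx2, W, h, hW, hH⟩
      refine ⟨W, by simp [hW], hx1, hx2, h, ?_⟩
      have h5 := Submodule.finrank_quotient_add_finrank W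
      have h6 : (Module.finrank F (V ⧸ W) : ℝ) = n - k := by
        rw [← hW, hn, ← h5]
        push_cast
        ring
      rw [hW, h6] at hH
      exact hH
    · intro W hW
      simp only [Finset.mem_filter, Finset.mem_univ, true_and] at hW
      have h5 := Submodule.finrank_quotient_add_finrank W
      have h6 : (Module.finrank F (V ⧸ W) : ℝ) = n - k := by
        rw [← hW, hn, ← h5]
        push_cast
        ring
      have h7 := hPAR F V hF z hz W ((Nat.card F : ℝ) ^ ((σ - 2) / 2 * k * (n - k)))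
        (by positivity)
      rw [h6, hW, ← hn, ← hσ] at h7
      exact le_trans (Nat.cast_le.2 (Nat.card_coe_set_eq _).ge) h7
  have hfin := ub {x : Fin m.length → (V →ₗ[F] V) | (∀ j, x j ^ m.get j = 1) ∧
      (List.ofFn x).prod = z • 1 ∧ ∃ (W : Submodule F V) (h : Inv x W), W ≠ ⊥ ∧ W ≠ ⊤ ∧
        (Nat.card (Hm (sb x W h) (qt x W h)) : ℝ) ≤ (Nat.card F : ℝ) ^
          ((σ - 2) / 2 * Module.finrank F W * Module.finrank F (V ⧸ W))}
    (Finset.Ico 1 n)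
    (fun k => {x : Fin m.length → (V →ₗ[F] V) | (∀ j, x j ^ m.get j = 1) ∧
      (List.ofFn x).prod = z • 1 ∧ ∃ (W : Submodule F V) (h : Inv x W), Module.finrank F W = k ∧
        (Nat.card (Hm (sb x W h) (qt x W h)) : ℝ) ≤ (Nat.card F : ℝ) ^
          ((σ - 2) / 2 * Module.finrank F W * Module.finrank F (V ⧸ W))})
    (((n : ℝ) + 1) ^ (2 * m.sum) *
        (4 * (Nat.card F : ℝ) ^ (C₂ + (σ - 1) * (n : ℝ) ^ 2 - (σ - 2) / 2 * ((n : ℝ) - 1))))
    ((n : ℝ) + 1) ?_ hmain (by positivity) ?_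
  · refine hfin.trans (le_of_eq ?_)
    rw [pow_succ]
    ring
  · rintro x ⟨hx1, hx2, W, h, hW0, hW1, hH⟩
    refine ⟨Module.finrank F W, ?_, hx1, hx2, W, h, rfl, hH⟩
    rw [Finset.mem_Ico]
    constructor
    · rw [Nat.one_le_iff_ne_zero]
      intro h8
      exact hW0 (Submodule.finrank_eq_zero.1 h8)
    · rw [hn]
      exact Submodule.finrank_lt hW1
  · rw [Nat.card_Ico]
    have : ((n - 1 : ℕ) : ℝ) ≤ n := by exact_mod_cast Nat.sub_le n 1
    linarith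

end Red

open Red in
theorem t_RED : M_RED := by
  intro hSUB hEVS hUPB hDEC hPAR m hm h2
  obtain ⟨C₁, hC₁, hU⟩ := hUPB m hm h2
  obtain ⟨C₂, hC₂, hP⟩ := hPAR m hm h2
  obtain ⟨c₀, hc₀, hD⟩ := hDEC m hm h2
  obtain ⟨σ, hσ⟩ : ∃ σ, σ = sig m := ⟨_, rfl⟩
  obtain ⟨r, hr⟩ := exists_nat_ge ((σ - 2) / c₀)
  have h2' : 2 < σ := by rw [hσ]; exact h2
  refine ⟨2 * m.sum + 1 + C₁ + C₂ + (σ - 2) / 2 + 3, r, ?_, fun n hn F _ _ hF z hz => ?_⟩
  · have : 0 ≤ (σ - 2) / 2 := by linarith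
    positivity
  have hVf : Finite (Fin n → F) := inferInstance
  have hEf : Finite ((Fin n → F) →ₗ[F] (Fin n → F)) :=
    Finite.of_injective (fun f => (f : (Fin n → F) → (Fin n → F))) DFunLike.coe_injective
  have hq2 : (2 : ℝ) ≤ Nat.card F := by
    have := Finite.one_lt_card (α := F)
    exact_mod_cast this
  have hq1 : (1 : ℝ) ≤ Nat.card F := by linarith
  have hq0 : (0 : ℝ) < Nat.card F := by linarith
  have hfr : Module.finrank F (Fin n → F) = n := Module.finrank_fin_fun F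
  have hA := part1 m hm hEVS c₀ C₁ hU F (Fin n → F) hF z hz
  have hB := part2 m h2 hSUB C₂ hP F (Fin n → F) hF z hz
  rw [hfr, ← hσ] at hA hB
  -- the tuples as endomorphisms
  have hinj : Nat.card {t : Fin m.length → GL (Fin n) F // (∀ j, t j ^ m.get j = 1) ∧
        (List.ofFn fun j => (t j).1).prod = Matrix.scalar (Fin n) z ∧
        ∃ W : Submodule F (Fin n → F), W ≠ ⊥ ∧ W ≠ ⊤ ∧ ∀ j, ∀ w ∈ W, (t j).1.mulVec w ∈ W} ≤
      Nat.card {x : Fin m.length → ((Fin n → F) →ₗ[F] (Fin n → F)) // (∀ j, x j ^ m.get j = 1) ∧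
        (List.ofFn x).prod = z • 1 ∧
        ∃ W : Submodule F (Fin n → F), Inv x W ∧ W ≠ ⊥ ∧ W ≠ ⊤} := by
    refine Nat.card_le_card_of_injective (fun t => ⟨fun j => Matrix.toLinAlgEquiv' (t.1 j).1,
      ?_, ?_, ?_⟩) ?_
    · intro j
      have h3 := congrArg Units.val (t.2.1 j)
      rw [Units.val_pow_eq_pow_val, Units.val_one] at h3
      rw [← map_pow, h3, map_one]
    · have h3 := t.2.2.1
      have h4 : (List.ofFn fun j => Matrix.toLinAlgEquiv' (t.1 j).1) =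
          (List.ofFn fun j => (t.1 j).1).map (Matrix.toLinAlgEquiv' : _ ≃ₐ[F] _) := by
        rw [List.map_ofFn]
        rfl
      rw [h4, ← map_list_prod, h3]
      have h5 : (Matrix.scalar (Fin n)) z = z • (1 : Matrix (Fin n) (Fin n) F) := by
        rw [Matrix.scalar_apply, Matrix.smul_one_eq_diagonal]
      rw [h5, map_smul, map_one]
    · obtain ⟨W, hW0, hW1, hW⟩ := t.2.2.2
      refine ⟨W, fun j w hw => ?_, hW0, hW1⟩
      rw [Submodule.mem_comap, Matrix.toLinAlgEquiv'_apply]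
      exact hW j w hw
    · intro t t' h
      have h3 := congrArg Subtype.val h
      refine Subtype.ext (funext fun j => Units.ext ?_)
      exact Matrix.toLinAlgEquiv'.injective (congrFun h3 j)
  have hdec : {x : Fin m.length → ((Fin n → F) →ₗ[F] (Fin n → F)) | (∀ j, x j ^ m.get j = 1) ∧
        (List.ofFn x).prod = z • 1 ∧
        ∃ W : Submodule F (Fin n → F), Inv x W ∧ W ≠ ⊥ ∧ W ≠ ⊤} ⊆
      {x : Fin m.length → ((Fin n → F) →ₗ[F] (Fin n → F)) | (∀ j, x j ^ m.get j = 1) ∧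
      (List.ofFn x).prod = z • 1 ∧ ∃ j, c₀ * (n : ℝ) ^ 2 ≤
        (sq (x j) : ℝ) - (n : ℝ) ^ 2 / m.get j} ∪
      {x : Fin m.length → ((Fin n → F) →ₗ[F] (Fin n → F)) | (∀ j, x j ^ m.get j = 1) ∧
      (List.ofFn x).prod = z • 1 ∧ ∃ (W : Submodule F (Fin n → F)) (h : Inv x W), W ≠ ⊥ ∧ W ≠ ⊤ ∧
        (Nat.card (Hm (sb x W h) (qt x W h)) : ℝ) ≤ (Nat.card F : ℝ) ^
          ((σ - 2) / 2 * Module.finrank F W * Module.finrank F ((Fin n → F) ⧸ W))} := by
    rintro x ⟨hx1, hx2, hx3⟩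
    rcases hD F (Fin n → F) hF x hx1 hx3 with h | h
    · left
      rw [hfr] at h
      exact ⟨hx1, hx2, h⟩
    · right
      rw [← hσ] at h
      exact ⟨hx1, hx2, h⟩
  have hsum := (Set.ncard_le_ncard hdec (Set.toFinite _)).trans (Set.ncard_union_le _ _)
  have htot : ((Nat.card {t : Fin m.length → GL (Fin n) F // (∀ j, t j ^ m.get j = 1) ∧
        (List.ofFn fun j => (t j).1).prod = Matrix.scalar (Fin n) z ∧
        ∃ W : Submodule F (Fin n → F), W ≠ ⊥ ∧ W ≠ ⊤ ∧ ∀ j, ∀ w ∈ W, (t j).1.mulVec w ∈ W} : ℕ)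
          : ℝ) ≤
      ((n : ℝ) + 1) ^ m.sum * (Nat.card F : ℝ) ^ (C₁ + (σ - 1) * (n : ℝ) ^ 2 -
          c₀ * (n : ℝ) ^ 2 / 2) +
      ((n : ℝ) + 1) ^ (2 * m.sum + 1) *
        (4 * (Nat.card F : ℝ) ^ (C₂ + (σ - 1) * (n : ℝ) ^ 2 - (σ - 2) / 2 * ((n : ℝ) - 1))) := by
    refine le_trans ?_ (add_le_add hA hB)
    have h3 := (hinj.trans (Nat.card_coe_set_eq {x : Fin m.length →
        ((Fin n → F) →ₗ[F] (Fin n → F)) | (∀ j, x j ^ m.get j = 1) ∧
        (List.ofFn x).prod = z • 1 ∧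
        ∃ W : Submodule F (Fin n → F), Inv x W ∧ W ≠ ⊥ ∧ W ≠ ⊤}).le).trans hsum
    exact_mod_cast h3
  rw [← hσ]
  refine htot.trans ?_
  -- absorb
  have hn1 : (1 : ℝ) ≤ (n : ℝ) + 1 := by
    have : (0 : ℝ) ≤ n := Nat.cast_nonneg n
    linarith
  obtain ⟨P, hP'⟩ : ∃ P : ℝ, P = ((n : ℝ) + 1) ^ (2 * m.sum + 1) := ⟨_, rfl⟩
  have hPpos : 0 < P := by rw [hP']; positivity
  have hP1 : ((n : ℝ) + 1) ^ m.sum ≤ P := by
    rw [hP']
    exact pow_le_pow_right₀ hn1 (by omega)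
  have hP2 : P ≤ ((n : ℝ) + 1) ^ (2 * m.sum + 1 + C₁ + C₂ + (σ - 2) / 2 + 3) := by
    rw [hP', ← Real.rpow_natCast]
    refine Real.rpow_le_rpow_of_exponent_le hn1 ?_
    push_cast
    linarith
  obtain ⟨Q, hQ⟩ : ∃ Q : ℝ, Q = (Nat.card F : ℝ) ^ (C₁ + C₂ + (σ - 2) / 2 +
    (σ - 1) * (n : ℝ) ^ 2 - (σ - 2) / 2 * n) := ⟨_, rfl⟩
  have hQ0 : 0 < Q := by rw [hQ]; positivity
  have hQ1 : (Nat.card F : ℝ) ^ (C₁ + (σ - 1) * (n : ℝ) ^ 2 - c₀ * (n : ℝ) ^ 2 / 2) ≤ Q := by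
    rw [hQ]
    refine Real.rpow_le_rpow_of_exponent_le hq1 ?_
    have h3 : (σ - 2) / c₀ ≤ n := hr.trans (by exact_mod_cast hn)
    rw [div_le_iff₀ hc₀] at h3
    have h4 : (0 : ℝ) ≤ n := Nat.cast_nonneg n
    nlinarith
  have hQ2 : (Nat.card F : ℝ) ^ (C₂ + (σ - 1) * (n : ℝ) ^ 2 - (σ - 2) / 2 * ((n : ℝ) - 1)) ≤ Q := by
    rw [hQ]
    refine Real.rpow_le_rpow_of_exponent_le hq1 ?_
    nlinarith
  have hQ3 : 8 * Q ≤ (Nat.card F : ℝ) ^ ((σ - 1) * (n : ℝ) ^ 2 +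
      (2 * m.sum + 1 + C₁ + C₂ + (σ - 2) / 2 + 3) - (σ - 2) / 2 * n) := by
    have h3 : (8 : ℝ) ≤ (Nat.card F : ℝ) ^ ((2 : ℝ) * m.sum + 1 + 3) := by
      calc (8 : ℝ) = 2 ^ (3 : ℝ) := by norm_num
        _ ≤ (Nat.card F : ℝ) ^ (3 : ℝ) := Real.rpow_le_rpow (by norm_num) hq2 (by norm_num)
        _ ≤ _ := Real.rpow_le_rpow_of_exponent_le hq1 (by
          have : (0 : ℝ) ≤ m.sum := Nat.cast_nonneg _
          linarith)
    have h4 : (Nat.card F : ℝ) ^ ((σ - 1) * (n : ℝ) ^ 2 +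
      (2 * m.sum + 1 + C₁ + C₂ + (σ - 2) / 2 + 3) - (σ - 2) / 2 * n) =
        (Nat.card F : ℝ) ^ ((2 : ℝ) * m.sum + 1 + 3) * Q := by
      rw [hQ, ← Real.rpow_add hq0]
      congr 1
      ring
    rw [h4]
    exact mul_le_mul_of_nonneg_right h3 hQ0.le
  calc _ ≤ P * Q + P * (4 * Q) := by
        refine add_le_add ?_ ?_
        · exact mul_le_mul hP1 hQ1 (by positivity) hPpos.le
        · rw [← hP']
          exact mul_le_mul_of_nonneg_left (by linarith) hPpos.le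
    _ ≤ P * (8 * Q) := by nlinarith [mul_pos hPpos hQ0]
    _ ≤ _ := mul_le_mul hP2 hQ3 (by positivity) (by positivity)

end FL0
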