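import Pool.Agent.FL0.StG

/-!
# FL0_ROT: roots of unity in the multiplicative group of a finite field
-/

set_option autoImplicit false

namespace FL0

theorem t_ROT : S_ROT := by
  classical
  intro F _ _ n k hn hk hO μ hμ
  have : Fintype F := Fintype.ofFinite F
  have hμ0 : μ ≠ 0 := by
    rintro rfl
    rw [zero_pow (by omega)] at hμ
    exact zero_ne_one hμ
  obtain ⟨w, hw⟩ := IsCyclic.exists_generator (α := Fˣ)
  have hcard : Nat.card Fˣ = Nat.card F - 1 := by
    rw [Nat.card_units]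
  have hord : orderOf w = Nat.card F - 1 := by
    rw [← hcard]
    exact orderOf_eq_card_of_forall_mem_zpowers hw
  obtain ⟨a, ha⟩ := (mem_powers_iff_mem_zpowers.2 (hw (Units.mk0 μ hμ0)))
  have ha' : w ^ a = Units.mk0 μ hμ0 := ha
  have hun : (Units.mk0 μ hμ0) ^ n = 1 := by
    apply Units.ext
    rw [Units.val_pow_eq_pow_val, Units.val_mk0, Units.val_one, hμ]
  have huN : (Units.mk0 μ hμ0) ^ (Nat.card F - 1) = 1 := by
    rw [← hcard]
    exact pow_card_eq_one'
  have hg : (Units.mk0 μ hμ0) ^ (Nat.gcd n (Nat.card F - 1)) = 1 :=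
    pow_gcd_eq_one.2 ⟨hun, huN⟩
  have hgpos : 0 < Nat.gcd n (Nat.card F - 1) := Nat.gcd_pos_of_pos_left _ (by omega)
  have hd : Nat.card F - 1 ∣ a * Nat.gcd n (Nat.card F - 1) := by
    have h1 : orderOf w ∣ a * Nat.gcd n (Nat.card F - 1) :=
      orderOf_dvd_of_pow_eq_one (by rw [pow_mul, ha', hg])
    rwa [hord] at h1
  have hka : k ∣ a := (Nat.mul_dvd_mul_iff_right hgpos).1 (dvd_trans hO hd)
  obtain ⟨b, rfl⟩ := hka
  refine ⟨((w ^ b : Fˣ) : F), Units.ne_zero _, ?_⟩
  rw [← Units.val_pow_eq_pow_val, ← pow_mul, mul_comm b k, ha', Units.val_mk0]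

end FL0
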