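import Pool.Agent.FL0.StR

/-!
# FL0_STR: strict Cauchy-Schwarz for the multiplicities
-/

set_option autoImplicit false

namespace FL0

open Polynomial

namespace STR

theorem main {F : Type} [Field F] (k n : ℕ) (hk : 1 ≤ k) (l : Fin n → F) (hl : ∀ i, l i ^ k = 1)
    (hkn : ¬ k ∣ n) (e : F → ℕ) (hev : ∀ ζ, e ζ = Nat.card {i // l i = ζ}) :
    n ^ 2 + 1 ≤ k * ∑ᶠ ζ : F, e ζ ^ 2 := by
  classical
  set R : Finset F := Finset.univ.image l with hR
  set c : F → ℕ := fun ζ => (Finset.univ.filter fun i => l i = ζ).card with hc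
  have hevc : ∀ ζ, e ζ = c ζ := by
    intro ζ
    rw [hev ζ, Nat.card_eq_fintype_card, Fintype.card_subtype]
  have hc0 : ∀ ζ, ζ ∉ R → c ζ = 0 := by
    intro ζ hζ
    rw [hc]
    beta_reduce
    rw [Finset.card_eq_zero, Finset.filter_eq_empty_iff]
    intro i _ h
    exact hζ (hR ▸ Finset.mem_image.2 ⟨i, Finset.mem_univ _, h⟩)
  obtain ⟨S, hS⟩ : ∃ S, S = ∑ᶠ ζ : F, e ζ ^ 2 := ⟨_, rfl⟩
  have hsq : S = ∑ ζ ∈ R, c ζ ^ 2 := by
    rw [hS, finsum_eq_sum_of_support_subset (s := R)]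
    · exact Finset.sum_congr rfl fun ζ _ => by rw [hevc]
    · intro ζ hζ
      by_contra h
      rw [Function.mem_support, hevc, hc0 ζ h] at hζ
      simp at hζ
  rw [← hS]
  have hsum : ∑ ζ ∈ R, c ζ = n := by
    have h1 := Finset.card_eq_sum_card_image l (Finset.univ : Finset (Fin n))
    rw [Finset.card_univ, Fintype.card_fin] at h1
    exact h1.symm
  have hRk : R.card ≤ k := by
    have h1 : R ⊆ (nthRoots k (1 : F)).toFinset := by
      intro ζ hζ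
      rw [hR, Finset.mem_image] at hζ
      obtain ⟨i, -, rfl⟩ := hζ
      rw [Multiset.mem_toFinset, mem_nthRoots hk]
      exact hl i
    exact (Finset.card_le_card h1).trans ((Multiset.toFinset_card_le _).trans (card_nthRoots k 1))
  by_contra hlt
  have hle : k * S ≤ n ^ 2 := by omega
  -- the sum of the squares of `k c - n`
  have e1 : ∑ ζ ∈ R, ((k : ℤ) * c ζ - n) ^ 2
      = (k : ℤ) ^ 2 * (S : ℤ) - 2 * k * n * n + R.card * (n : ℤ) ^ 2 := by
    have h1 : ∀ ζ ∈ R, ((k : ℤ) * c ζ - n) ^ 2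
        = (k : ℤ) ^ 2 * (c ζ : ℤ) ^ 2 - 2 * k * n * c ζ + (n : ℤ) ^ 2 := fun ζ _ => by ring
    rw [Finset.sum_congr rfl h1, Finset.sum_add_distrib, Finset.sum_sub_distrib, ← Finset.mul_sum,
      ← Finset.mul_sum, Finset.sum_const, nsmul_eq_mul, hsq]
    have h2 : (∑ ζ ∈ R, (c ζ : ℤ)) = n := by exact_mod_cast hsum
    rw [h2]
    push_cast
    ring
  have e2 : ∑ ζ ∈ R, ((k : ℤ) * c ζ - n) ^ 2 ≤ 0 := by
    rw [e1]
    have h1 : ((k : ℤ) * S : ℤ) ≤ (n : ℤ) ^ 2 := by exact_mod_cast hle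
    have h2 : (R.card : ℤ) ≤ k := by exact_mod_cast hRk
    have h3 : (0 : ℤ) ≤ k := by positivity
    nlinarith [mul_le_mul_of_nonneg_left h1 h3, mul_le_mul_of_nonneg_right h2 (sq_nonneg (n : ℤ))]
  have e3 : ∀ ζ ∈ R, ((k : ℤ) * c ζ - n) ^ 2 = 0 := by
    have h0 : ∑ ζ ∈ R, ((k : ℤ) * c ζ - n) ^ 2 = 0 :=
      le_antisymm e2 (Finset.sum_nonneg fun _ _ => sq_nonneg _)
    exact (Finset.sum_eq_zero_iff_of_nonneg fun _ _ => sq_nonneg _).1 h0
  have hn0 : 0 < n := by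
    rcases Nat.eq_zero_or_pos n with h | h
    · exact absurd (h ▸ dvd_zero k) hkn
    · exact h
  have h4 := e3 (l ⟨0, hn0⟩) (hR ▸ Finset.mem_image.2 ⟨_, Finset.mem_univ _, rfl⟩)
  have h5 : (k : ℤ) * c (l ⟨0, hn0⟩) = n := by
    have := pow_eq_zero_iff (two_ne_zero) |>.1 h4
    linarith
  exact hkn ⟨c (l ⟨0, hn0⟩), by exact_mod_cast h5.symm⟩


end STR

theorem t_STR : M_STR := by
  intro hD F V _ _ _ _ _ k hk hkq x hx hkn
  obtain ⟨-, l, -, hl, hev⟩ := hD F V k hk hkq x hx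
  exact STR.main k _ hk l hl hkn _ hev

end FL0
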