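import Pool.Agent.FL0.StR

/-!
# FL0_ZCM: maps that commute with diagonalizable endomorphisms
-/

set_option autoImplicit false

namespace FL0

theorem t_ZCM : M_ZCM := by
  classical
  intro hDIA F A B _ _ _ _ _ _ _ _ m hm1 hm a b ha hb
  have : Fintype F := Fintype.ofFinite F
  have : Finite A := Module.finite_of_finite F
  have : Finite B := Module.finite_of_finite F
  have : Finite (B →ₗ[F] A) := Finite.of_injective (fun f => (f : B → A)) DFunLike.coe_injective
  obtain ⟨bA, l, hA, -, hlA⟩ := hDIA F A m hm1 hm a ha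
  obtain ⟨bB, l', hB, -, hlB⟩ := hDIA F B m hm1 hm b hb
  let P : Type := {p : Fin (Module.finrank F A) × Fin (Module.finrank F B) // l p.1 = l' p.2}
  have hP : Nat.card P = ∑ᶠ ζ : F, ev a ζ * ev b ζ := by
    rw [finsum_eq_sum_of_fintype]
    have e : (Σ ζ : F, {i // l i = ζ} × {j // l' j = ζ}) ≃ P :=
      { toFun := fun s => ⟨(s.2.1.1, s.2.2.1), s.2.1.2.trans s.2.2.2.symm⟩
        invFun := fun p => ⟨l' p.1.2, ⟨p.1.1, p.2⟩, ⟨p.1.2, rfl⟩⟩
        left_inv := by
          rintro ⟨ζ, ⟨i, hi⟩, ⟨j, rfl⟩⟩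
          rfl
        right_inv := fun p => rfl }
    rw [← Nat.card_congr e, Nat.card_sigma]
    refine Finset.sum_congr rfl fun ζ _ => ?_
    rw [Nat.card_prod, hlA, hlB]
  let H : (P → F) → (B →ₗ[F] A) := fun f => bB.constr F fun j =>
    ∑ i, (if h : l i = l' j then f ⟨(i, j), h⟩ else 0) • bA i
  have hH : ∀ f j, H f (bB j) = ∑ i, (if h : l i = l' j then f ⟨(i, j), h⟩ else 0) • bA i :=
    fun f j => bB.constr_basis F _ j
  have hcom : ∀ f, a ∘ₗ H f = H f ∘ₗ b := by
    intro f
    refine bB.ext fun j => ?_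
    rw [LinearMap.comp_apply, LinearMap.comp_apply, hB, map_smul, hH, map_sum, Finset.smul_sum]
    refine Finset.sum_congr rfl fun i _ => ?_
    rw [map_smul, hA]
    by_cases h : l i = l' j
    · have h5 : l i • bA i = l' j • bA i := by rw [h]
      rw [dif_pos h, h5, smul_comm]
    · rw [dif_neg h, zero_smul, zero_smul, smul_zero]
  have hinj : Function.Injective (fun f : P → F =>
      (⟨H f, hcom f⟩ : {h : B →ₗ[F] A // a ∘ₗ h = h ∘ₗ b})) := by
    intro f g hfg
    have h1 : H f = H g := congrArg Subtype.val hfg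
    funext p
    obtain ⟨⟨i, j⟩, hp⟩ := p
    have h2 := congrArg (fun v => bA.repr v i) (congrFun (congrArg DFunLike.coe h1) (bB j))
    have h3 : ∀ f : P → F, bA.repr (H f (bB j)) i = f ⟨(i, j), hp⟩ := by
      intro f
      rw [hH, Module.Basis.repr_sum_self, dif_pos hp]
    calc f ⟨(i, j), hp⟩ = bA.repr (H f (bB j)) i := (h3 f).symm
      _ = bA.repr (H g (bB j)) i := h2
      _ = g ⟨(i, j), hp⟩ := h3 g
  have h4 := Nat.card_le_card_of_injective _ hinj
  rwa [Nat.card_fun, hP] at h4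

end FL0
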