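import Pool.Agent.FL0.AllC
import Pool.Agent.FL0.HO0
import Pool.Agent.FL0.LFT
import Pool.Agent.FL0.LFH
import Pool.Agent.FL0.ROT
import Pool.Agent.FL0.DIA
import Pool.Agent.FL0.EVS
import Pool.Agent.FL0.CLS
import Pool.Agent.FL0.UPB
import Pool.Agent.FL0.ABS
import Pool.Agent.FL0.SMC
import Pool.Agent.FL0.POL
import Pool.Agent.FL0.CNT0
import Pool.Agent.FL0.LOW
import Pool.Agent.FL0.FII
import Pool.Agent.FL0.FIII
import Pool.Agent.FL0.ZRG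
import Pool.Agent.FL0.ZCM
import Pool.Agent.FL0.ZAN
import Pool.Agent.FL0.ZON
import Pool.Agent.FL0.FIB
import Pool.Agent.FL0.SMP
import Pool.Agent.FL0.HNF
import Pool.Agent.FL0.STR
import Pool.Agent.FL0.DEC
import Pool.Agent.FL0.PAR
import Pool.Agent.FL0.RED
import Pool.Agent.FL0.MAIN

/-!
# Random homomorphisms of oriented genus 0 to `PSL_n(q)`: assembly
-/

namespace FL0

open RSF

theorem a_FRO : S_FRO := FLC.conv_FRO FLC.a_FRO
theorem a_LFH : S_LFH := t_LFH t_HO0 t_LFT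
theorem a_EVS : S_EVS := t_EVS t_DIA
theorem a_CLS : S_CLS := t_CLS f_PI t_DIA
theorem a_UPB : S_UPB := t_UPB f_PI a_FRO a_EVS a_CLS
theorem a_ABS : S_ABS := t_ABS f_PI f_JL t_ROT a_EVS a_CLS
theorem a_SMC : S_SMC := t_SMC a_FRO t_ROT a_EVS
theorem a_CNT0 : S_CNT0 := t_CNT0 a_LFH a_SMC a_ABS t_POL
theorem a_LOW : S_LOW := t_LOW f_PI f_PJ a_CNT0
theorem a_ZCM : S_ZCM := t_ZCM t_DIA
theorem a_ZON : S_ZON := t_ZON t_ZRG a_ZCM t_ZAN
theorem a_FIB : S_FIB := t_FIB a_ZON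
theorem a_SMP : S_SMP := t_SMP t_DIA
theorem a_HNF : S_HNF := t_HNF t_DIA
theorem a_STR : S_STR := t_STR t_DIA
theorem a_DEC : S_DEC := t_DEC t_DIA a_SMP a_HNF a_STR
theorem a_PAR : S_PAR := t_PAR t_DIA a_EVS a_UPB a_FIB
theorem a_RED : S_RED := t_RED f_SUB a_EVS a_UPB a_DEC a_PAR
theorem a_FII : S_FII := t_FII a_RED a_LFH t_ROT a_LOW t_POL
theorem a_FIII : S_FIII := t_FIII t_HO0 a_LOW
theorem a_Main : Main := t_Main0 a_CNT0 a_FII a_FIII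

end FL0
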