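import Pool.Agent.FLC.MN
import Pool.Agent.FLC.DC
import Pool.Agent.FLC.IRC
import Pool.Agent.FLC.FRB
import Pool.Agent.FLC.NRU
import Pool.Agent.FLC.DIM
import Pool.Agent.FLC.REF
import Pool.Agent.FLC.PER
import Pool.Agent.FLC.LST
import Pool.Agent.FLC.INJ
import Pool.Agent.FLC.SRT
import Pool.Agent.FLC.BRG
import Pool.Agent.FLC.XMC
import Pool.Agent.FLC.LOW
import Pool.Agent.FLC.SEM
import Pool.Agent.FLC.CHB
import Pool.Agent.FLC.HV
import Pool.Agent.FLC.BR1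
import Pool.Agent.FLC.BR2
import Pool.Agent.FLC.BR3
import Pool.Agent.FLC.MB
import Pool.Agent.FLC.STR
import Pool.Agent.FLC.FLN
import Pool.Agent.FLC.FL
import Pool.Agent.FLC.ZEN
import Pool.Agent.FLC.ZET
import Pool.Agent.FLC.LIN
import Pool.Agent.FLC.FRO
import Pool.Agent.FLC.CONV
import Pool.Agent.RSF.Fin1

/-!
# The sharp character bound: assembly
-/

namespace FLC

theorem a_DC : S_DC := t_DC t_MN
theorem a_NRU : S_NRU := t_NRU t_MN
theorem a_PER : S_PER := t_PER t_REF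
theorem a_SRT : S_SRT := t_SRT a_PER t_LST
theorem a_XMC : S_XMC := t_XMC t_MN t_BRG
theorem a_LOW : S_LOW := t_LOW t_DIM a_SRT a_XMC RSF.f_PI
theorem a_CHB : S_CHB := t_CHB a_NRU t_BRG a_XMC
theorem a_HV : S_HV := t_HV t_DIM a_SRT t_BRG a_XMC
theorem a_MB : S_MB := t_MB t_MN a_DC t_BRG a_XMC t_BR1 t_BR2 t_BR3
theorem a_STR : S_STR := t_STR t_DIM a_XMC a_LOW t_INJ a_HV a_MB
theorem a_FL : S_FL := t_FL t_SEM a_CHB t_DIM t_INJ a_LOW a_XMC a_STR t_FLN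
theorem a_ZET : S_ZET := t_ZET a_STR a_MB t_IRC RSF.f_KB RSF.f_KC t_ZEN
theorem a_LIN : S_LIN := t_LIN a_STR
theorem a_FRO : S_FRO := t_FRO t_MN t_FRB a_FL a_ZET a_LIN

end FLC
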