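import Pool.Agent.RSF.Stmts4

/-!
# Random homomorphisms of oriented genus 0 to `PSL_n(q)` (MP_5b5212_al): definitions of the group side
-/

namespace FL0

open RSF Polynomial

noncomputable section

/-- `SL_n(F)` -/
abbrev SL (n : ℕ) (F : Type) [Field F] : Type := Matrix.SpecialLinearGroup (Fin n) F

/-- the dimension of the eigenspace -/
def ev {F V : Type} [Field F] [AddCommGroup V] [Module F V] (A : V →ₗ[F] V) (ζ : F) : ℕ :=
  Module.finrank F (LinearMap.ker (A - ζ • LinearMap.id))

/-- the sum of the squares of the dimensions of the eigenspaces -/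
def sq {F V : Type} [Field F] [AddCommGroup V] [Module F V] (A : V →ₗ[F] V) : ℕ :=
  ∑ᶠ ζ : F, ev A ζ ^ 2

/-- the linear map of a matrix -/
def lm {F : Type} [Field F] {n : ℕ} (A : Matrix (Fin n) (Fin n) F) :
    (Fin n → F) →ₗ[F] (Fin n → F) := Matrix.toLin' A

/-- `δ = sq A - n ^ 2 / k` -/
def del {F : Type} [Field F] {n : ℕ} (k : ℕ) (A : Matrix (Fin n) (Fin n) F) : ℝ :=
  (sq (lm A) : ℝ) - (n : ℝ) ^ 2 / k

/-- The orders: `k (n, q - 1)` divides `q - 1`. -/
def Ord (n : ℕ) (F : Type) (k : ℕ) : Prop := k * Nat.gcd n (Nat.card F - 1) ∣ Nat.card F - 1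

/-- the number of the homomorphisms to `PSL_n(F)` -/
def hN (n : ℕ) (F : Type) [Field F] (m : List ℕ) : ℕ := Nat.card (OGroup 0 m →* PS n F)

/-- the elements of `SL_n(F)` with central `k`-th power -/
def CA (n : ℕ) (F : Type) [Field F] (k : ℕ) : Type :=
  {A : SL n F // A ^ k ∈ Subgroup.center (SL n F)}

end

end FL0
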