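import Pool.Agent.FL0.StR

/-!
# FL0_ZRG: block triangular matrices of finite order prime to the characteristic
-/

set_option autoImplicit false

namespace FL0

namespace ZRG

variable {F A B : Type} [Field F] [AddCommGroup A] [Module F A] [AddCommGroup B] [Module F B]

theorem bk_apply (a : A →ₗ[F] A) (b : B →ₗ[F] B) (c : B →ₗ[F] A) (v : A × B) :
    bk a c b v = (a v.1 + c v.2, b v.2) := rfl

theorem snd_pow (a : A →ₗ[F] A) (b : B →ₗ[F] B) (c : B →ₗ[F] A) (i : ℕ) (v : A × B) :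
    ((bk a c b ^ i) v).2 = (b ^ i) v.2 := by
  induction i with
  | zero => simp
  | succ i ih =>
    rw [pow_succ', pow_succ', Module.End.mul_apply, Module.End.mul_apply, bk_apply, ih]

/-- the sum over the cyclic group -/
def sm (m : ℕ) (a : A →ₗ[F] A) (b : B →ₗ[F] B) (c : B →ₗ[F] A) (u : B) : A × B :=
  ∑ i ∈ Finset.range m, (bk a c b ^ i) (0, (b ^ (m - i)) u)

theorem sm_snd (m : ℕ) (a : A →ₗ[F] A) (b : B →ₗ[F] B) (c : B →ₗ[F] A) (hb : b ^ m = 1) (u : B) :
    (sm m a b c u).2 = (m : F) • u := by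
  unfold sm
  rw [Prod.snd_sum, Finset.sum_congr rfl (g := fun _ => u) fun i hi => ?_]
  · rw [Finset.sum_const, Finset.card_range, Nat.cast_smul_eq_nsmul]
  · rw [snd_pow]
    change (b ^ i) ((b ^ (m - i)) u) = u
    rw [← Module.End.mul_apply, ← pow_add, Nat.add_sub_cancel' (Finset.mem_range.1 hi).le, hb,
      Module.End.one_apply]

theorem sm_bk (m : ℕ) (a : A →ₗ[F] A) (b : B →ₗ[F] B) (c : B →ₗ[F] A) (hb : b ^ m = 1)
    (hm : bk a c b ^ m = 1) (u : B) : bk a c b (sm m a b c u) = sm m a b c (b u) := by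
  let g : ℕ → A × B := fun i => (bk a c b ^ i) (0, (b ^ (m + 1 - i)) u)
  have h1 : bk a c b (sm m a b c u) = ∑ i ∈ Finset.range m, g (i + 1) := by
    unfold sm
    rw [map_sum]
    refine Finset.sum_congr rfl fun i _ => ?_
    change bk a c b ((bk a c b ^ i) (0, (b ^ (m - i)) u)) =
      (bk a c b ^ (i + 1)) (0, (b ^ (m + 1 - (i + 1))) u)
    rw [← Module.End.mul_apply, ← pow_succ', Nat.add_sub_add_right]
  have h2 : sm m a b c (b u) = ∑ i ∈ Finset.range m, g i := by
    unfold sm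
    refine Finset.sum_congr rfl fun i hi => ?_
    change (bk a c b ^ i) (0, (b ^ (m - i)) (b u)) = (bk a c b ^ i) (0, (b ^ (m + 1 - i)) u)
    rw [← Module.End.mul_apply (b ^ (m - i)) b, ← pow_succ,
      Nat.succ_sub (Finset.mem_range.1 hi).le]
  have h3 : g m = g 0 := by
    change (bk a c b ^ m) (0, (b ^ (m + 1 - m)) u) = (bk a c b ^ 0) (0, (b ^ (m + 1 - 0)) u)
    rw [hm, Nat.add_sub_cancel_left, pow_zero, Nat.sub_zero, pow_one, pow_succ, hb, one_mul]
  have h4 := Finset.sum_range_succ g m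
  have h5 := Finset.sum_range_succ' g m
  rw [h4, h3] at h5
  rw [h1, h2]
  exact (add_right_cancel h5).symm

end ZRG

open ZRG in
theorem t_ZRG : S_ZRG := by
  intro F A B _ _ _ _ _ m _ hm0 a b c _ hb hbk
  -- the first coordinates of the sums
  let t : B →ₗ[F] A := LinearMap.fst F A B ∘ₗ
    (∑ i ∈ Finset.range m, (bk a c b ^ i) ∘ₗ LinearMap.inr F A B ∘ₗ (b ^ (m - i)))
  have ht : ∀ u, t u = (sm m a b c u).1 := by
    intro u
    change ((∑ i ∈ Finset.range m, (bk a c b ^ i) ∘ₗ LinearMap.inr F A B ∘ₗ (b ^ (m - i))) u).1 = _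
    rw [LinearMap.sum_apply]
    rfl
  refine ⟨-((m : F)⁻¹ • t), LinearMap.ext fun u => ?_⟩
  have h1 := congrArg Prod.fst (sm_bk m a b c hb hbk u)
  rw [bk_apply] at h1
  change a (sm m a b c u).1 + c (sm m a b c u).2 = (sm m a b c (b u)).1 at h1
  rw [sm_snd m a b c hb, map_smul, ← ht, ← ht] at h1
  rw [LinearMap.sub_apply, LinearMap.comp_apply, LinearMap.comp_apply, LinearMap.neg_apply,
    LinearMap.neg_apply, LinearMap.smul_apply, LinearMap.smul_apply, map_neg, map_smul, ← h1,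
    smul_add, smul_smul, inv_mul_cancel₀ hm0, one_smul]
  abel

end FL0
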